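import Mathlib

/-! Combinatorial core of an operator whose frequently recurrent vectors are dense while no vector over a
fixed direction is upper frequently recurrent. -/

set_option autoImplicit false

namespace Pool.Agent.H963Z

open Finset

def a (i : ℕ) : ℕ := 16 ^ (i + 5)
def kap (i : ℕ) : ℕ := padicValNat 2 (i + 1)
def R (k : ℕ) : ℕ := 16 ^ k
def s (k : ℕ) : ℕ := 16 ^ (2 * k + 1)
def ep (n : ℕ) : ℕ := Nat.log 16 n - 5

lemma a_pos (i : ℕ) : 0 < a i := by unfold a; positivity
lemma a_succ (i : ℕ) : a (i + 1) = 16 * a i := by unfold a; ring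
lemma a_mono {i j : ℕ} (h : i ≤ j) : a i ≤ a j := by
  unfold a; exact Nat.pow_le_pow_right (by norm_num) (by omega)
lemma a_lt {i j : ℕ} (h : i < j) : 16 * a i ≤ a j := by
  rw [← a_succ]; exact a_mono h
lemma s_pos (k : ℕ) : 0 < s k := by unfold s; positivity
lemma R_pos (k : ℕ) : 0 < R k := by unfold R; positivity

lemma two_pow_kap (i : ℕ) : 2 ^ kap i ≤ i + 1 :=
  Nat.le_of_dvd (by omega) pow_padicValNat_dvd

lemma two_mul_le_two_pow (k : ℕ) : 2 * k ≤ 2 ^ k + 1 := by
  induction k with
  | zero => simp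
  | succ k ih =>
    rcases k with _ | k
    · norm_num
    · have : 2 ≤ 2 ^ (k + 1) := by
        calc 2 = 2 ^ 1 := by norm_num
          _ ≤ 2 ^ (k + 1) := Nat.pow_le_pow_right (by norm_num) (by omega)
      rw [pow_succ]; omega

lemma kap_le (i : ℕ) : 2 * kap i ≤ i + 2 := by
  have := two_pow_kap i
  have := two_mul_le_two_pow (kap i)
  omega

lemma s_dvd_a (i : ℕ) : s (kap i) ∣ a i := by
  unfold s a
  exact pow_dvd_pow _ (by have := kap_le i; omega)

lemma s_le_a (i : ℕ) : s (kap i) ≤ a i := Nat.le_of_dvd (a_pos i) (s_dvd_a i)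

lemma s_dvd_s {k k' : ℕ} (h : k ≤ k') : s k ∣ s k' := by
  unfold s; exact pow_dvd_pow _ (by omega)

lemma R_s (k : ℕ) : 16 * R k ≤ s k := by
  unfold R s
  calc 16 * 16 ^ k = 16 ^ (k + 1) := by ring
    _ ≤ 16 ^ (2 * k + 1) := Nat.pow_le_pow_right (by norm_num) (by omega)

lemma two_mul_le_R (k : ℕ) : 2 * k ≤ R k := by
  unfold R
  induction k with
  | zero => simp
  | succ k ih =>
    have : 1 ≤ 16 ^ k := Nat.one_le_pow _ _ (by norm_num)
    rw [pow_succ]; omega

lemma four_mul_le_a (i : ℕ) : 4 * (i + 2) ≤ a i := by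
  unfold a
  induction i with
  | zero => norm_num
  | succ k ih =>
    rw [show k + 1 + 5 = (k + 5) + 1 by ring, pow_succ]; omega

lemma ep_eq {j n : ℕ} (h1 : a j ≤ n) (h2 : n < 16 * a j) : ep n = j := by
  unfold ep
  have : Nat.log 16 n = j + 5 := by
    apply Nat.log_eq_of_pow_le_of_lt_pow
    · exact h1
    · rw [pow_succ]; unfold a at h2; omega
  omega

noncomputable def beta (i : ℕ) (b : Bool) (n : ℕ) : ℝ :=
  if b = true then 1 else if n % s (kap i) ≤ R (kap i) then 0 else 1

noncomputable def chi (i : ℕ) (b : Bool) (n : ℕ) : ℝ :=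
  if n < a i then 0
  else if i < ep n ∧ 4 * a (ep n) ≤ n ∧ n < 8 * a (ep n) ∧ b = true ∧ kap (ep n) ≤ kap i then 0
  else if _h : i < ep n ∧ 4 * a (ep n) ≤ n ∧ n < 5 * a (ep n) ∧ n % s (kap (ep n)) ≤ R (kap (ep n)) then
    chi i b (n % s (kap (ep n)))
  else beta i b n
termination_by n
decreasing_by
  have h1 := Nat.mod_lt n (s_pos (kap (ep n)))
  have h2 := s_le_a (ep n)
  omega

lemma beta_mem (i : ℕ) (b : Bool) (n : ℕ) : beta i b n = 0 ∨ beta i b n = 1 := by
  unfold beta; split_ifs <;> simp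

lemma chi_mem (i : ℕ) (b : Bool) (n : ℕ) : chi i b n = 0 ∨ chi i b n = 1 := by
  induction n using Nat.strong_induction_on with
  | _ n ih =>
    rw [chi]
    split_ifs with h1 h2 h3
    · simp
    · simp
    · apply ih
      have h1 := Nat.mod_lt n (s_pos (kap (ep n)))
      have h2 := s_le_a (ep n)
      omega
    · exact beta_mem i b n

lemma chi_sub_le (i : ℕ) (b : Bool) (n n' : ℕ) : |chi i b n - chi i b n'| ≤ 1 := by
  rcases chi_mem i b n with h | h <;> rcases chi_mem i b n' with h' | h' <;> simp [h, h']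

lemma chi_lt {i n : ℕ} (b : Bool) (h : n < a i) : chi i b n = 0 := by
  rw [chi, if_pos h]

lemma chi_free {i n : ℕ} (b : Bool) (h : a i ≤ n) (hf : ∀ j, i < j → n < 4 * a j ∨ 8 * a j ≤ n) :
    chi i b n = beta i b n := by
  rw [chi, if_neg (by omega), if_neg, dif_neg]
  · rintro ⟨h1, h2, h3, -⟩
    have := hf _ h1
    omega
  · rintro ⟨h1, h2, h3, -⟩
    have := hf _ h1
    omega

lemma chi_near {i n : ℕ} (b : Bool) (h : a i ≤ n) (h' : n < 64 * a i) : chi i b n = beta i b n := by
  apply chi_free b h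
  intro j hj
  have := a_lt hj
  omega

lemma chi_zero {i j n : ℕ} (hij : i < j) (h1 : 4 * a j ≤ n) (h2 : n < 8 * a j) (hk : kap j ≤ kap i) :
    chi i true n = 0 := by
  have he : ep n = j := ep_eq (by omega) (by omega)
  rw [chi]
  split_ifs with h3 h4 h5
  · rfl
  · rfl
  · exact absurd ⟨by omega, by rw [he]; omega, by rw [he]; omega, rfl, by rw [he]; exact hk⟩ h4
  · exact absurd ⟨by omega, by rw [he]; omega, by rw [he]; omega, rfl, by rw [he]; exact hk⟩ h4

lemma chi_win {i j n : ℕ} {b : Bool} (hij : i < j) (hb : ¬ (b = true ∧ kap j ≤ kap i))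
    (h1 : 4 * a j ≤ n) (h2 : n < 5 * a j) (hw : n % s (kap j) ≤ R (kap j)) :
    chi i b n = chi i b (n % s (kap j)) := by
  have he : ep n = j := ep_eq (by omega) (by omega)
  have := a_lt hij
  rw [chi, if_neg (by omega), if_neg, dif_pos, he]
  · rw [he]; exact ⟨hij, h1, h2, hw⟩
  · rw [he]; rintro ⟨-, -, -, h⟩; exact hb h

lemma chi_off {i j n : ℕ} {b : Bool} (hij : i < j) (hb : ¬ (b = true ∧ kap j ≤ kap i))
    (h1 : 4 * a j ≤ n) (h2 : n < 8 * a j) (hw : ¬ (n < 5 * a j ∧ n % s (kap j) ≤ R (kap j))) :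
    chi i b n = beta i b n := by
  have he : ep n = j := ep_eq (by omega) (by omega)
  have := a_lt hij
  rw [chi, if_neg (by omega), if_neg, dif_neg]
  · rw [he]; rintro ⟨-, -, h⟩; exact hw h
  · rw [he]; rintro ⟨-, -, -, h⟩; exact hb h

/-- the return times of the `j`-th epoch -/
def Prim (j m : ℕ) : Prop := 4 * a j ≤ m ∧ m < 5 * a j ∧ s (kap j) ∣ m

lemma Prim.add_lt {j m l : ℕ} (h : Prim j m) (hl : l ≤ R (kap j)) : l + m < 5 * a j := by
  obtain ⟨h1, h2, h3⟩ := h
  have h4 : s (kap j) ∣ 5 * a j := Dvd.dvd.mul_left (s_dvd_a j) 5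
  have h5 : s (kap j) ∣ 5 * a j - m := Nat.dvd_sub h4 h3
  have h6 := Nat.le_of_dvd (by omega) h5
  have := R_s (kap j)
  have := R_pos (kap j)
  omega

lemma Prim.mod {j m k : ℕ} (h : Prim j m) (hk : k ≤ kap j) (l : ℕ) : (l + m) % s k = l % s k := by
  obtain ⟨c, hc⟩ := (s_dvd_s hk).trans h.2.2
  rw [hc, Nat.add_mul_mod_self_left]

lemma chi_copy {i j m l : ℕ} {b : Bool} (h : Prim j m) (hij : i < j) (hb : ¬ (b = true ∧ kap j ≤ kap i))
    (hl : l ≤ R (kap j)) : chi i b (l + m) = chi i b l := by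
  have h1 := R_s (kap j)
  have h2 := R_pos (kap j)
  have h3 : (l + m) % s (kap j) = l := by
    rw [h.mod le_rfl, Nat.mod_eq_of_lt (by omega)]
  rw [chi_win hij hb (by have := h.1; omega) (h.add_lt hl) (by omega), h3]

noncomputable def g (i : ℕ) (b : Bool) : ℝ := if b = true then 2 ^ kap i else 1
noncomputable def w (i : ℕ) (b : Bool) : ℝ := if b = true then (1 / 32) ^ kap i else 1

lemma g_pos (i : ℕ) (b : Bool) : 0 < g i b := by unfold g; split_ifs <;> positivity
lemma w_pos (i : ℕ) (b : Bool) : 0 < w i b := by unfold w; split_ifs <;> positivity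
lemma g_le (i : ℕ) (b : Bool) : g i b ≤ 2 ^ kap i := by
  unfold g; split_ifs
  · exact le_rfl
  · exact one_le_pow₀ (by norm_num)

lemma wg_true (i : ℕ) : w i true * g i true = (1 / 16) ^ kap i := by
  unfold w g
  simp only [if_true]
  rw [← mul_pow]; norm_num

lemma wg_le (i : ℕ) (b : Bool) : w i b * g i b ≤ 1 := by
  cases b
  · simp [w, g]
  · rw [wg_true]; exact pow_le_one₀ (by norm_num) (by norm_num)

lemma pow_bound {k k' l : ℕ} (h : k + k' ≤ l) : (2 : ℝ) ^ k ≤ 2 ^ l * (1 / 2) ^ k' := by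
  rw [one_div, inv_pow, ← div_eq_mul_inv, le_div_iff₀ (by positivity), ← pow_add]
  exact pow_le_pow_right₀ (by norm_num) h

lemma small_of {i l k' x y : ℕ} {b : Bool} {k : ℕ} (hg : g i b ≤ 2 ^ k) (h : k + k' ≤ l) :
    g i b * |chi i b x - chi i b y| ≤ 2 ^ l * (1 / 2) ^ k' := by
  calc g i b * |chi i b x - chi i b y| ≤ g i b * 1 :=
        mul_le_mul_of_nonneg_left (chi_sub_le i b x y) (g_pos i b).le
    _ ≤ 2 ^ k := by rw [mul_one]; exact hg
    _ ≤ _ := pow_bound h

lemma claimP1 {i j m : ℕ} {b : Bool} (h : Prim j m) (hb : ¬ (b = true ∧ i = j)) (l : ℕ) :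
    g i b * |chi i b (l + m) - chi i b l| ≤ 2 ^ l * (1 / 2) ^ kap j := by
  have hz : ∀ x y : ℝ, x = y → g i b * |x - y| ≤ 2 ^ l * (1 / 2) ^ kap j := by
    intro x y hxy; rw [hxy, sub_self, abs_zero, mul_zero]; positivity
  have hki := kap_le i
  have hkj := kap_le j
  have hai := four_mul_le_a i
  have hR := two_mul_le_R (kap j)
  have hRs := R_s (kap j)
  have hsa := s_le_a j
  rcases lt_trichotomy j i with hji | hji | hji
  · have := a_lt hji
    by_cases hl : l + m < a i
    · apply hz; rw [chi_lt b hl, chi_lt b (by omega)]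
    · have := h.2.1
      exact small_of (g_le i b) (by omega)
  · subst hji
    have hb' : b = false := by cases b <;> simp_all
    subst hb'
    by_cases hl : l ≤ R (kap j)
    · apply hz
      have h1 := h.add_lt hl
      have h2 := h.1
      have h3 := R_pos (kap j)
      rw [chi_near false (by omega) (by omega), chi_lt false (by omega)]
      unfold beta
      rw [if_neg (by simp), if_pos]
      rw [h.mod le_rfl, Nat.mod_eq_of_lt (by omega)]
      exact hl
    · exact small_of (k := 0) (by simp [g]) (by omega)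
  · by_cases hc : b = true ∧ kap j ≤ kap i
    · obtain ⟨rfl, hc⟩ := hc
      by_cases hl : l < a i
      · apply hz
        have := a_lt hji
        have h2 := h.1
        have h3 := h.2.1
        rw [chi_zero hji (by omega) (by omega) hc, chi_lt true hl]
      · exact small_of (g_le i true) (by omega)
    · by_cases hl : l ≤ R (kap j)
      · apply hz; exact chi_copy h hji hc hl
      · cases b
        · exact small_of (k := 0) (by simp [g]) (by omega)
        · have : kap i < kap j := by
            by_contra hh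
            exact hc ⟨rfl, by omega⟩
          exact small_of (g_le i true) (by omega)

lemma claimP2 {j m : ℕ} (h : Prim j m) (l : ℕ) :
    g j true * |(chi j true (l + 1 + m) - chi j true (l + 1)) - (chi j true (l + m) - chi j true l)| ≤
      2 ^ l * (2 * (1 / 2) ^ kap j) := by
  have hR := two_mul_le_R (kap j)
  have hRs := R_s (kap j)
  have hsa := s_le_a j
  have h3 := R_pos (kap j)
  by_cases hl : l + 1 ≤ R (kap j)
  · have h1 := h.add_lt hl
    have h2 := h.1
    rw [chi_near true (by omega) (by omega), chi_near (n := l + m) true (by omega) (by omega),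
      chi_lt true (by omega), chi_lt true (by omega)]
    simp only [beta, if_true, sub_self, abs_zero, mul_zero]
    positivity
  · have e1 := small_of (i := j) (b := true) (x := l + 1 + m) (y := l + 1) (k' := kap j) (l := l)
      (g_le j true) (by omega)
    have e2 := small_of (i := j) (b := true) (x := l + m) (y := l) (k' := kap j) (l := l)
      (g_le j true) (by omega)
    have e3 := abs_sub (chi j true (l + 1 + m) - chi j true (l + 1)) (chi j true (l + m) - chi j true l)
    have e4 := mul_le_mul_of_nonneg_left e3 (g_pos j true).le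
    rw [mul_add] at e4
    linarith

/-- the `i`-th epoch -/
def J (i : ℕ) : Finset ℕ := Ico (a i) (16 * a i)

lemma card_J (i : ℕ) : (J i).card = 15 * a i := by
  unfold J; rw [Nat.card_Ico]; omega

lemma cnt (x L q r c : ℕ) (hq : 0 < q) :
    ((Ico x (x + L)).filter fun n => (n + c) % q ≤ r).card ≤ (L / q + 2) * (r + 1) := by
  have : ((Ico x (x + L)).filter fun n => (n + c) % q ≤ r).card ≤
      (range (L / q + 2) ×ˢ range (r + 1)).card := by
    apply Finset.card_le_card_of_injOn (fun n => ((n + c) / q - (x + c) / q, (n + c) % q))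
    · intro n hn
      simp only [coe_filter, mem_Ico, Set.mem_ofPred_eq] at hn
      simp only [coe_product, coe_range, Set.mem_prod, Set.mem_Iio]
      refine ⟨?_, by omega⟩
      have h1 : (n + c) / q ≤ ((x + c) + L) / q := Nat.div_le_div_right (by omega)
      have h2 : ((x + c) + L) / q ≤ (x + c) / q + L / q + 1 := by
        rw [Nat.add_div hq]; split_ifs <;> omega
      generalize L / q = u at *
      generalize (x + c) / q = u1 at *
      generalize (n + c) / q = u2 at *
      generalize (x + c + L) / q = u3 at *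
      omega
    · intro n hn n' hn' he
      simp only [coe_filter, mem_Ico, Set.mem_ofPred_eq] at hn hn'
      simp only [Prod.mk.injEq] at he
      have h1 : (x + c) / q ≤ (n + c) / q := Nat.div_le_div_right (by omega)
      have h2 : (x + c) / q ≤ (n' + c) / q := Nat.div_le_div_right (by omega)
      have h3 : (n + c) / q = (n' + c) / q := by omega
      have h4 := Nat.div_add_mod (n + c) q
      have h5 := Nat.div_add_mod (n' + c) q
      rw [h3, he.2] at h4
      omega
  rwa [card_product, card_range, card_range] at this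

lemma cnt2 {i k : ℕ} (c : ℕ) (h : s k ≤ 32 * a i) :
    (((J i).filter fun n => (n + c) % s k ≤ R k).card : ℝ) ≤ (1 / 16) ^ k * (J i).card := by
  have h1 := cnt (a i) (15 * a i) (s k) (R k) c (s_pos k)
  have e : J i = Ico (a i) (a i + 15 * a i) := by unfold J; congr 1; omega
  rw [← e] at h1
  have h2 : (((J i).filter fun n => (n + c) % s k ≤ R k).card : ℝ) ≤
      ((15 * a i / s k : ℕ) + 2 : ℝ) * (R k + 1 : ℝ) := by exact_mod_cast h1
  have h3 : ((15 * a i / s k : ℕ) : ℝ) ≤ (15 * a i : ℝ) / s k := by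
    have := @Nat.cast_div_le ℝ _ _ _ (15 * a i) (s k)
    simpa using this
  have hs : (0 : ℝ) < s k := by exact_mod_cast s_pos k
  have hR : (1 : ℝ) ≤ R k := by exact_mod_cast R_pos k
  have h4 : (2 : ℝ) ≤ 64 * a i / s k := by
    rw [le_div_iff₀ hs]
    have : (s k : ℝ) ≤ 32 * a i := by exact_mod_cast h
    linarith
  have h5 : (s k : ℝ) = 16 * (R k) * 16 ^ k := by
    unfold s R; push_cast; ring
  have ha : (0 : ℝ) < a i := by exact_mod_cast a_pos i
  rw [card_J]
  push_cast
  calc _ ≤ ((15 * a i / s k : ℕ) + 2 : ℝ) * (R k + 1 : ℝ) := h2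
    _ ≤ ((15 * a i : ℝ) / s k + 64 * a i / s k) * (2 * R k) := by
        apply mul_le_mul (by linarith) (by linarith) (by linarith) (by positivity)
    _ = (158 / 16) * a i * (1 / 16) ^ k := by
        rw [h5, one_div, inv_pow]; field_simp; ring
    _ ≤ (1 / 16) ^ k * (15 * a i) := by
        have : (0 : ℝ) < (1 / 16) ^ k := by positivity
        nlinarith [mul_pos ha this]

lemma sum_ind_le {i k k' : ℕ} (c : ℕ) (h : s k ≤ 32 * a i) (hk : k' ≤ k) :
    ∑ n ∈ J i, (if (n + c) % s k ≤ R k then (1 : ℝ) else 0) ≤ (1 / 2) ^ k' * (J i).card := by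
  rw [Finset.sum_boole]
  refine (cnt2 c h).trans (mul_le_mul_of_nonneg_right ?_ (by positivity))
  calc ((1 : ℝ) / 16) ^ k ≤ (1 / 2) ^ k := pow_le_pow_left₀ (by norm_num) (by norm_num) k
    _ ≤ (1 / 2) ^ k' := pow_le_pow_of_le_one (by norm_num) (by norm_num) hk

lemma sum_beta {i j m l : ℕ} {b : Bool} (h : Prim j m) :
    ∑ n ∈ J i, |beta i b (n + l + m) - beta i b (n + l)| ≤ 2 * ((1 / 2) ^ kap j * (J i).card) := by
  cases b
  · by_cases hk : kap i ≤ kap j
    · have : ∀ n ∈ J i, |beta i false (n + l + m) - beta i false (n + l)| = 0 := by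
        intro n _
        unfold beta
        rw [h.mod hk]; simp
      rw [Finset.sum_congr rfl this]
      simp only [sum_const_zero]
      positivity
    · have hs : s (kap i) ≤ 32 * a i := by have := s_le_a i; omega
      have e1 := sum_ind_le (i := i) (k' := kap j) (l + m) hs (by omega)
      have e2 := sum_ind_le (i := i) (k' := kap j) l hs (by omega)
      have : ∑ n ∈ J i, |beta i false (n + l + m) - beta i false (n + l)| ≤
          ∑ n ∈ J i, ((if (n + (l + m)) % s (kap i) ≤ R (kap i) then (1 : ℝ) else 0) +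
            (if (n + l) % s (kap i) ≤ R (kap i) then (1 : ℝ) else 0)) := by
        apply Finset.sum_le_sum
        intro n _
        unfold beta
        rw [add_assoc]
        simp only [Bool.false_eq_true, if_false]
        split_ifs <;> norm_num
      rw [Finset.sum_add_distrib] at this
      linarith
  · simp only [beta, if_true, sub_self, abs_zero, sum_const_zero]
    positivity

lemma free_gap {e j t : ℕ} (h1 : 16 ^ e < t) (h2 : t < 2 * 16 ^ e) : t < 4 * a j ∨ 8 * a j ≤ t := by
  unfold a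
  rcases le_or_gt e (j + 5) with h | h
  · left
    have : 16 ^ e ≤ 16 ^ (j + 5) := Nat.pow_le_pow_right (by norm_num) h
    omega
  · right
    have : 16 ^ (j + 5 + 1) ≤ 16 ^ e := Nat.pow_le_pow_right (by norm_num) h
    rw [pow_succ] at this
    omega

lemma claimQ {i j m : ℕ} {b : Bool} (h : Prim j m) (l : ℕ) :
    w i b * g i b * ∑ n ∈ J i, |chi i b (n + l + m) - chi i b (n + l)| ≤
      2 ^ l * (3 * (1 / 2) ^ kap j) * (J i).card := by
  have htriv : ∑ n ∈ J i, |chi i b (n + l + m) - chi i b (n + l)| ≤ (J i).card := by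
    calc _ ≤ ∑ _n ∈ J i, (1 : ℝ) := Finset.sum_le_sum fun n _ => chi_sub_le i b _ _
      _ = _ := by simp
  have hS : 0 ≤ ∑ n ∈ J i, |chi i b (n + l + m) - chi i b (n + l)| :=
    Finset.sum_nonneg fun _ _ => abs_nonneg _
  have h2l : (1 : ℝ) ≤ 2 ^ l := one_le_pow₀ (by norm_num)
  have hc0 : (0 : ℝ) ≤ (J i).card := by positivity
  have hp0 : (0 : ℝ) < (1 / 2) ^ kap j := by positivity
  by_cases hc : b = true ∧ kap j ≤ kap i
  · obtain ⟨rfl, hc⟩ := hc
    rw [wg_true]
    have : ((1 : ℝ) / 16) ^ kap i ≤ (1 / 2) ^ kap j :=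
      (pow_le_pow_left₀ (by norm_num) (by norm_num) _).trans
        (pow_le_pow_of_le_one (by norm_num) (by norm_num) hc)
    calc _ ≤ (1 / 2) ^ kap j * ((J i).card : ℝ) := mul_le_mul this htriv hS hp0.le
      _ ≤ _ := by
        apply mul_le_mul_of_nonneg_right _ hc0
        nlinarith
  have hred : ∀ B : ℝ, ∑ n ∈ J i, |chi i b (n + l + m) - chi i b (n + l)| ≤ B →
      w i b * g i b * ∑ n ∈ J i, |chi i b (n + l + m) - chi i b (n + l)| ≤ B := by
    intro B hB
    calc _ ≤ 1 * ∑ n ∈ J i, |chi i b (n + l + m) - chi i b (n + l)| :=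
          mul_le_mul_of_nonneg_right (wg_le i b) hS
      _ ≤ B := by rw [one_mul]; exact hB
  apply hred
  have hR := two_mul_le_R (kap j)
  have hRs := R_s (kap j)
  have hsa := s_le_a j
  by_cases hl : R (kap j) < l
  · have : (2 : ℝ) ^ 0 ≤ 2 ^ l * (1 / 2) ^ kap j := pow_bound (by omega)
    rw [pow_zero] at this
    refine htriv.trans ?_
    have : (1 : ℝ) ≤ 2 ^ l * (3 * (1 / 2) ^ kap j) := by nlinarith
    nlinarith
  have hfin : 3 * ((1 / 2 : ℝ) ^ kap j * (J i).card) ≤ 2 ^ l * (3 * (1 / 2) ^ kap j) * (J i).card := by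
    have : 0 ≤ (1 / 2 : ℝ) ^ kap j * (J i).card := by positivity
    nlinarith
  refine le_trans ?_ hfin
  have hb := sum_beta (i := i) (l := l) (b := b) h
  have hm1 := h.1
  have hm2 := h.2.1
  rcases le_or_gt j i with hji | hji
  · have := a_mono hji
    have e : ∑ n ∈ J i, |chi i b (n + l + m) - chi i b (n + l)| =
        ∑ n ∈ J i, |beta i b (n + l + m) - beta i b (n + l)| := by
      apply Finset.sum_congr rfl
      intro n hn
      simp only [J, mem_Ico] at hn
      rw [chi_near b (by omega) (by omega), chi_near b (by omega) (by omega)]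
    rw [e]
    have : 0 ≤ (1 / 2 : ℝ) ^ kap j * (J i).card := by positivity
    linarith
  · have hij := a_lt hji
    have e : ∑ n ∈ J i, |chi i b (n + l + m) - chi i b (n + l)| ≤
        ∑ n ∈ J i, (|beta i b (n + l + m) - beta i b (n + l)| +
          (if R (kap j) < n + l ∧ (n + l) % s (kap j) ≤ R (kap j) then (1 : ℝ) else 0)) := by
      apply Finset.sum_le_sum
      intro n hn
      simp only [J, mem_Ico] at hn
      by_cases ht : n + l ≤ R (kap j)
      · rw [chi_copy h hji hc ht, sub_self, abs_zero]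
        apply add_nonneg (abs_nonneg _)
        split_ifs <;> norm_num
      · by_cases hw : (n + l) % s (kap j) ≤ R (kap j)
        · rw [if_pos ⟨by omega, hw⟩]
          have := chi_sub_le i b (n + l + m) (n + l)
          have := abs_nonneg (beta i b (n + l + m) - beta i b (n + l))
          linarith
        · rw [if_neg (fun hh => hw hh.2), add_zero]
          have e1 : chi i b (n + l) = beta i b (n + l) := by
            apply chi_free b (by omega)
            intro j' hj'
            by_cases hR' : 16 * a i ≤ R (kap j)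
            · apply free_gap (e := kap j)
              · unfold R at ht; omega
              · unfold R at hR' hl; omega
            · have := a_lt hj'
              omega
          have e2 : chi i b (n + l + m) = beta i b (n + l + m) := by
            apply chi_off hji hc (by omega) (by omega)
            rw [h.mod le_rfl]
            exact fun hh => hw hh.2
          rw [e1, e2]
    rw [Finset.sum_add_distrib] at e
    have e3 : ∑ n ∈ J i, (if R (kap j) < n + l ∧ (n + l) % s (kap j) ≤ R (kap j) then (1 : ℝ) else 0) ≤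
        (1 / 2) ^ kap j * (J i).card := by
      by_cases hs : s (kap j) ≤ 32 * a i
      · refine le_trans ?_ (sum_ind_le (i := i) (k' := kap j) l hs le_rfl)
        apply Finset.sum_le_sum
        intro n _
        split_ifs with h1 h2
        · exact le_rfl
        · exact absurd h1.2 h2
        · norm_num
        · exact le_rfl
      · have : ∀ n ∈ J i, (if R (kap j) < n + l ∧ (n + l) % s (kap j) ≤ R (kap j) then (1 : ℝ) else 0) = 0 := by
          intro n hn
          simp only [J, mem_Ico] at hn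
          rw [if_neg]
          rintro ⟨h1, h2⟩
          rw [Nat.mod_eq_of_lt (by omega)] at h2
          omega
        rw [Finset.sum_congr rfl this]
        simp only [sum_const_zero]
        positivity
    linarith

lemma g_chi_le (i : ℕ) (b : Bool) (l : ℕ) : g i b * |chi i b l| ≤ 2 ^ l := by
  by_cases hl : l < a i
  · rw [chi_lt b hl, abs_zero, mul_zero]; positivity
  · have h1 : |chi i b l| ≤ 1 := by rcases chi_mem i b l with h | h <;> simp [h]
    have hki := kap_le i
    have hai := four_mul_le_a i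
    calc g i b * |chi i b l| ≤ 2 ^ kap i * 1 := mul_le_mul (g_le i b) h1 (abs_nonneg _) (by positivity)
      _ ≤ 2 ^ l := by rw [mul_one]; exact pow_le_pow_right₀ (by norm_num) (by omega)

lemma van_true {i l : ℕ} (hl : l ≤ a i) : ∑ n ∈ J i, |chi i true (n + l) - 1| = 0 := by
  apply Finset.sum_eq_zero
  intro n hn
  simp only [J, mem_Ico] at hn
  rw [chi_near true (by omega) (by omega)]
  simp [beta]

lemma van_false {i l : ℕ} (hl : l ≤ a i) :
    ∑ n ∈ J i, |chi i false (n + l) - 1| ≤ (1 / 2) ^ kap i * (J i).card := by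
  refine le_trans ?_ (sum_ind_le (i := i) (k := kap i) (k' := kap i) l (by have := s_le_a i; omega) le_rfl)
  apply Finset.sum_le_sum
  intro n hn
  simp only [J, mem_Ico] at hn
  rw [chi_near false (by omega) (by omega)]
  unfold beta
  simp only [Bool.false_eq_true, if_false]
  split_ifs <;> norm_num

lemma kap_eq (k t : ℕ) : kap (2 ^ k * (2 * t + 1) - 1) = k := by
  unfold kap
  have h : 0 < 2 ^ k * (2 * t + 1) := by positivity
  rw [Nat.sub_add_cancel h, padicValNat.mul (by positivity) (by omega), padicValNat.prime_pow,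
    padicValNat.eq_zero_of_not_dvd (by omega), add_zero]

/-- the return times of level `k` have positive lower density -/
lemma prim_density (k : ℕ) : ∃ δ : ℝ, 0 < δ ∧ ∃ N₀ : ℕ, ∀ N : ℕ, N₀ ≤ N →
    ∃ A : Finset ℕ, δ * (N : ℝ) ≤ A.card ∧ ∀ m ∈ A, 1 ≤ m ∧ m ≤ N ∧ ∃ j, kap j = k ∧ Prim j m := by
  refine ⟨1 / (16 ^ (2 ^ (k + 1) + 2) * s k), by have := s_pos k; positivity, a (2 ^ k), fun N hN => ?_⟩
  have hN0 : 0 < N := lt_of_lt_of_le (a_pos _) hN
  set e := ep N with he
  have hlog : 5 ≤ Nat.log 16 N ∧ 2 ^ k ≤ e := by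
    have : 2 ^ k + 5 ≤ Nat.log 16 N := Nat.le_log_of_pow_le (by norm_num) hN
    unfold ep at he
    generalize 2 ^ k = u at *
    omega
  have h1 : a e ≤ N := by
    unfold a; rw [he]; unfold ep
    rw [Nat.sub_add_cancel hlog.1]
    exact Nat.pow_log_le_self 16 hN0.ne'
  have h2 : N < 16 * a e := by
    unfold a; rw [he]; unfold ep
    rw [Nat.sub_add_cancel hlog.1, mul_comm, ← pow_succ]
    exact Nat.lt_pow_succ_log_self (by norm_num) N
  have hp : 0 < 2 ^ k := by positivity
  obtain ⟨j, hj1, hj2, hj3⟩ : ∃ j, kap j = k ∧ j < e ∧ e ≤ j + 2 ^ (k + 1) + 1 := by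
    refine ⟨2 ^ k * (2 * ((e - 2 ^ k) / 2 ^ (k + 1)) + 1) - 1, kap_eq _ _, ?_, ?_⟩
    · have := Nat.div_mul_le_self (e - 2 ^ k) (2 ^ (k + 1))
      have e1 : 2 ^ k * (2 * ((e - 2 ^ k) / 2 ^ (k + 1)) + 1) =
          (e - 2 ^ k) / 2 ^ (k + 1) * 2 ^ (k + 1) + 2 ^ k := by ring
      omega
    · have h3 := Nat.div_add_mod (e - 2 ^ k) (2 ^ (k + 1))
      have h4 := Nat.mod_lt (e - 2 ^ k) (show 0 < 2 ^ (k + 1) by positivity)
      have e1 : 2 ^ k * (2 * ((e - 2 ^ k) / 2 ^ (k + 1)) + 1) =
          2 ^ (k + 1) * ((e - 2 ^ k) / 2 ^ (k + 1)) + 2 ^ k := by ring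
      omega
  obtain ⟨c, hc⟩ := s_dvd_a j
  rw [hj1] at hc
  have hs := s_pos k
  refine ⟨(range c).image fun t => 4 * a j + s k * t, ?_, ?_⟩
  · rw [Finset.card_image_of_injective _ (fun t t' h => by
      have : s k * t = s k * t' := by simpa using h
      exact Nat.eq_of_mul_eq_mul_left hs this), card_range]
    have h5 : 16 * a e ≤ 16 ^ (2 ^ (k + 1) + 2) * a j := by
      unfold a
      rw [← pow_add, mul_comm, ← pow_succ]
      exact Nat.pow_le_pow_right (by norm_num) (by omega)
    have h6 : N ≤ 16 ^ (2 ^ (k + 1) + 2) * s k * c := by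
      rw [mul_assoc, ← hc]; omega
    have h7 : (N : ℝ) ≤ 16 ^ (2 ^ (k + 1) + 2) * s k * c := by exact_mod_cast h6
    have hs' : (0 : ℝ) < s k := by exact_mod_cast hs
    rw [one_div, inv_mul_le_iff₀ (by positivity)]
    exact h7
  · intro m hm
    simp only [mem_image, mem_range] at hm
    obtain ⟨t, ht, rfl⟩ := hm
    have h5 : s k * t < a j := by rw [hc]; exact Nat.mul_lt_mul_of_pos_left ht hs
    have := a_lt hj2
    have := a_pos j
    refine ⟨by omega, by omega, j, hj1, by omega, by omega, ?_⟩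
    rw [hj1]
    exact Dvd.dvd.add (Dvd.dvd.mul_left ⟨c, hc⟩ 4) (Dvd.intro t rfl)

/-- a set with vanishing density in the epochs has upper density zero -/
lemma dens_zero (A : Set ℕ) [DecidablePred (· ∈ A)]
    (h : ∀ η : ℝ, 0 < η → ∃ i₀, ∀ i, i₀ ≤ i → (((J i).filter (· ∈ A)).card : ℝ) ≤ η * (J i).card)
    (ε : ℝ) (hε : 0 < ε) : ∃ N₀ : ℕ, ∀ N : ℕ, N₀ ≤ N →
      (((range (N + 1)).filter (· ∈ A)).card : ℝ) < ε * N := by
  obtain ⟨i₀, hi₀⟩ := h (ε / 64) (by positivity)
  have key : ∀ t : ℕ, (((range (a (i₀ + t))).filter (· ∈ A)).card : ℝ) ≤ a i₀ + ε / 64 * a (i₀ + t) := by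
    intro t
    induction t with
    | zero =>
      have : ((range (a (i₀ + 0))).filter (· ∈ A)).card ≤ a i₀ := by
        simpa using Finset.card_filter_le (range (a i₀)) (· ∈ A)
      have h1 : (((range (a (i₀ + 0))).filter (· ∈ A)).card : ℝ) ≤ a i₀ := by exact_mod_cast this
      have : (0 : ℝ) ≤ ε / 64 * a (i₀ + 0) := by positivity
      linarith
    | succ t ih =>
      have e : range (a (i₀ + (t + 1))) = range (a (i₀ + t)) ∪ J (i₀ + t) := by
        ext n
        simp only [mem_range, mem_union, J, mem_Ico, ← add_assoc, a_succ]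
        omega
      rw [e, filter_union]
      have h1 := Finset.card_union_le ((range (a (i₀ + t))).filter (· ∈ A)) ((J (i₀ + t)).filter (· ∈ A))
      have h2 : (((range (a (i₀ + t))).filter (· ∈ A) ∪ (J (i₀ + t)).filter (· ∈ A)).card : ℝ) ≤
          (((range (a (i₀ + t))).filter (· ∈ A)).card : ℝ) + (((J (i₀ + t)).filter (· ∈ A)).card : ℝ) := by
        exact_mod_cast h1
      have h3 := hi₀ (i₀ + t) (by omega)
      rw [card_J] at h3
      rw [← add_assoc, a_succ]
      push_cast at h3 ⊢
      linarith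
  obtain ⟨M, hM⟩ := exists_nat_gt (2 * (a i₀ : ℝ) / ε)
  refine ⟨max M (a i₀), fun N hN => ?_⟩
  have hN1 : a i₀ ≤ N := le_trans (le_max_right _ _) hN
  have hN2 : M ≤ N := le_trans (le_max_left _ _) hN
  have hN0 : 0 < N := lt_of_lt_of_le (a_pos _) hN1
  have hlog : i₀ + 5 ≤ Nat.log 16 N := Nat.le_log_of_pow_le (by norm_num) hN1
  obtain ⟨t, ht⟩ : ∃ t, Nat.log 16 N = i₀ + t + 5 := ⟨Nat.log 16 N - 5 - i₀, by omega⟩
  have h1 : a (i₀ + t) ≤ N := by
    unfold a; rw [← ht]; exact Nat.pow_log_le_self 16 hN0.ne'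
  have h2 : N < a (i₀ + (t + 1)) := by
    unfold a
    rw [show i₀ + (t + 1) + 5 = (i₀ + t + 5) + 1 by ring, ← ht]
    exact Nat.lt_pow_succ_log_self (by norm_num) N
  have h3 : ((range (N + 1)).filter (· ∈ A)).card ≤ ((range (a (i₀ + (t + 1)))).filter (· ∈ A)).card := by
    apply Finset.card_le_card
    apply Finset.filter_subset_filter
    intro n hn
    simp only [mem_range] at hn ⊢
    omega
  have h4 := key (t + 1)
  have h5 : (a (i₀ + (t + 1)) : ℝ) ≤ 16 * N := by
    rw [← add_assoc, a_succ]; exact_mod_cast (by omega : 16 * a (i₀ + t) ≤ 16 * N)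
  have h6 : (((range (N + 1)).filter (· ∈ A)).card : ℝ) ≤
      (((range (a (i₀ + (t + 1)))).filter (· ∈ A)).card : ℝ) := by exact_mod_cast h3
  have h7 : (M : ℝ) ≤ N := by exact_mod_cast hN2
  have h8 : 2 * (a i₀ : ℝ) < ε * N := by
    rw [div_lt_iff₀ hε] at hM
    nlinarith
  have h9 : ε / 64 * a (i₀ + (t + 1)) ≤ ε / 64 * (16 * N) := mul_le_mul_of_nonneg_left h5 (by positivity)
  have : (0 : ℝ) < ε * N := by positivity
  linarith

end Pool.Agent.H963Z
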