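import Pool.Agent.H963Z.Op

/-! The counterexample. -/

set_option autoImplicit false

namespace Pool.Agent.H963Z

open Finset Filter Topology
open scoped ENNReal

variable (𝕜 : Type) [RCLike 𝕜]

/-- coordinate functional -/
noncomputable def co (p : Gam × ℕ) : E 𝕜 →L[𝕜] 𝕜 :=
  LinearMap.mkContinuous
    { toFun := fun v => v.2 p
      map_add' := fun u v => by simp only [Prod.snd_add, lp.coeFn_add, Pi.add_apply]
      map_smul' := fun c u => by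
        simp only [Prod.smul_snd, lp.coeFn_smul, Pi.smul_apply, RingHom.id_apply] }
    1 (fun v => by
      rw [one_mul]
      exact (lp.norm_apply_le_norm (by simp) v.2 p).trans (norm_snd_le v))

lemma co_apply (p : Gam × ℕ) (v : E 𝕜) : co 𝕜 p v = v.2 p := rfl

lemma co_le (p : Gam × ℕ) (v : E 𝕜) : ‖v.2 p‖ ≤ ‖v‖ :=
  (lp.norm_apply_le_norm (by simp) v.2 p).trans (norm_snd_le v)

def Good (v : E 𝕜) : Prop := ∀ (i : ℕ) (b : Bool) (A : Finset ℕ),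
  v.2 (((i, b), some A), 0) = ((w i b / (J i).card : ℝ) : 𝕜) *
    ∑ n ∈ A ∩ J i, (2 ^ n * v.2 (((i, b), none), n) - xi 𝕜 ((i, b), none) v.1)

lemma good_sp {v : E 𝕜} (hv : v ∈ Sp 𝕜) : Good 𝕜 v := by
  induction hv using Submodule.span_induction with
  | mem x hx =>
    obtain ⟨k, y, rfl⟩ := hx
    intro i b A
    rw [orb_snd, TE_pow_fst, eE_fst]
    have : ∀ n ∈ A ∩ J i, 2 ^ n * ((TE 𝕜 ^ k) (eE 𝕜 y)).2 (((i, b), none), n) - xi 𝕜 ((i, b), none) y =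
        xi 𝕜 ((i, b), none) y * ((chi i b (n + k) - 1 : ℝ) : 𝕜) := by
      intro n _
      rw [orb_snd]
      have : (2 : 𝕜) ^ n ≠ 0 := pow_ne_zero _ two_ne_zero
      simp only [hh]
      push_cast
      field_simp
    rw [Finset.sum_congr rfl this, ← Finset.mul_sum]
    simp only [hh, xi, zero_add, pow_zero, inv_one, one_mul]
    push_cast
    ring
  | zero =>
    intro i b A
    simp [xi]
  | add x y _ _ hx hy =>
    intro i b A
    simp only [Prod.snd_add, lp.coeFn_add, Pi.add_apply]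
    rw [hx i b A, hy i b A, ← mul_add, ← Finset.sum_add_distrib]
    congr 1
    apply Finset.sum_congr rfl
    intro n _
    simp only [xi, Prod.fst_add, Prod.snd_add]
    ring
  | smul c x _ hx =>
    intro i b A
    simp only [Prod.smul_snd, lp.coeFn_smul, Pi.smul_apply, smul_eq_mul]
    rw [hx i b A, mul_left_comm, Finset.mul_sum]
    congr 1
    apply Finset.sum_congr rfl
    intro n _
    simp only [xi, Prod.smul_fst, Prod.smul_snd, smul_eq_mul]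
    ring

lemma good_cl {v : E 𝕜} (hv : v ∈ closure (Sp 𝕜 : Set (E 𝕜))) : Good 𝕜 v := by
  intro i b A
  have hc : IsClosed {v : E 𝕜 | v.2 (((i, b), some A), 0) = ((w i b / (J i).card : ℝ) : 𝕜) *
    ∑ n ∈ A ∩ J i, (2 ^ n * v.2 (((i, b), none), n) - xi 𝕜 ((i, b), none) v.1)} := by
    apply isClosed_eq (co 𝕜 _).continuous
    refine continuous_const.mul (continuous_finset_sum _ fun n _ => ?_)
    refine (continuous_const.mul (co 𝕜 _).continuous).sub ?_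
    unfold xi
    fun_prop
  exact closure_minimal (fun u hu => good_sp 𝕜 hu i b A) hc hv

def Van (v : E 𝕜) : Prop := ∀ η : ℝ, 0 < η → ∃ N : ℕ, ∀ i, N ≤ i → ∀ b : Bool, (b = true ∨ N ≤ kap i) →
  ∀ o : Option (Finset ℕ), ‖v.2 (((i, b), o), 0)‖ ≤ η

lemma van_sp {v : E 𝕜} (hv : v ∈ Sp 𝕜) : Van 𝕜 v := by
  induction hv using Submodule.span_induction with
  | mem x hx =>
    obtain ⟨k, y, rfl⟩ := hx
    intro η hη
    have hlim : Tendsto (fun k : ℕ => ‖y‖ * (1 / 2 : ℝ) ^ k) atTop (𝓝 0) := by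
      have := (tendsto_pow_atTop_nhds_zero_of_lt_one (r := (1 / 2 : ℝ)) (by norm_num) (by norm_num)).const_mul
        ‖y‖
      simpa using this
    obtain ⟨K, hK⟩ := eventually_atTop.1 (hlim.eventually (gt_mem_nhds hη))
    refine ⟨max K k, fun i hi b hb o => ?_⟩
    have hai := four_mul_le_a i
    have hik : k ≤ i := le_trans (le_max_right _ _) hi
    rw [orb_snd]
    rcases o with _ | A
    · simp only [hh]
      rw [chi_lt b (by omega)]
      simp [hη.le]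
    · rcases b with _ | _
      · have hk : K ≤ kap i := le_trans (le_max_left _ _) (hb.resolve_left (by simp))
        refine le_trans (coord_bound 𝕜 (B := (1 / 2) ^ kap i) ?_) (hK _ hk).le
        rw [pow_zero, one_mul]
        refine avg_le (i := i) (b := false) A (fun n => chi i false (n + (0 + k)) - 1) ?_
        have := van_false (i := i) (l := 0 + k) (by omega)
        simpa [w, g] using this
      · refine le_trans (coord_bound 𝕜 (B := 0) ?_) (by simp [hη.le])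
        rw [mul_zero]
        refine avg_le (i := i) (b := true) A (fun n => chi i true (n + (0 + k)) - 1) ?_
        rw [van_true (by omega)]
        simp
  | zero =>
    intro η hη
    exact ⟨0, fun i _ b _ o => by simp [hη.le]⟩
  | add x y _ _ hx hy =>
    intro η hη
    obtain ⟨N, hN⟩ := hx (η / 2) (by positivity)
    obtain ⟨M, hM⟩ := hy (η / 2) (by positivity)
    refine ⟨max N M, fun i hi b hb o => ?_⟩
    simp only [Prod.snd_add, lp.coeFn_add, Pi.add_apply]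
    have h1 := hN i (le_trans (le_max_left _ _) hi) b (hb.imp id (le_trans (le_max_left _ _))) o
    have h2 := hM i (le_trans (le_max_right _ _) hi) b (hb.imp id (le_trans (le_max_right _ _))) o
    have := norm_add_le (x.2 (((i, b), o), 0)) (y.2 (((i, b), o), 0))
    linarith
  | smul c x _ hx =>
    intro η hη
    obtain ⟨N, hN⟩ := hx (η / (‖c‖ + 1)) (by positivity)
    refine ⟨N, fun i hi b hb o => ?_⟩
    simp only [Prod.smul_snd, lp.coeFn_smul, Pi.smul_apply, smul_eq_mul, norm_mul]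
    have h1 := hN i hi b hb o
    rw [le_div_iff₀ (by positivity)] at h1
    have := norm_nonneg (x.2 (((i, b), o), 0))
    nlinarith

lemma van_cl {v : E 𝕜} (hv : v ∈ closure (Sp 𝕜 : Set (E 𝕜))) : Van 𝕜 v := by
  intro η hη
  obtain ⟨u, hu, hd⟩ := Metric.mem_closure_iff.1 hv (η / 2) (by positivity)
  obtain ⟨N, hN⟩ := van_sp 𝕜 hu (η / 2) (by positivity)
  refine ⟨N, fun i hi b hb o => ?_⟩
  have h1 := hN i hi b hb o
  have h2 := co_le 𝕜 (((i, b), o), 0) (v - u)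
  rw [dist_eq_norm] at hd
  simp only [Prod.snd_sub, lp.coeFn_sub, Pi.sub_apply] at h2
  have := norm_add_le (v.2 (((i, b), o), 0) - u.2 (((i, b), o), 0)) (u.2 (((i, b), o), 0))
  rw [sub_add_cancel] at this
  linarith

lemma card_le {v : E 𝕜} (hv : Good 𝕜 v) (h1 : v.1 = (1, 0)) {i : ℕ} {b : Bool} {η : ℝ}
    (h0 : ‖v.2 (((i, b), none), 0)‖ ≤ 1 / 4) (A : Finset ℕ) (hA : A ⊆ J i)
    (hA' : ∀ n ∈ A, ‖(TE 𝕜 ^ n) v - v‖ < 1 / 4) (hη : ‖v.2 (((i, b), some A), 0)‖ ≤ η) :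
    w i b * A.card ≤ 2 * η * (J i).card := by
  have hc := cardJ_pos i
  have hw := w_pos i b
  rw [hv i b A, inter_eq_left.2 hA, norm_mul, RCLike.norm_ofReal, abs_of_pos (by positivity)] at hη
  have hx : xi 𝕜 ((i, b), none) v.1 = 1 := by simp [xi, h1]
  rw [hx] at hη
  have h2 : ∀ n ∈ A, (1 / 2 : ℝ) ≤ -RCLike.re (2 ^ n * v.2 (((i, b), none), n) - 1) := by
    intro n hn
    have e1 := (co_le 𝕜 (((i, b), none), 0) _).trans_lt (hA' n hn)
    simp only [Prod.snd_sub, lp.coeFn_sub, Pi.sub_apply, TE_pow_snd, zero_add] at e1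
    have e2 := norm_add_le (2 ^ n * v.2 (((i, b), none), n) - v.2 (((i, b), none), 0))
      (v.2 (((i, b), none), 0))
    rw [sub_add_cancel] at e2
    have e3 := RCLike.re_le_norm (2 ^ n * v.2 (((i, b), none), n))
    rw [map_sub, RCLike.one_re]
    linarith
  have h3 : (A.card : ℝ) * (1 / 2) ≤ ‖∑ n ∈ A, (2 ^ n * v.2 (((i, b), none), n) - 1)‖ := by
    calc (A.card : ℝ) * (1 / 2) = ∑ _n ∈ A, (1 / 2 : ℝ) := by simp
      _ ≤ ∑ n ∈ A, -RCLike.re (2 ^ n * v.2 (((i, b), none), n) - 1) := Finset.sum_le_sum h2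
      _ = RCLike.re (-∑ n ∈ A, (2 ^ n * v.2 (((i, b), none), n) - 1)) := by
          rw [map_neg, map_sum, Finset.sum_neg_distrib]
      _ ≤ _ := (RCLike.re_le_norm _).trans (norm_neg _).le
  have h4 : w i b / (J i).card * (A.card * (1 / 2)) ≤ η :=
    le_trans (mul_le_mul_of_nonneg_left h3 (by positivity)) hη
  rw [div_mul_eq_mul_div, div_le_iff₀ hc] at h4
  linarith

open Classical in
lemma not_ufrec {v : E 𝕜} (hv : v ∈ closure (Sp 𝕜 : Set (E 𝕜))) (h1 : v.1 = (1, 0)) (ε : ℝ) (hε : 0 < ε) :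
    ∃ N₀ : ℕ, ∀ N : ℕ, N₀ ≤ N →
      (((range (N + 1)).filter (fun n => ‖(TE 𝕜 ^ n) v - v‖ < 1 / 4)).card : ℝ) < ε * N := by
  refine dens_zero {n | ‖(TE 𝕜 ^ n) v - v‖ < 1 / 4} (fun η hη => ?_) ε hε
  have hg := good_cl 𝕜 hv
  have hV := van_cl 𝕜 hv
  obtain ⟨N₁, hN₁⟩ := hV (min (1 / 4) (η / 2)) (by positivity)
  obtain ⟨N₂, hN₂⟩ := hV (min (1 / 4) (η / 2 * (1 / 32) ^ N₁)) (by positivity)
  refine ⟨max N₁ N₂, fun i hi => ?_⟩
  have hc := cardJ_pos i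
  by_cases hk : N₁ ≤ kap i
  · have e := hN₁ i (le_trans (le_max_left _ _) hi) false (Or.inr hk)
    have := card_le 𝕜 hg h1 ((e none).trans (min_le_left _ _))
      ((J i).filter (· ∈ {n | ‖(TE 𝕜 ^ n) v - v‖ < 1 / 4})) (filter_subset _ _)
      (fun n hn => (mem_filter.1 hn).2) ((e _).trans (min_le_right _ _))
    simp only [w, Bool.false_eq_true, if_false, one_mul] at this
    linarith
  · have e := hN₂ i (le_trans (le_max_right _ _) hi) true (Or.inl rfl)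
    have := card_le 𝕜 hg h1 ((e none).trans (min_le_left _ _))
      ((J i).filter (· ∈ {n | ‖(TE 𝕜 ^ n) v - v‖ < 1 / 4})) (filter_subset _ _)
      (fun n hn => (mem_filter.1 hn).2) ((e _).trans (min_le_right _ _))
    simp only [w, if_true] at this
    have h2 : ((1 : ℝ) / 32) ^ N₁ ≤ (1 / 32) ^ kap i :=
      pow_le_pow_of_le_one (by norm_num) (by norm_num) (by omega)
    have h3 : (0 : ℝ) < (1 / 32) ^ N₁ := by positivity
    have h4 : (0 : ℝ) ≤ (((J i).filter (· ∈ {n | ‖(TE 𝕜 ^ n) v - v‖ < 1 / 4})).card : ℝ) := by positivity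
    have h5 := le_trans (mul_le_mul_of_nonneg_right h2 h4) this
    have h6 : (1 / 32) ^ N₁ * (((J i).filter (· ∈ {n | ‖(TE 𝕜 ^ n) v - v‖ < 1 / 4})).card : ℝ) ≤
        (1 / 32) ^ N₁ * (η * (J i).card) := by linarith
    exact le_of_mul_le_mul_left h6 h3

lemma good_dirs (y : 𝕜 × 𝕜) {ε : ℝ} (hε : 0 < ε) :
    ∃ (t : 𝕜) (q : ℕ), ‖((t * TopologicalSpace.denseSeq 𝕜 q, t) : 𝕜 × 𝕜) - y‖ < ε := by
  obtain ⟨t, ht0, ht⟩ : ∃ t : 𝕜, t ≠ 0 ∧ ‖t - y.2‖ < ε := by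
    by_cases h : y.2 = 0
    · refine ⟨((ε / 2 : ℝ) : 𝕜), by exact_mod_cast (by positivity : ε / 2 ≠ 0), ?_⟩
      rw [h, sub_zero, RCLike.norm_ofReal, abs_of_pos (by positivity)]
      linarith
    · exact ⟨y.2, h, by simpa using hε⟩
  have htp : 0 < ‖t‖ := norm_pos_iff.2 ht0
  obtain ⟨q, hq⟩ := (TopologicalSpace.denseRange_denseSeq 𝕜).exists_dist_lt (y.1 / t) (ε := ε / ‖t‖)
    (by positivity)
  refine ⟨t, q, ?_⟩
  rw [Prod.norm_def]
  apply max_lt _ ht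
  rw [dist_comm, dist_eq_norm, lt_div_iff₀ htp, ← norm_mul] at hq
  have e : t * TopologicalSpace.denseSeq 𝕜 q - y.1 = (TopologicalSpace.denseSeq 𝕜 q - y.1 / t) * t := by
    field_simp
  change ‖t * TopologicalSpace.denseSeq 𝕜 q - y.1‖ < ε
  rw [e]
  exact hq

/-- The space. -/
noncomputable def XS : Submodule 𝕜 (E 𝕜) := (Sp 𝕜).topologicalClosure

lemma TE_XS : ∀ x ∈ XS 𝕜, TE 𝕜 x ∈ XS 𝕜 := fun _ hx =>
  map_mem_closure (TE 𝕜).continuous hx fun _ hy => TE_mem 𝕜 hy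

noncomputable def TX : XS 𝕜 →L[𝕜] XS 𝕜 := (TE 𝕜).restrict (TE_XS 𝕜)

lemma TX_pow (n : ℕ) (x : XS 𝕜) : (((TX 𝕜 ^ n) x : XS 𝕜) : E 𝕜) = (TE 𝕜 ^ n) x := by
  induction n with
  | zero => rfl
  | succ n ih =>
    rw [pow_succ', pow_succ', ContinuousLinearMap.mul_apply, ContinuousLinearMap.mul_apply, ← ih]
    rfl

instance : CompleteSpace (XS 𝕜) := (Sp 𝕜).isClosed_topologicalClosure.completeSpace_coe

noncomputable def PX : XS 𝕜 →L[𝕜] 𝕜 × 𝕜 := (ContinuousLinearMap.fst 𝕜 _ _).comp (XS 𝕜).subtypeL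

lemma PX_surj : Function.Surjective (PX 𝕜) := fun y =>
  ⟨⟨eE 𝕜 y, subset_closure (eE_mem 𝕜 y)⟩, rfl⟩

lemma frec_dense : Dense {x : XS 𝕜 | ∀ U ∈ 𝓝 x, ∃ δ : ℝ, 0 < δ ∧ ∃ N₀ : ℕ, ∀ N : ℕ, N₀ ≤ N →
    δ * (N : ℝ) ≤ (({n : ℕ | 1 ≤ n ∧ n ≤ N ∧ (TX 𝕜 ^ n) x ∈ U}.ncard : ℕ) : ℝ)} := by
  rw [Metric.dense_iff]
  intro x r hr
  obtain ⟨u, hu, hd⟩ := Metric.mem_closure_iff.1 x.2 (r / 2) (by positivity)
  obtain ⟨t, q, htq⟩ := good_dirs 𝕜 u.1 (ε := r / 2 / (‖eE 𝕜‖ + 1)) (by positivity)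
  set y : 𝕜 × 𝕜 := (t * TopologicalSpace.denseSeq 𝕜 q, t) with hy
  have hmem : u + eE 𝕜 (y - u.1) ∈ Sp 𝕜 := Submodule.add_mem _ hu (eE_mem 𝕜 _)
  refine ⟨⟨u + eE 𝕜 (y - u.1), subset_closure hmem⟩, ?_, ?_⟩
  · rw [Metric.mem_ball, Subtype.dist_eq]
    have e1 := (eE 𝕜).le_opNorm (y - u.1)
    rw [lt_div_iff₀ (by positivity)] at htq
    have e2 := dist_triangle (u + eE 𝕜 (y - u.1)) u x
    rw [dist_self_add_left, dist_comm u] at e2
    have := norm_nonneg (y - u.1)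
    change dist (u + eE 𝕜 (y - u.1)) (x : E 𝕜) < r
    nlinarith
  · intro U hU
    obtain ⟨ε, hε, hball⟩ := Metric.mem_nhds_iff.1 hU
    obtain ⟨δ, hδ, N₀, hN⟩ := sp_frec 𝕜 hmem (t := t) (q := q) (by
      rw [Prod.fst_add, eE_fst, add_sub_cancel]) hε
    refine ⟨δ, hδ, N₀, fun N hN' => ?_⟩
    obtain ⟨A, hA1, hA2⟩ := hN N hN'
    refine hA1.trans ?_
    rw [← Set.ncard_coe_finset]
    apply Nat.cast_le.2
    apply Set.ncard_le_ncard
    · intro m hm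
      obtain ⟨h1, h2, h3⟩ := hA2 m hm
      refine ⟨h1, h2, hball ?_⟩
      rw [Metric.mem_ball, Subtype.dist_eq, TX_pow, dist_eq_norm]
      exact h3
    · exact (Set.finite_Iic N).subset fun n hn => hn.2.1

lemma not_uf (x : XS 𝕜) (hx : PX 𝕜 x = (1, 0)) : ∃ U ∈ 𝓝 x, ∀ ε : ℝ, 0 < ε → ∃ N₀ : ℕ, ∀ N : ℕ, N₀ ≤ N →
    (({n : ℕ | 1 ≤ n ∧ n ≤ N ∧ (TX 𝕜 ^ n) x ∈ U}.ncard : ℕ) : ℝ) < ε * N := by
  classical
  refine ⟨Metric.ball x (1 / 4), Metric.ball_mem_nhds x (by norm_num), fun ε hε => ?_⟩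
  obtain ⟨N₀, hN⟩ := not_ufrec 𝕜 x.2 hx ε hε
  refine ⟨N₀, fun N hN' => lt_of_le_of_lt ?_ (hN N hN')⟩
  rw [← Set.ncard_coe_finset]
  apply Nat.cast_le.2
  apply Set.ncard_le_ncard _ (Finset.finite_toSet _)
  rintro n ⟨-, h2, h3⟩
  rw [Metric.mem_ball, Subtype.dist_eq, TX_pow, dist_eq_norm] at h3
  simp only [coe_filter, mem_range, Set.mem_setOf_eq]
  exact ⟨by omega, h3⟩

/-- a dense subspace meets every fibre of the projection -/
lemma dense_meets (M : Submodule 𝕜 (XS 𝕜)) (hM : Dense (M : Set (XS 𝕜))) : ∃ x ∈ M, PX 𝕜 x = (1, 0) := by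
  have h1 : Dense ((M.map (PX 𝕜 : XS 𝕜 →ₗ[𝕜] 𝕜 × 𝕜) : Submodule 𝕜 (𝕜 × 𝕜)) : Set (𝕜 × 𝕜)) := by
    rw [Submodule.map_coe]
    exact (PX_surj 𝕜).denseRange.dense_image (PX 𝕜).continuous hM
  have h2 := (M.map (PX 𝕜 : XS 𝕜 →ₗ[𝕜] 𝕜 × 𝕜)).closed_of_finiteDimensional
  have h3 : ((1, 0) : 𝕜 × 𝕜) ∈ M.map (PX 𝕜 : XS 𝕜 →ₗ[𝕜] 𝕜 × 𝕜) := by
    have := h1 (1, 0)
    rwa [h2.closure_eq] at this
  obtain ⟨x, hx, hx'⟩ := h3
  exact ⟨x, hx, hx'⟩

end Pool.Agent.H963Z
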