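import Pool.Agent.H963Z.Comb

/-! The operator. -/

set_option autoImplicit false

namespace Pool.Agent.H963Z

open Finset Filter Topology
open scoped ENNReal

variable (𝕜 : Type) [RCLike 𝕜]

noncomputable def th (k : ℕ) : 𝕜 :=
  if ‖TopologicalSpace.denseSeq 𝕜 (Nat.unpair k).1‖ ≤ k then TopologicalSpace.denseSeq 𝕜 (Nat.unpair k).1 else 0

lemma th_norm (k : ℕ) : 1 + ‖th 𝕜 k‖ ≤ 2 ^ k := by
  have h1 : ‖th 𝕜 k‖ ≤ k := by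
    unfold th; split_ifs with h
    · exact h
    · simp
  have h2 : k + 1 ≤ 2 ^ k := Nat.lt_two_pow_self
  have h3 : (k : ℝ) + 1 ≤ 2 ^ k := by exact_mod_cast h2
  linarith

lemma th_surj (j K : ℕ) : ∃ k, K ≤ k ∧ th 𝕜 k = TopologicalSpace.denseSeq 𝕜 j := by
  obtain ⟨M, hM⟩ := exists_nat_ge ‖TopologicalSpace.denseSeq 𝕜 j‖
  have h1 := Nat.right_le_pair j (max K M)
  refine ⟨Nat.pair j (max K M), le_trans (le_max_left _ _) h1, ?_⟩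
  unfold th
  rw [Nat.unpair_pair, if_pos]
  have : (M : ℝ) ≤ (Nat.pair j (max K M) : ℕ) := by exact_mod_cast le_trans (le_max_right _ _) h1
  linarith

abbrev Gam : Type := (ℕ × Bool) × Option (Finset ℕ)

noncomputable def thi (i : ℕ) (b : Bool) : 𝕜 := if b = true then th 𝕜 (kap i) else 0

lemma thi_norm (i : ℕ) (b : Bool) : 1 + ‖thi 𝕜 i b‖ ≤ g i b := by
  unfold thi g; split_ifs
  · exact th_norm 𝕜 _
  · simp

noncomputable def hh (γ : Gam) (l : ℕ) : ℝ :=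
  match γ.2 with
  | none => chi γ.1.1 γ.1.2 l
  | some A => w γ.1.1 γ.1.2 / (J γ.1.1).card * ∑ n ∈ A ∩ J γ.1.1, (chi γ.1.1 γ.1.2 (n + l) - 1)

lemma cardJ_pos (i : ℕ) : (0 : ℝ) < (J i).card := by
  rw [card_J]; have := a_pos i; positivity

lemma avg_le {i : ℕ} {b : Bool} (A : Finset ℕ) (f : ℕ → ℝ) {B : ℝ}
    (h : w i b * g i b * ∑ n ∈ J i, |f n| ≤ B * (J i).card) :
    g i b * |w i b / (J i).card * ∑ n ∈ A ∩ J i, f n| ≤ B := by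
  have hc := cardJ_pos i
  have hw := w_pos i b
  have hg := g_pos i b
  have h1 : |∑ n ∈ A ∩ J i, f n| ≤ ∑ n ∈ J i, |f n| :=
    (Finset.abs_sum_le_sum_abs _ _).trans
      (Finset.sum_le_sum_of_subset_of_nonneg inter_subset_right fun _ _ _ => abs_nonneg _)
  rw [abs_mul, abs_of_pos (by positivity : 0 < w i b / (J i).card)]
  calc g i b * (w i b / (J i).card * |∑ n ∈ A ∩ J i, f n|)
      ≤ g i b * (w i b / (J i).card * ∑ n ∈ J i, |f n|) := by gcongr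
    _ = (w i b * g i b * ∑ n ∈ J i, |f n|) / (J i).card := by ring
    _ ≤ B := by rw [div_le_iff₀ hc]; exact h

lemma g_hh_le (γ : Gam) (l : ℕ) : g γ.1.1 γ.1.2 * |hh γ l| ≤ 2 ^ l := by
  obtain ⟨⟨i, b⟩, _ | A⟩ := γ
  · exact g_chi_le i b l
  · refine le_trans (avg_le (B := 1) A (fun n => chi i b (n + l) - 1) ?_) (one_le_pow₀ (by norm_num))
    have : ∑ n ∈ J i, |chi i b (n + l) - 1| ≤ (J i).card := by
      calc _ ≤ ∑ _n ∈ J i, (1 : ℝ) := Finset.sum_le_sum fun n _ => by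
            rcases chi_mem i b (n + l) with h | h <;> simp [h]
        _ = _ := by simp
    exact mul_le_mul (wg_le i b) this (Finset.sum_nonneg fun _ _ => abs_nonneg _) (by norm_num)

lemma hh_ret {j m : ℕ} (h : Prim j m) (γ : Gam) (hγ : ¬ (γ.1.2 = true ∧ γ.1.1 = j ∧ γ.2 = none)) (l : ℕ) :
    g γ.1.1 γ.1.2 * |hh γ (l + m) - hh γ l| ≤ 2 ^ l * (3 * (1 / 2) ^ kap j) := by
  obtain ⟨⟨i, b⟩, _ | A⟩ := γ
  · have := claimP1 (i := i) (b := b) h (fun hh => hγ ⟨hh.1, hh.2, rfl⟩) l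
    refine le_trans this ?_
    have : (0 : ℝ) < (1 / 2) ^ kap j := by positivity
    gcongr
    linarith
  · have e : hh ((i, b), some A) (l + m) - hh ((i, b), some A) l =
        w i b / (J i).card * ∑ n ∈ A ∩ J i, (chi i b (n + l + m) - chi i b (n + l)) := by
      simp only [hh]
      rw [← mul_sub, ← Finset.sum_sub_distrib]
      congr 1
      apply Finset.sum_congr rfl
      intro n _
      rw [add_assoc]; ring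
    rw [e]
    exact avg_le A _ (claimQ h l)

lemma hh_ret2 {j m : ℕ} (h : Prim j m) (γ : Gam) (l : ℕ) :
    g γ.1.1 γ.1.2 * |(hh γ (l + 1 + m) - hh γ (l + 1)) - (hh γ (l + m) - hh γ l)| ≤
      2 ^ l * (9 * (1 / 2) ^ kap j) := by
  have hp : (0 : ℝ) < (1 / 2) ^ kap j := by positivity
  have h2 : (0 : ℝ) < 2 ^ l := by positivity
  by_cases hγ : γ.1.2 = true ∧ γ.1.1 = j ∧ γ.2 = none
  · obtain ⟨⟨i, b⟩, o⟩ := γ
    obtain ⟨rfl, rfl, rfl⟩ := hγ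
    refine le_trans (claimP2 h l) ?_
    gcongr
    norm_num
  · have e1 := hh_ret h γ hγ (l + 1)
    have e2 := hh_ret h γ hγ l
    have e3 := abs_sub (hh γ (l + 1 + m) - hh γ (l + 1)) (hh γ (l + m) - hh γ l)
    have e4 := mul_le_mul_of_nonneg_left e3 (g_pos γ.1.1 γ.1.2).le
    rw [mul_add] at e4
    rw [pow_succ] at e1
    nlinarith

noncomputable def xi (γ : Gam) (y : 𝕜 × 𝕜) : 𝕜 := y.1 - thi 𝕜 γ.1.1 γ.1.2 * y.2

lemma xi_norm (γ : Gam) (y : 𝕜 × 𝕜) : ‖xi 𝕜 γ y‖ ≤ g γ.1.1 γ.1.2 * ‖y‖ := by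
  have h1 := norm_fst_le y
  have h2 := norm_snd_le y
  have h3 := thi_norm 𝕜 γ.1.1 γ.1.2
  calc ‖xi 𝕜 γ y‖ ≤ ‖y.1‖ + ‖thi 𝕜 γ.1.1 γ.1.2 * y.2‖ := norm_sub_le _ _
    _ ≤ ‖y‖ + ‖thi 𝕜 γ.1.1 γ.1.2‖ * ‖y‖ := by rw [norm_mul]; gcongr
    _ = (1 + ‖thi 𝕜 γ.1.1 γ.1.2‖) * ‖y‖ := by ring
    _ ≤ _ := by gcongr

abbrev L : Type := lp (fun _ : Gam × ℕ => 𝕜) ∞
abbrev E : Type := (𝕜 × 𝕜) × L 𝕜

noncomputable def sh : L 𝕜 →L[𝕜] L 𝕜 :=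
  LinearMap.mkContinuous
    { toFun := fun f => ⟨fun p => 2 * f (p.1, p.2 + 1), memℓp_infty ⟨2 * ‖f‖, by
        rintro _ ⟨p, rfl⟩
        have := lp.norm_apply_le_norm (by simp) f (p.1, p.2 + 1)
        simp only [norm_mul, RCLike.norm_two]
        linarith⟩⟩
      map_add' := fun f f' => by
        ext p
        simp only [lp.coeFn_add, Pi.add_apply]
        ring
      map_smul' := fun c f => by
        ext p
        simp only [lp.coeFn_smul, Pi.smul_apply, smul_eq_mul, RingHom.id_apply]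
        ring }
    2 (fun f => lp.norm_le_of_forall_le (by positivity) fun p => by
        have := lp.norm_apply_le_norm (by simp) f (p.1, p.2 + 1)
        change ‖2 * f (p.1, p.2 + 1)‖ ≤ _
        simp only [norm_mul, RCLike.norm_two]
        linarith)

lemma sh_apply (f : L 𝕜) (γ : Gam) (l : ℕ) : sh 𝕜 f (γ, l) = 2 * f (γ, l + 1) := rfl

noncomputable def TE : E 𝕜 →L[𝕜] E 𝕜 := (ContinuousLinearMap.id 𝕜 (𝕜 × 𝕜)).prodMap (sh 𝕜)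

lemma TE_pow_fst (n : ℕ) (v : E 𝕜) : ((TE 𝕜 ^ n) v).1 = v.1 := by
  induction n with
  | zero => rfl
  | succ n ih => rw [pow_succ', ContinuousLinearMap.mul_apply]; exact ih

lemma TE_pow_snd (n : ℕ) (v : E 𝕜) (γ : Gam) (l : ℕ) :
    ((TE 𝕜 ^ n) v).2 (γ, l) = 2 ^ n * v.2 (γ, l + n) := by
  induction n generalizing l with
  | zero => simp
  | succ n ih =>
    rw [pow_succ', ContinuousLinearMap.mul_apply]
    change sh 𝕜 ((TE 𝕜 ^ n) v).2 (γ, l) = _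
    rw [sh_apply, ih, show l + 1 + n = l + (n + 1) by ring]
    ring

lemma coord_bound {γ : Gam} {l : ℕ} {y : 𝕜 × 𝕜} {r B : ℝ} (h : g γ.1.1 γ.1.2 * |r| ≤ 2 ^ l * B) :
    ‖(2 ^ l : 𝕜)⁻¹ * xi 𝕜 γ y * (r : 𝕜)‖ ≤ ‖y‖ * B := by
  have h2 : (0 : ℝ) < 2 ^ l := by positivity
  rw [norm_mul, norm_mul, norm_inv, norm_pow, RCLike.norm_two, RCLike.norm_ofReal]
  calc (2 ^ l)⁻¹ * ‖xi 𝕜 γ y‖ * |r| ≤ (2 ^ l)⁻¹ * (g γ.1.1 γ.1.2 * ‖y‖) * |r| := by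
        gcongr; exact xi_norm 𝕜 γ y
    _ = (2 ^ l)⁻¹ * ‖y‖ * (g γ.1.1 γ.1.2 * |r|) := by ring
    _ ≤ (2 ^ l)⁻¹ * ‖y‖ * (2 ^ l * B) := by gcongr
    _ = ‖y‖ * B := by field_simp

lemma ecoord_le (y : 𝕜 × 𝕜) (p : Gam × ℕ) :
    ‖(2 ^ p.2 : 𝕜)⁻¹ * xi 𝕜 p.1 y * (hh p.1 p.2 : 𝕜)‖ ≤ ‖y‖ := by
  have := coord_bound 𝕜 (y := y) (B := 1) (r := hh p.1 p.2) (l := p.2) (γ := p.1)
    (by rw [mul_one]; exact g_hh_le p.1 p.2)
  rwa [mul_one] at this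

noncomputable def eL : (𝕜 × 𝕜) →L[𝕜] L 𝕜 :=
  LinearMap.mkContinuous
    { toFun := fun y => ⟨fun p => (2 ^ p.2 : 𝕜)⁻¹ * xi 𝕜 p.1 y * (hh p.1 p.2 : 𝕜), memℓp_infty ⟨‖y‖, by
        rintro _ ⟨p, rfl⟩
        exact ecoord_le 𝕜 y p⟩⟩
      map_add' := fun f f' => by
        ext p
        simp only [lp.coeFn_add, Pi.add_apply, xi, Prod.fst_add, Prod.snd_add]
        ring
      map_smul' := fun c f => by
        ext p
        simp only [lp.coeFn_smul, Pi.smul_apply, smul_eq_mul, RingHom.id_apply, xi, Prod.smul_fst,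
          Prod.smul_snd]
        ring }
    1 (fun y => lp.norm_le_of_forall_le (by positivity) fun p => by
        rw [one_mul]
        exact ecoord_le 𝕜 y p)

noncomputable def eE : (𝕜 × 𝕜) →L[𝕜] E 𝕜 := (ContinuousLinearMap.id 𝕜 (𝕜 × 𝕜)).prod (eL 𝕜)

lemma eE_fst (y : 𝕜 × 𝕜) : (eE 𝕜 y).1 = y := rfl
lemma eE_snd (y : 𝕜 × 𝕜) (γ : Gam) (l : ℕ) :
    (eE 𝕜 y).2 (γ, l) = (2 ^ l : 𝕜)⁻¹ * xi 𝕜 γ y * (hh γ l : 𝕜) := rfl

lemma orb_snd (n : ℕ) (y : 𝕜 × 𝕜) (γ : Gam) (l : ℕ) :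
    ((TE 𝕜 ^ n) (eE 𝕜 y)).2 (γ, l) = (2 ^ l : 𝕜)⁻¹ * xi 𝕜 γ y * (hh γ (l + n) : 𝕜) := by
  rw [TE_pow_snd, eE_snd, pow_add]
  have : (2 : 𝕜) ^ n ≠ 0 := pow_ne_zero _ two_ne_zero
  have : (2 : 𝕜) ^ l ≠ 0 := pow_ne_zero _ two_ne_zero
  field_simp

lemma normE_le {v : E 𝕜} {B : ℝ} (hB : 0 ≤ B) (h1 : v.1 = 0) (h2 : ∀ γ l, ‖v.2 (γ, l)‖ ≤ B) : ‖v‖ ≤ B := by
  rw [Prod.norm_def, h1, norm_zero]
  exact max_le hB (lp.norm_le_of_forall_le hB fun p => h2 p.1 p.2)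

lemma ret_dir {j m : ℕ} (h : Prim j m) (t : 𝕜) :
    ‖(TE 𝕜 ^ m) (eE 𝕜 (t * th 𝕜 (kap j), t)) - eE 𝕜 (t * th 𝕜 (kap j), t)‖ ≤
      ‖(t * th 𝕜 (kap j), t)‖ * (3 * (1 / 2) ^ kap j) := by
  apply normE_le 𝕜 (by positivity)
  · rw [Prod.fst_sub, TE_pow_fst, sub_self]
  · intro γ l
    rw [Prod.snd_sub, lp.coeFn_sub, Pi.sub_apply, orb_snd, eE_snd, ← mul_sub, ← RCLike.ofReal_sub]
    by_cases hγ : γ.1.2 = true ∧ γ.1.1 = j ∧ γ.2 = none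
    · have : xi 𝕜 γ (t * th 𝕜 (kap j), t) = 0 := by
        unfold xi thi
        rw [if_pos hγ.1, hγ.2.1]
        ring
      rw [this, mul_zero, zero_mul, norm_zero]
      positivity
    · exact coord_bound 𝕜 (hh_ret h γ hγ l)

lemma ret_diff {j m : ℕ} (h : Prim j m) (y : 𝕜 × 𝕜) :
    ‖(TE 𝕜 ^ m) (TE 𝕜 (eE 𝕜 y) - eE 𝕜 y) - (TE 𝕜 (eE 𝕜 y) - eE 𝕜 y)‖ ≤
      ‖y‖ * (9 * (1 / 2) ^ kap j) := by
  apply normE_le 𝕜 (by positivity)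
  · rw [Prod.fst_sub, TE_pow_fst, sub_self]
  · intro γ l
    have e1 : (TE 𝕜 ^ m) (TE 𝕜 (eE 𝕜 y)) = (TE 𝕜 ^ (m + 1)) (eE 𝕜 y) := by
      rw [pow_succ, ContinuousLinearMap.mul_apply]
    have e2 : TE 𝕜 (eE 𝕜 y) = (TE 𝕜 ^ 1) (eE 𝕜 y) := by rw [pow_one]
    rw [map_sub, e1, e2]
    simp only [Prod.snd_sub, lp.coeFn_sub, Pi.sub_apply, orb_snd, eE_snd]
    have := coord_bound 𝕜 (y := y) (hh_ret2 h γ l)
    convert this using 2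
    rw [show l + (m + 1) = l + 1 + m by ring]
    push_cast
    ring

/-- the span of the orbits -/
noncomputable def Sp : Submodule 𝕜 (E 𝕜) :=
  Submodule.span 𝕜 {v | ∃ (n : ℕ) (y : 𝕜 × 𝕜), v = (TE 𝕜 ^ n) (eE 𝕜 y)}

lemma eE_mem (y : 𝕜 × 𝕜) : eE 𝕜 y ∈ Sp 𝕜 := Submodule.subset_span ⟨0, y, by simp⟩

lemma TE_mem {v : E 𝕜} (hv : v ∈ Sp 𝕜) : TE 𝕜 v ∈ Sp 𝕜 := by
  induction hv using Submodule.span_induction with
  | mem x hx =>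
    obtain ⟨n, y, rfl⟩ := hx
    exact Submodule.subset_span ⟨n + 1, y, by rw [pow_succ', ContinuousLinearMap.mul_apply]⟩
  | zero => simp
  | add x y _ _ hx hy => rw [map_add]; exact Submodule.add_mem _ hx hy
  | smul c x _ hx => rw [map_smul]; exact Submodule.smul_mem _ c hx

/-- vectors returning at all the marked times -/
def Wp (v : E 𝕜) : Prop := ∃ C : ℝ, ∀ j m, Prim j m → ‖(TE 𝕜 ^ m) v - v‖ ≤ C * (1 / 2) ^ kap j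

lemma Wp_add {u v : E 𝕜} (hu : Wp 𝕜 u) (hv : Wp 𝕜 v) : Wp 𝕜 (u + v) := by
  obtain ⟨C, hC⟩ := hu
  obtain ⟨D, hD⟩ := hv
  refine ⟨C + D, fun j m h => ?_⟩
  rw [map_add, add_sub_add_comm, add_mul]
  exact (norm_add_le _ _).trans (add_le_add (hC j m h) (hD j m h))

lemma Wp_smul (c : 𝕜) {u : E 𝕜} (hu : Wp 𝕜 u) : Wp 𝕜 (c • u) := by
  obtain ⟨C, hC⟩ := hu
  refine ⟨‖c‖ * C, fun j m h => ?_⟩
  rw [map_smul, ← smul_sub, norm_smul, mul_assoc]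
  exact mul_le_mul_of_nonneg_left (hC j m h) (norm_nonneg _)

lemma Wp_T {u : E 𝕜} (hu : Wp 𝕜 u) : Wp 𝕜 (TE 𝕜 u) := by
  obtain ⟨C, hC⟩ := hu
  refine ⟨‖TE 𝕜‖ * C, fun j m h => ?_⟩
  have e : (TE 𝕜 ^ m) (TE 𝕜 u) = TE 𝕜 ((TE 𝕜 ^ m) u) := by
    rw [← ContinuousLinearMap.mul_apply, ← pow_succ, pow_succ', ContinuousLinearMap.mul_apply]
  rw [e, ← map_sub, mul_assoc]
  exact ((TE 𝕜).le_opNorm _).trans (mul_le_mul_of_nonneg_left (hC j m h) (norm_nonneg _))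

lemma Wp_sp {v : E 𝕜} (hv : v ∈ Sp 𝕜) : Wp 𝕜 (v - eE 𝕜 v.1) := by
  induction hv using Submodule.span_induction with
  | mem x hx =>
    obtain ⟨n, y, rfl⟩ := hx
    rw [TE_pow_fst, eE_fst]
    induction n with
    | zero => exact ⟨0, fun j m _ => by simp⟩
    | succ n ih =>
      have e : (TE 𝕜 ^ (n + 1)) (eE 𝕜 y) - eE 𝕜 y =
          TE 𝕜 ((TE 𝕜 ^ n) (eE 𝕜 y) - eE 𝕜 y) + (TE 𝕜 (eE 𝕜 y) - eE 𝕜 y) := by
        rw [pow_succ', ContinuousLinearMap.mul_apply, map_sub]; abel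
      rw [e]
      exact Wp_add 𝕜 (Wp_T 𝕜 ih) ⟨‖y‖ * 9, fun j m h => by
        rw [mul_assoc]; exact ret_diff 𝕜 h y⟩
  | zero => exact ⟨0, fun j m _ => by simp⟩
  | add x y _ _ hx hy =>
    have e : x + y - eE 𝕜 (x + y).1 = (x - eE 𝕜 x.1) + (y - eE 𝕜 y.1) := by
      rw [Prod.fst_add, map_add]; abel
    rw [e]; exact Wp_add 𝕜 hx hy
  | smul c x _ hx =>
    have e : c • x - eE 𝕜 (c • x).1 = c • (x - eE 𝕜 x.1) := by
      rw [Prod.smul_fst, map_smul, smul_sub]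
    rw [e]; exact Wp_smul 𝕜 c hx

/-- vectors of the span over a good direction are frequently recurrent -/
lemma sp_frec {v : E 𝕜} (hv : v ∈ Sp 𝕜) {t : 𝕜} {q : ℕ}
    (h1 : v.1 = (t * TopologicalSpace.denseSeq 𝕜 q, t)) {ε : ℝ} (hε : 0 < ε) :
    ∃ δ : ℝ, 0 < δ ∧ ∃ N₀ : ℕ, ∀ N : ℕ, N₀ ≤ N →
      ∃ A : Finset ℕ, δ * (N : ℝ) ≤ A.card ∧ ∀ m ∈ A, 1 ≤ m ∧ m ≤ N ∧ ‖(TE 𝕜 ^ m) v - v‖ < ε := by
  obtain ⟨C, hC⟩ := Wp_sp 𝕜 hv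
  have hlim : Tendsto (fun k : ℕ => (C + ‖v.1‖ * 3) * (1 / 2 : ℝ) ^ k) atTop (𝓝 0) := by
    have := (tendsto_pow_atTop_nhds_zero_of_lt_one (r := (1 / 2 : ℝ)) (by norm_num) (by norm_num)).const_mul
      (C + ‖v.1‖ * 3)
    simpa using this
  obtain ⟨K, hK⟩ := eventually_atTop.1 (hlim.eventually (gt_mem_nhds hε))
  obtain ⟨k, hk1, hk2⟩ := th_surj 𝕜 q K
  obtain ⟨δ, hδ, N₀, hN⟩ := prim_density k
  refine ⟨δ, hδ, N₀, fun N hN' => ?_⟩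
  obtain ⟨A, hA1, hA2⟩ := hN N hN'
  refine ⟨A, hA1, fun m hm => ?_⟩
  obtain ⟨hm1, hm2, j, hj1, hj2⟩ := hA2 m hm
  refine ⟨hm1, hm2, ?_⟩
  have e1 := hC j m hj2
  have e2 := ret_dir 𝕜 hj2 t
  rw [hj1, hk2, ← h1] at e2
  rw [hj1] at e1
  have e3 : (TE 𝕜 ^ m) v - v = ((TE 𝕜 ^ m) (v - eE 𝕜 v.1) - (v - eE 𝕜 v.1)) +
      ((TE 𝕜 ^ m) (eE 𝕜 v.1) - eE 𝕜 v.1) := by
    rw [map_sub]; abel
  have e4 := hK k hk1
  rw [e3]
  refine lt_of_le_of_lt (norm_add_le _ _) ?_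
  nlinarith

end Pool.Agent.H963Z
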