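import Pool.Agent.H963Z.URec

/-! Dense lineability of uniformly recurrent vectors on separable spaces. -/

set_option autoImplicit false

namespace Pool.Agent.H963Z

open Filter Topology

lemma span_factor {𝕜 X ι : Type} [RCLike 𝕜] [NormedAddCommGroup X] [NormedSpace 𝕜 X] (T : X →L[𝕜] X)
    (z : ι → X) {v : X} (hv : v ∈ Submodule.span 𝕜 (Set.range z)) :
    ∃ π : (ι → X) → X, Continuous π ∧ Function.Semiconj π (fun (z : ι → X) i => T (z i)) T ∧ π z = v := by
  induction hv using Submodule.span_induction with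
  | mem x hx =>
    obtain ⟨i, rfl⟩ := hx
    exact ⟨fun z => z i, continuous_apply i, fun _ => rfl, rfl⟩
  | zero => exact ⟨fun _ => 0, continuous_const, fun _ => by simp, rfl⟩
  | add x y _ _ hx hy =>
    obtain ⟨π, h1, h2, h3⟩ := hx
    obtain ⟨π', h1', h2', h3'⟩ := hy
    exact ⟨fun z => π z + π' z, h1.add h1', fun z => by simp only [map_add, ← h2.eq, ← h2'.eq],
      by simp only [h3, h3']⟩
  | smul c x _ hx =>
    obtain ⟨π, h1, h2, h3⟩ := hx
    exact ⟨fun z => c • π z, h1.const_smul c, fun z => by simp only [map_smul, ← h2.eq], by simp only [h3]⟩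

lemma dense_of_near {X : Type} [MetricSpace X] [TopologicalSpace.SeparableSpace X] [Nonempty X]
    (z : ℕ × ℕ → X) (h : ∀ i, dist (z i) (TopologicalSpace.denseSeq X i.1) < 2 * (1 / ((i.2 : ℝ) + 1))) :
    Dense (Set.range z) := by
  rw [Metric.dense_iff]
  intro x r hr
  obtain ⟨i, hi⟩ := (TopologicalSpace.denseRange_denseSeq X).exists_dist_lt x (half_pos hr)
  obtain ⟨j, hj⟩ := exists_nat_one_div_lt (show 0 < r / 4 by positivity)
  refine ⟨z (i, j), ?_, _, rfl⟩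
  have h1 := h (i, j)
  have h2 := dist_triangle_right (z (i, j)) x (TopologicalSpace.denseSeq X i)
  rw [Metric.mem_ball]
  simp only at h1
  linarith

theorem urec_lineable {𝕜 X : Type} [RCLike 𝕜] [NormedAddCommGroup X] [NormedSpace 𝕜 X] [CompleteSpace X]
    [TopologicalSpace.SeparableSpace X] (T : X →L[𝕜] X) (h : Dense {x | UR T x}) :
    ∃ M : Submodule 𝕜 X, Dense (M : Set X) ∧ ∀ x ∈ M, UR T x := by
  choose x hx hx' using fun i : ℕ × ℕ => Metric.dense_iff.1 h (TopologicalSpace.denseSeq X i.1)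
    (1 / ((i.2 : ℝ) + 1)) Nat.one_div_pos_of_nat
  obtain ⟨z, h1, h2⟩ := urec_prod (X := fun _ : ℕ × ℕ => X) (fun _ => T) (fun _ => T.continuous) x hx'
    (fun i => 1 / ((i.2 : ℝ) + 1)) (fun _ => Nat.one_div_pos_of_nat)
  refine ⟨Submodule.span 𝕜 (Set.range z), (dense_of_near z fun i => ?_).mono Submodule.subset_span,
    fun v hv => ?_⟩
  · have e1 := dist_triangle (z i) (x i) (TopologicalSpace.denseSeq X i.1)
    have e2 := hx i
    have e3 := h1 i
    rw [Metric.mem_ball] at e2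
    linarith
  · obtain ⟨π, e1, e2, rfl⟩ := span_factor T z hv
    exact UR.factor e1 e2 h2

lemma ur_iff' {𝕜 X : Type} [RCLike 𝕜] [NormedAddCommGroup X] [NormedSpace 𝕜 X] (T : X →L[𝕜] X) (x : X) :
    (∀ U ∈ 𝓝 x, ∃ N : ℕ, ∀ m : ℕ, ∃ n : ℕ, m ≤ n ∧ n ≤ m + N ∧ 1 ≤ n ∧ (T ^ n) x ∈ U) ↔ UR T x := by
  simp only [FunLike.coe_pow_eq_iterate]
  refine forall₂_congr fun U _ => ⟨?_, ?_⟩
  · rintro ⟨N, hN⟩
    refine ⟨N, fun m => ?_⟩
    obtain ⟨n, h1, h2, -, h3⟩ := hN m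
    exact ⟨n, h1, h2, h3⟩
  · rintro ⟨N, hN⟩
    refine ⟨N + 1, fun m => ?_⟩
    obtain ⟨n, h1, h2, h3⟩ := hN (m + 1)
    exact ⟨n, by omega, by omega, by omega, h3⟩

end Pool.Agent.H963Z
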