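import Pool.Agent.H963Z.RR4
import Pool.Agent.H963Z.ULin

/-! Dense lineability of reiteratively recurrent vectors on separable spaces. -/

set_option autoImplicit false

namespace Pool.Agent.H963Z

open Filter Topology Finset

lemma orb_sub {Z : Type} [TopologicalSpace Z] {F : Z → Z} (hF : Continuous F) {z w : Z} (h : w ∈ Orb F z) :
    Orb F w ⊆ Orb F z :=
  closure_minimal (by rintro _ ⟨n, rfl⟩; exact (orb_maps hF z).iterate n h) isClosed_closure

lemma orb_map {Z : Type} [TopologicalSpace Z] {F : Z → Z} {π : Z → Z} (hπ : Continuous π)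
    (hs : Function.Semiconj π F F) {z w : Z} (h : w ∈ Orb F z) : π w ∈ Orb F (π z) := by
  refine map_mem_closure hπ h ?_
  rintro _ ⟨n, rfl⟩
  exact ⟨n, ((hs.iterate_right n).eq z).symm⟩

lemma RR.transfer {Z : Type} [TopologicalSpace Z] {F : Z → Z} (hF : Continuous F) {z w : Z} (hz : RR F z)
    (h1 : w ∈ Orb F z) (h2 : z ∈ Orb F w) : RR F w := by
  intro U hU
  obtain ⟨U', hs, hU', hw⟩ := mem_nhds_iff.1 hU
  obtain ⟨_, ha, a, rfl⟩ := mem_closure_iff.1 h1 U' hU' hw
  obtain ⟨δ, hδ, h⟩ := hz _ ((hU'.preimage (hF.iterate a)).mem_nhds ha)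
  refine ⟨δ, hδ, fun L => ?_⟩
  obtain ⟨_, ⟨d, hd⟩, u, rfl⟩ := mem_closure_iff.1 h2 _
    (open_cnt hF (hU'.preimage (hF.iterate a)) (δ * L) L) (h L)
  refine ⟨d + u + a, hd.trans (cnt_mono fun n _ hn => hs ?_)⟩
  simp only [Nn, Set.mem_setOf_eq, Set.mem_preimage, ← Function.iterate_add_apply] at hn
  rwa [show d + u + a + n = a + (d + n + u) by ring]

lemma lim_geom {Z : Type} [MetricSpace Z] [CompleteSpace Z] (u : ℕ → Z) (C : ℝ)
    (h : ∀ t, dist (u t) (u (t + 1)) ≤ C * (1 / 2) ^ t) : ∃ w, Tendsto u atTop (𝓝 w) :=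
  cauchySeq_tendsto_of_complete (cauchySeq_of_le_geometric (1 / 2) C (by norm_num) h)

theorem rr_seq {X : Type} [MetricSpace X] [CompleteSpace X] [TopologicalSpace.SeparableSpace X] {T : X → X}
    (hT : Continuous T) (o : X) (ho : T o = o) (y : ℕ → X) (hy : ∀ i, RR T (y i)) (ε : ℕ → ℝ)
    (hε : ∀ i, 0 < ε i) :
    ∃ z : ℕ → X, (∀ i, dist (z i) (y i) < ε i) ∧ RR (fun (z : ℕ → X) i => T (z i)) z := by
  letI := TopologicalSpace.upgradeIsCompletelyMetrizable (ℕ → X)
  have : Nonempty (ℕ → X) := ⟨y⟩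
  set F : (ℕ → X) → (ℕ → X) := fun z i => T (z i) with hFdef
  have hF : Continuous F := continuous_pi fun i => hT.comp (continuous_apply i)
  let p : ℕ → (ℕ → X) → (ℕ → X) := fun n z i => if i < n then z i else o
  have hp : ∀ n, Continuous (p n) := fun n => continuous_pi fun i => by
    by_cases h : i < n
    · simpa [p, h] using continuous_apply i
    · simpa [p, h] using continuous_const
  have hps : ∀ n, Function.Semiconj (p n) F F := fun n z => by
    funext i
    by_cases h : i < n <;> simp [p, h, hFdef, ho]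
  have hpp : ∀ n j z, n ≤ j → p n (p j z) = p n z := fun n j z h => by
    funext i
    by_cases h' : i < n
    · have : i < j := by omega
      simp [p, h', this]
    · simp [p, h']
  let e := TopologicalSpace.denseSeq (ℕ → X)
  let V : ℕ → ℕ → (ℕ → X) → Set (ℕ → X) := fun j n z =>
    {w | (∀ k ∈ range (j + 1), ∀ l ∈ range (j + 1), (∃ u, F^[u] (p n z) ∈ Metric.ball (e k) (1 / ((l : ℝ) + 1))) →
      ∃ u, F^[u] w ∈ Metric.ball (e k) (1 / ((l : ℝ) + 1))) ∧ ∀ i ∈ range n, dist (w i) (y i) < ε i}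
  let Inv : ℕ → (ℕ → X) × ℝ → Prop := fun j s => RR F s.1 ∧ p j s.1 = s.1 ∧ 0 < s.2 ∧
    ∀ n ∈ range (j + 1), Metric.closedBall (p n s.1) s.2 ⊆ V j n s.1
  have hV : ∀ j z (r : ℝ), 0 < r → (∀ i < j, dist (z i) (y i) < ε i) → ∃ ρ : ℝ, 0 < ρ ∧ ρ ≤ r ∧
      ∀ n ∈ range (j + 1), Metric.closedBall (p n z) ρ ⊆ V j n z := by
    intro j z r hr hz
    have h1 : ∀ᶠ ρ in 𝓝 (0 : ℝ), ∀ n ∈ range (j + 1), Metric.closedBall (p n z) ρ ⊆ V j n z := by
      refine (eventually_all_finset _).2 fun n hn => eventually_closedBall_subset ?_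
      refine Eventually.and ((eventually_all_finset _).2 fun k _ => (eventually_all_finset _).2 fun l _ => ?_)
        ((eventually_all_finset _).2 fun i hi => ?_)
      · by_cases h : ∃ u, F^[u] (p n z) ∈ Metric.ball (e k) (1 / ((l : ℝ) + 1))
        · obtain ⟨u, hu⟩ := h
          filter_upwards [(Metric.isOpen_ball.preimage (hF.iterate u)).mem_nhds hu] with w hw _ using ⟨u, hw⟩
        · exact Eventually.of_forall fun w h' => absurd h' h
      · have hi' := mem_range.1 hi
        have hn' := mem_range.1 hn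
        refine (isOpen_lt ((continuous_apply i).dist continuous_const) continuous_const).mem_nhds ?_
        simp only [Set.mem_setOf_eq, p, if_pos hi']
        exact hz i (by omega)
    obtain ⟨ρ, ⟨h2, h3⟩, h4⟩ := (((h1.and (ge_mem_nhds hr)).filter_mono nhdsWithin_le_nhds).and
      (self_mem_nhdsWithin (a := (0 : ℝ)) (s := Set.Ioi 0))).exists
    exact ⟨ρ, h4, h3, h2⟩
  have step : ∀ j s, Inv j s → ∃ s', Inv (j + 1) s' ∧ (∀ n ∈ range (j + 1), dist (p n s'.1) (p n s.1) ≤ s.2 / 2) ∧
      s'.2 ≤ s.2 / 2 ∧ p j s'.1 ∈ Orb F s.1 ∧ s.1 ∈ Orb F (p j s'.1) := by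
    rintro j ⟨z, ρ⟩ ⟨h1, h2, h3, h4⟩
    have hN : ∀ᶠ a in 𝓝 z, ∀ n ∈ range (j + 1), dist (p n a) (p n z) ≤ ρ / 2 :=
      (eventually_all_finset _).2 fun n _ =>
        (hp n).continuousAt.preimage_mem_nhds (Metric.closedBall_mem_nhds _ (half_pos h3))
    obtain ⟨η, hη, hb⟩ := Metric.eventually_nhds_iff.1 hN
    obtain ⟨a, b, e1, e2, e3, e4, e5⟩ := rr_step hF hT h1 (hy j) (lt_min hη (hε j))
    have e6 := hb (lt_of_lt_of_le e1 (min_le_left _ _))
    have ha : p j a = a := by
      refine closure_minimal (s := Set.range fun n => F^[n] z) (t := {a | p j a = a}) ?_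
        (isClosed_eq (hp j) continuous_id) e4
      rintro _ ⟨n, rfl⟩
      simp only [Set.mem_setOf_eq]
      rw [((hps j).iterate_right n).eq]
      simp only at h2
      rw [h2]
    have hpa : p j (Function.update a j b) = a := by
      rw [← ha]
      funext i
      by_cases h : i < j
      · simp [p, h, Function.update_of_ne h.ne]
      · simp [p, h]
    obtain ⟨ρ', r1, r2, r3⟩ := hV (j + 1) (Function.update a j b) (ρ / 2) (half_pos h3) (fun i hi => by
      rcases Nat.lt_succ_iff_lt_or_eq.1 hi with h | rfl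
      · rw [Function.update_of_ne h.ne]
        have := (h4 j (self_mem_range_succ j) (a := p j a)
          (le_trans (e6 j (self_mem_range_succ j)) (half_le_self h3.le))).2 i (mem_range.2 h)
        rwa [ha] at this
      · rw [Function.update_self]
        exact lt_of_lt_of_le e2 (min_le_right _ _))
    have e4' : p j (Function.update a j b) ∈ Orb F z := by rw [hpa]; exact e4
    have e5' : z ∈ Orb F (p j (Function.update a j b)) := by rw [hpa]; exact e5
    refine ⟨(Function.update a j b, ρ'), ⟨?_, ?_, r1, r3⟩, fun n hn => ?_, r2, e4', e5'⟩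
    · refine RR.factor (π := fun q : (ℕ → X) × X => Function.update q.1 j q.2)
        (continuous_fst.update j continuous_snd) (fun q => ?_) e3
      funext i
      by_cases h : i = j
      · subst h; simp [hFdef]
      · simp [hFdef, Function.update_of_ne h]
    · funext i
      by_cases h : i < j + 1
      · simp [p, h]
      · have := congrFun ha i
        have h' : ¬ i < j := by omega
        have h'' : i ≠ j := by omega
        simp only [p, if_neg h', if_neg h, Function.update_of_ne h''] at this ⊢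
        exact this
    · have := e6 n hn
      rwa [← hpa, hpp n j _ (Nat.lt_succ_iff.1 (mem_range.1 hn))] at this
  choose! f hf using step
  obtain ⟨ρ₀, q1, -, q3⟩ := hV 0 (fun _ => o) 1 one_pos (fun i hi => absurd hi (Nat.not_lt_zero i))
  let s : ℕ → (ℕ → X) × ℝ := fun j => Nat.rec ((fun _ => o), ρ₀) f j
  have hs : ∀ j, Inv j (s j) := by
    intro j
    induction j with
    | zero =>
      refine ⟨fun U hU => pos_univ.mono fun n _ => ?_, rfl, q1, q3⟩
      have : F (fun _ => o) = fun _ => o := by funext i; exact ho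
      simp only [Nn, Set.mem_setOf_eq]
      change F^[n] (fun _ => o) ∈ U
      rw [Function.iterate_fixed this]
      exact mem_of_mem_nhds hU
    | succ j ih => exact (hf j _ ih).1
  have hR : ∀ j, (∀ n ∈ range (j + 1), dist (p n (s (j + 1)).1) (p n (s j).1) ≤ (s j).2 / 2) ∧
      (s (j + 1)).2 ≤ (s j).2 / 2 ∧ p j (s (j + 1)).1 ∈ Orb F (s j).1 ∧ (s j).1 ∈ Orb F (p j (s (j + 1)).1) :=
    fun j => (hf j _ (hs j)).2
  have hd : ∀ n j, n ≤ j → ∀ t, dist (p n (s (j + t)).1) (p n (s j).1) ≤ (s j).2 - (s (j + t)).2 := by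
    intro n j hn t
    induction t with
    | zero => simp
    | succ t ih =>
      have e1 := (hR (j + t)).1 n (mem_range.2 (by omega))
      have e2 := (hR (j + t)).2.1
      have e3 := dist_triangle (p n (s (j + t + 1)).1) (p n (s (j + t)).1) (p n (s j).1)
      rw [← add_assoc]
      linarith
  have hρ : ∀ j, (s j).2 ≤ ρ₀ * (1 / 2) ^ j := by
    intro j
    induction j with
    | zero => simp [s]
    | succ j ih => have := (hR j).2.1; rw [pow_succ]; linarith
  have hlim : ∀ n, ∃ w, Tendsto (fun t => p n (s (n + t)).1) atTop (𝓝 w) := by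
    intro n
    refine lim_geom _ ρ₀ fun t => ?_
    have e1 := (hR (n + t)).1 n (mem_range.2 (by omega))
    have e2 := hρ (n + t)
    have e3 : ρ₀ * (1 / 2) ^ (n + t) ≤ ρ₀ * (1 / 2 : ℝ) ^ t :=
      mul_le_mul_of_nonneg_left (pow_le_pow_of_le_one (by norm_num) (by norm_num) (by omega)) q1.le
    have e4 := (hs (n + t)).2.2.1
    rw [dist_comm, ← add_assoc]
    linarith
  choose w hw using hlim
  have hball : ∀ n j, n ≤ j → w n ∈ V j n (s j).1 := by
    intro n j hn
    refine (hs j).2.2.2 n (mem_range.2 (by omega)) (Metric.isClosed_closedBall.mem_of_tendsto (hw n) ?_)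
    filter_upwards [eventually_ge_atTop j] with t ht
    have := hd n j hn (n + t - j)
    rw [show j + (n + t - j) = n + t by omega] at this
    have e := (hs (n + t)).2.2.1
    rw [Metric.mem_closedBall]
    linarith
  have horb : ∀ n t, p n (s (n + t)).1 ∈ Orb F (s n).1 ∧ (s n).1 ∈ Orb F (p n (s (n + t)).1) := by
    intro n t
    induction t with
    | zero => rw [add_zero, (hs n).2.1]; exact ⟨self_orb _ _, self_orb _ _⟩
    | succ t ih =>
      have e1 := orb_map (hp n) (hps n) (hR (n + t)).2.2.1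
      have e2 := orb_map (hp n) (hps n) (hR (n + t)).2.2.2
      rw [hpp n (n + t) _ (by omega)] at e1 e2
      exact ⟨orb_sub hF ih.1 e1, orb_sub hF e2 ih.2⟩
  have hrr : ∀ n, RR F (w n) := by
    intro n
    refine (hs n).1.transfer hF (isClosed_closure.mem_of_tendsto (hw n) (Eventually.of_forall fun t => (horb n t).1)) ?_
    refine Metric.mem_closure_iff.2 fun η hη => ?_
    obtain ⟨l, hl⟩ := exists_nat_one_div_lt (half_pos hη)
    obtain ⟨k, hk⟩ := (TopologicalSpace.denseRange_denseSeq (ℕ → X)).exists_dist_lt (s n).1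
      (Nat.one_div_pos_of_nat (n := l))
    obtain ⟨_, h1, u, rfl⟩ := mem_closure_iff.1 (horb n (k + l)).2 _ Metric.isOpen_ball (Metric.mem_ball.2 hk)
    obtain ⟨u', hu'⟩ := (hball n (n + (k + l)) (by omega)).1 k (mem_range.2 (by omega)) l (mem_range.2 (by omega))
      ⟨u, h1⟩
    refine ⟨_, ⟨u', rfl⟩, ?_⟩
    have := dist_triangle_right (s n).1 (F^[u'] (w n)) (e k)
    rw [Metric.mem_ball] at hu'
    linarith
  have hcomp : ∀ n i, i < n → w n i = w (i + 1) i := by
    intro n i hi
    have e1 := ((continuous_apply i).tendsto _).comp ((hw n).comp (tendsto_add_atTop_nat (i + 1)))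
    have e2 := ((continuous_apply i).tendsto _).comp ((hw (i + 1)).comp (tendsto_add_atTop_nat n))
    refine tendsto_nhds_unique e1 (e2.congr fun t => ?_)
    simp only [Function.comp, p, if_pos hi, if_pos (Nat.lt_succ_self i)]
    rw [show i + 1 + (t + n) = n + (t + (i + 1)) by ring]
  have hit : ∀ (n : ℕ) (z : ℕ → X) i, (F^[n] z) i = T^[n] (z i) := by
    intro n
    induction n with
    | zero => intro z i; rfl
    | succ n ih => intro z i; rw [Function.iterate_succ_apply, Function.iterate_succ_apply, ih]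
  refine ⟨fun i => w (i + 1) i, fun i => (hball (i + 1) (i + 1) le_rfl).2 i (self_mem_range_succ i), ?_⟩
  intro U hU
  rw [nhds_pi, Filter.mem_pi'] at hU
  obtain ⟨I, t, ht, hsub⟩ := hU
  have hI : ∀ i ∈ I, i < I.sup id + 1 := fun i hi => Nat.lt_succ_of_le (Finset.le_sup (f := id) hi)
  refine (hrr (I.sup id + 1) ((I : Set ℕ).pi t) (set_pi_mem_nhds I.finite_toSet fun i hi => by
    rw [hcomp _ i (hI i hi)]; exact ht i)).mono fun n hn => hsub fun i hi => ?_
  have := hn i hi
  rw [hit] at this ⊢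
  rwa [hcomp _ i (hI i hi)] at this

theorem rrec_lineable {𝕜 X : Type} [RCLike 𝕜] [NormedAddCommGroup X] [NormedSpace 𝕜 X] [CompleteSpace X]
    [TopologicalSpace.SeparableSpace X] (T : X →L[𝕜] X) (h : Dense {x | RR T x}) :
    ∃ M : Submodule 𝕜 X, Dense (M : Set X) ∧ ∀ x ∈ M, RR T x := by
  choose x hx hx' using fun i : ℕ => Metric.dense_iff.1 h (TopologicalSpace.denseSeq X (Nat.unpair i).1)
    (1 / (((Nat.unpair i).2 : ℝ) + 1)) Nat.one_div_pos_of_nat
  obtain ⟨z, h1, h2⟩ := rr_seq T.continuous 0 (map_zero T) x hx'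
    (fun i => 1 / (((Nat.unpair i).2 : ℝ) + 1)) (fun _ => Nat.one_div_pos_of_nat)
  refine ⟨Submodule.span 𝕜 (Set.range z), (dense_of_near (fun i => z (Nat.pair i.1 i.2)) fun i => ?_).mono
    (Set.Subset.trans (by rintro _ ⟨i, rfl⟩; exact ⟨_, rfl⟩) Submodule.subset_span), fun v hv => ?_⟩
  · have e1 := dist_triangle (z (Nat.pair i.1 i.2)) (x (Nat.pair i.1 i.2)) (TopologicalSpace.denseSeq X i.1)
    have e2 := hx (Nat.pair i.1 i.2)
    have e3 := h1 (Nat.pair i.1 i.2)
    simp only [Metric.mem_ball, Nat.unpair_pair] at e2 e3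
    linarith
  · obtain ⟨π, e1, e2, rfl⟩ := span_factor T z hv
    exact RR.factor e1 e2 h2

lemma rr_iff' {𝕜 X : Type} [RCLike 𝕜] [NormedAddCommGroup X] [NormedSpace 𝕜 X] (T : X →L[𝕜] X) (x : X) :
    (∀ U ∈ 𝓝 x, ∃ δ : ℝ, 0 < δ ∧ ∀ N : ℕ, 1 ≤ N → ∃ m : ℕ,
      δ * (N : ℝ) ≤ (({n : ℕ | m ≤ n ∧ n < m + N ∧ (T ^ n) x ∈ U}).ncard : ℝ)) ↔ RR T x := by
  have key : ∀ (U : Set X) (m N : ℕ),
      (({n : ℕ | m ≤ n ∧ n < m + N ∧ (T ^ n) x ∈ U}).ncard : ℝ) = wct (Nn T x U) m N := by
    intro U m N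
    rw [cnt_eq]
    congr 1
    have : {n : ℕ | m ≤ n ∧ n < m + N ∧ (T ^ n) x ∈ U} =
        (fun n => m + n) '' {n : ℕ | n < N ∧ m + n ∈ Nn T x U} := by
      ext n
      simp only [FunLike.coe_pow_eq_iterate]
      constructor
      · rintro ⟨h1, h2, h3⟩
        exact ⟨n - m, ⟨by omega, by rwa [show m + (n - m) = n by omega]⟩, by simp only; omega⟩
      · rintro ⟨k, ⟨h1, h2⟩, rfl⟩
        exact ⟨by simp only; omega, by simp only; omega, h2⟩
    rw [this, Set.ncard_image_of_injective _ (add_right_injective m)]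
  simp only [key]
  refine forall₂_congr fun U _ => exists_congr fun δ => and_congr_right fun _ => ⟨fun h L => ?_, fun h N _ => h N⟩
  rcases Nat.eq_zero_or_pos L with rfl | hL
  · exact ⟨0, by simp [wct]⟩
  · exact h L hL

end Pool.Agent.H963Z
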