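import Mathlib

/-! Positive upper Banach density: counting lemmas. -/

set_option autoImplicit false

namespace Pool.Agent.H963Z

open Filter Topology Finset

open Classical in
noncomputable def ind (A : Set ℕ) (n : ℕ) : ℝ := if n ∈ A then 1 else 0

noncomputable def wct (A : Set ℕ) (m L : ℕ) : ℝ := ∑ n ∈ range L, ind A (m + n)

def Pos (A : Set ℕ) : Prop := ∃ δ : ℝ, 0 < δ ∧ ∀ L : ℕ, ∃ m : ℕ, δ * L ≤ wct A m L

def Null (A : Set ℕ) : Prop := ∀ δ : ℝ, 0 < δ → ∃ L₀ : ℕ, ∀ L : ℕ, L₀ ≤ L → ∀ m : ℕ, wct A m L ≤ δ * L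

lemma ind_nonneg (A : Set ℕ) (n : ℕ) : 0 ≤ ind A n := by unfold ind; split_ifs <;> norm_num
lemma ind_le (A : Set ℕ) (n : ℕ) : ind A n ≤ 1 := by unfold ind; split_ifs <;> norm_num
lemma ind_mem {A : Set ℕ} {n : ℕ} (h : n ∈ A) : ind A n = 1 := if_pos h
lemma ind_not {A : Set ℕ} {n : ℕ} (h : n ∉ A) : ind A n = 0 := if_neg h
lemma ind_abs (A : Set ℕ) (n : ℕ) : |ind A n| ≤ 1 := by
  rw [abs_of_nonneg (ind_nonneg A n)]; exact ind_le A n
lemma ind_mono {A B : Set ℕ} {n n' : ℕ} (h : n ∈ A → n' ∈ B) : ind A n ≤ ind B n' := by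
  by_cases hn : n ∈ A
  · rw [ind_mem hn, ind_mem (h hn)]
  · rw [ind_not hn]; exact ind_nonneg _ _
lemma ind_mul (A B : Set ℕ) (f g : ℕ → ℕ) (n : ℕ) :
    ind A (f n) * ind B (g n) = ind {n | f n ∈ A ∧ g n ∈ B} n := by
  by_cases h1 : f n ∈ A <;> by_cases h2 : g n ∈ B <;> simp [ind, h1, h2]

lemma cnt_eq (A : Set ℕ) (m L : ℕ) : wct A m L = (({n : ℕ | n < L ∧ m + n ∈ A}.ncard : ℕ) : ℝ) := by
  classical
  have : {n : ℕ | n < L ∧ m + n ∈ A} = ((range L).filter fun n => m + n ∈ A : Finset ℕ) := by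
    ext n; simp
  rw [this, Set.ncard_coe_finset, Finset.card_filter]
  unfold wct ind
  push_cast
  rfl

lemma cnt_nonneg (A : Set ℕ) (m L : ℕ) : 0 ≤ wct A m L := Finset.sum_nonneg fun _ _ => ind_nonneg _ _
lemma cnt_le (A : Set ℕ) (m L : ℕ) : wct A m L ≤ L := by
  calc wct A m L ≤ ∑ _n ∈ range L, (1 : ℝ) := Finset.sum_le_sum fun _ _ => ind_le _ _
    _ = L := by simp
lemma cnt_mono {A B : Set ℕ} {m m' L : ℕ} (h : ∀ n, n < L → m + n ∈ A → m' + n ∈ B) :
    wct A m L ≤ wct B m' L := Finset.sum_le_sum fun n hn => ind_mono (h n (mem_range.1 hn))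
lemma cnt_add (A : Set ℕ) (m L L' : ℕ) : wct A m (L + L') = wct A m L + wct A (m + L) L' := by
  unfold wct
  rw [Finset.sum_range_add]
  simp only [add_assoc]
lemma cnt_union (A B : Set ℕ) (m L : ℕ) : wct (A ∪ B) m L ≤ wct A m L + wct B m L := by
  unfold wct
  rw [← Finset.sum_add_distrib]
  refine Finset.sum_le_sum fun n _ => ?_
  by_cases h1 : m + n ∈ A <;> by_cases h2 : m + n ∈ B <;> simp [ind, h1, h2]

lemma cnt_shift (A : Set ℕ) (m d L : ℕ) : wct A m L ≤ wct A (m + d) L + d := by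
  have h1 := cnt_add A m d L
  have h2 := cnt_add A m L d
  rw [add_comm L d] at h2
  have := cnt_le A m d
  have := cnt_nonneg A (m + L) d
  linarith

lemma cnt_shift' (A : Set ℕ) (m d L : ℕ) : wct A (m + d) L ≤ wct A m L + d := by
  have h1 := cnt_add A m d L
  have h2 := cnt_add A m L d
  rw [add_comm L d] at h2
  have := cnt_le A (m + L) d
  have := cnt_nonneg A m d
  linarith

lemma cnt_block {A : Set ℕ} {δ : ℝ} (hδ : 0 ≤ δ) {L : ℕ} (hL : 0 < L) (h : ∀ j, wct A j L ≤ δ * L) (k : ℕ) :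
    ∀ m, wct A m k ≤ δ * k + L := by
  induction k using Nat.strong_induction_on with
  | _ k ih =>
    intro m
    by_cases hk : k < L
    · have h1 := cnt_le A m k
      have h2 : (k : ℝ) ≤ L := by exact_mod_cast hk.le
      have : 0 ≤ δ * k := by positivity
      linarith
    · obtain ⟨k', rfl⟩ : ∃ k', k = L + k' := ⟨k - L, by omega⟩
      rw [cnt_add]
      have := ih k' (by omega) (m + L)
      have := h m
      push_cast
      linarith

lemma null_of_not_pos {A : Set ℕ} (h : ¬ Pos A) : Null A := by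
  intro δ hδ
  unfold Pos at h
  push Not at h
  obtain ⟨L, hL⟩ := h (δ / 2) (half_pos hδ)
  have hL0 : 0 < L := by
    rcases Nat.eq_zero_or_pos L with h0 | h0
    · have := hL 0
      rw [h0] at this
      simp [wct] at this
    · exact h0
  obtain ⟨L₀, hL₀⟩ := exists_nat_ge (2 * L / δ)
  refine ⟨L₀, fun k hk m => ?_⟩
  have := cnt_block (half_pos hδ).le hL0 (fun j => (hL j).le) k m
  have h2 : (L₀ : ℝ) ≤ k := by exact_mod_cast hk
  rw [div_le_iff₀ hδ] at hL₀
  nlinarith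

lemma Pos.not_null {A : Set ℕ} (h : Pos A) (h' : Null A) : False := by
  obtain ⟨δ, hδ, h⟩ := h
  obtain ⟨L₀, hL₀⟩ := h' (δ / 2) (half_pos hδ)
  obtain ⟨m, hm⟩ := h (L₀ + 1)
  have := hL₀ (L₀ + 1) (Nat.le_succ _) m
  have : (0 : ℝ) < ((L₀ + 1 : ℕ) : ℝ) := by positivity
  nlinarith

lemma Pos.shift {A B : Set ℕ} (h : Pos A) (a : ℕ) (hab : ∀ n ∈ A, n + a ∈ B) : Pos B := by
  obtain ⟨δ, hδ, h⟩ := h
  refine ⟨δ, hδ, fun L => ?_⟩
  obtain ⟨m, hm⟩ := h L
  exact ⟨m + a, hm.trans (cnt_mono fun n _ hn => by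
    rw [show m + a + n = m + n + a by ring]; exact hab _ hn)⟩

lemma Pos.mono {A B : Set ℕ} (h : Pos A) (hab : A ⊆ B) : Pos B := h.shift 0 hab

lemma Null.union {A B : Set ℕ} (hA : Null A) (hB : Null B) : Null (A ∪ B) := by
  intro δ hδ
  obtain ⟨L₁, h1⟩ := hA (δ / 2) (half_pos hδ)
  obtain ⟨L₂, h2⟩ := hB (δ / 2) (half_pos hδ)
  refine ⟨max L₁ L₂, fun L hL m => ?_⟩
  have := h1 L (le_trans (le_max_left _ _) hL) m
  have := h2 L (le_trans (le_max_right _ _) hL) m
  have := cnt_union A B m L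
  linarith

lemma Pos.diff {A Z : Set ℕ} (h : Pos A) (hZ : Null Z) : Pos (A \ Z) := by
  by_contra hn
  exact (h.mono fun n hn => by by_cases hz : n ∈ Z <;> simp [hn, hz]).not_null
    ((null_of_not_pos hn).union hZ)

lemma Pos.nonempty {A : Set ℕ} (h : Pos A) : A.Nonempty := by
  obtain ⟨δ, hδ, h⟩ := h
  obtain ⟨m, hm⟩ := h 1
  by_contra hn
  rw [Set.not_nonempty_iff_eq_empty] at hn
  simp [wct, ind, hn] at hm
  linarith

lemma Pos.back {A : Set ℕ} (h : Pos A) (d : ℕ) : Pos {n | d + n ∈ A} := by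
  by_contra hn
  refine h.not_null fun δ hδ => ?_
  obtain ⟨L₀, hL₀⟩ := null_of_not_pos hn (δ / 2) (half_pos hδ)
  obtain ⟨L₁, hL₁⟩ := exists_nat_ge (2 * d / δ)
  refine ⟨max L₀ L₁, fun L hL m => ?_⟩
  have h1 := hL₀ L (le_trans (le_max_left _ _) hL) m
  have h2 := cnt_shift A m d L
  have h3 : wct A (m + d) L ≤ wct {n | d + n ∈ A} m L := cnt_mono fun n _ hn => by
    simp only [Set.mem_setOf_eq]; rwa [show d + (m + n) = m + d + n by ring]
  have h4 : (L₁ : ℝ) ≤ L := by exact_mod_cast le_trans (le_max_right _ _) hL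
  rw [div_le_iff₀ hδ] at hL₁
  nlinarith

lemma Pos.biUnion {ι : Type} {t : Finset ι} {A : ι → Set ℕ} (h : Pos (⋃ i ∈ t, A i)) : ∃ i ∈ t, Pos (A i) := by
  classical
  induction t using Finset.induction_on with
  | empty => simpa using h.nonempty
  | insert a t _ ih =>
    rw [Finset.set_biUnion_insert] at h
    by_cases ha : Pos (A a)
    · exact ⟨a, mem_insert_self _ _, ha⟩
    · obtain ⟨i, hi, hi'⟩ := ih ((h.diff (null_of_not_pos ha)).mono fun n hn => hn.1.resolve_left hn.2)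
      exact ⟨i, mem_insert_of_mem hi, hi'⟩

lemma pos_univ : Pos Set.univ := ⟨1, one_pos, fun L => ⟨0, by simp [wct, ind]⟩⟩

lemma recentre (e : ℕ → ℝ) (he : ∀ j, e j ≤ 1) {δ : ℝ} (hδ : 0 ≤ δ) {M k : ℕ}
    (h1 : 2 * δ * M ≤ ∑ j ∈ range M, e j) (h2 : (k : ℝ) ≤ δ * M) :
    ∃ j₀, ∀ H, H ≤ k → δ * H ≤ ∑ h ∈ range H, e (j₀ + h) := by
  obtain ⟨j₀, hj₀, hmin⟩ := Finset.exists_min_image (range (M + 1)) (fun j => ∑ i ∈ range j, e i - δ * j)
    ⟨0, by simp⟩
  have hj : j₀ ≤ M := Nat.lt_succ_iff.1 (mem_range.1 hj₀)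
  obtain ⟨r, rfl⟩ := Nat.exists_eq_add_of_le hj
  have e0 := hmin 0 (by simp)
  simp only [range_zero, sum_empty, Nat.cast_zero, mul_zero, sub_zero] at e0
  rw [Finset.sum_range_add] at h1
  have e1 : ∑ x ∈ range r, e (j₀ + x) ≤ r := by
    calc _ ≤ ∑ _x ∈ range r, (1 : ℝ) := Finset.sum_le_sum fun _ _ => he _
      _ = r := by simp
  have hk : k ≤ r := by
    have : (k : ℝ) ≤ r := by
      push_cast at h1 h2
      have : 0 ≤ δ * r := by positivity
      nlinarith
    exact_mod_cast this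
  refine ⟨j₀, fun H hH => ?_⟩
  have := hmin (j₀ + H) (mem_range.2 (by omega))
  rw [Finset.sum_range_add] at this
  push_cast at this
  linarith

/-- cross correlation windows -/
lemma cross_windows {A B : Set ℕ} (hA : Pos A) (hB : Pos B) : ∃ δ : ℝ, 0 < δ ∧ ∀ k : ℕ, ∃ m m' : ℕ,
    ∀ H, H ≤ k → δ * H ≤ ∑ h ∈ range H, (∑ n ∈ range k, ind A (m + (n + h)) * ind B (m' + n)) / (k : ℝ) := by
  obtain ⟨α, hα, hA⟩ := hA
  obtain ⟨β, hβ, hB⟩ := hB
  refine ⟨α * β / 4, by positivity, fun k => ?_⟩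
  rcases Nat.eq_zero_or_pos k with rfl | hk
  · refine ⟨0, 0, fun H hH => ?_⟩
    obtain rfl : H = 0 := by omega
    simp
  have hk' : (0 : ℝ) < k := by exact_mod_cast hk
  obtain ⟨m', hm'⟩ := hB k
  obtain ⟨M, hM⟩ := exists_nat_ge (max (2 * k / α) (4 * k / (α * β)))
  have hM1 := (div_le_iff₀ hα).1 (le_trans (le_max_left _ _) hM)
  have hM2 := (div_le_iff₀ (mul_pos hα hβ)).1 (le_trans (le_max_right _ _) hM)
  obtain ⟨m₀, hm₀⟩ := hA M
  obtain ⟨j₀, hj₀⟩ := recentre (fun j => (∑ n ∈ range k, ind A (m₀ + (j + n)) * ind B (m' + n)) / (k : ℝ))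
    (fun j => by
      rw [div_le_one hk']
      calc _ ≤ ∑ _x ∈ range k, (1 : ℝ) := Finset.sum_le_sum fun _ _ =>
            mul_le_one₀ (ind_le _ _) (ind_nonneg _ _) (ind_le _ _)
        _ = k := by simp) (δ := α * β / 4) (by positivity) (M := M) (k := k) (by
      rw [← Finset.sum_div, le_div_iff₀ hk', Finset.sum_comm]
      have h1 : ∀ n ∈ range k, α / 2 * M * ind B (m' + n) ≤
          ∑ j ∈ range M, ind A (m₀ + (j + n)) * ind B (m' + n) := by
        intro n hn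
        rw [← Finset.sum_mul]
        refine mul_le_mul_of_nonneg_right ?_ (ind_nonneg _ _)
        have e1 := cnt_shift A m₀ n M
        have e2 : ∑ j ∈ range M, ind A (m₀ + (j + n)) = wct A (m₀ + n) M :=
          Finset.sum_congr rfl fun j _ => by congr 1; ring
        have e3 : (n : ℝ) ≤ k := by exact_mod_cast (mem_range.1 hn).le
        linarith
      refine le_trans ?_ (Finset.sum_le_sum h1)
      rw [← Finset.mul_sum]
      have : α / 2 * M * (β * k) ≤ α / 2 * M * wct B m' k := mul_le_mul_of_nonneg_left hm' (by positivity)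
      unfold wct at this
      linarith) (by linarith)
  refine ⟨m₀ + j₀, m', fun H hH => (hj₀ H hH).trans (le_of_eq ?_)⟩
  refine Finset.sum_congr rfl fun h _ => ?_
  congr 1
  refine Finset.sum_congr rfl fun n _ => ?_
  congr 2
  ring

lemma sum_dist_le (γ : ℕ → ℝ) (hγ : ∀ h, 0 ≤ γ h) {H i : ℕ} (hi : i < H) :
    ∑ j ∈ range H, γ (Nat.dist i j) ≤ 2 * ∑ h ∈ range H, γ h := by
  obtain ⟨r, rfl⟩ := Nat.exists_eq_add_of_le hi.le
  rw [Finset.sum_range_add (fun j => γ (Nat.dist i j))]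
  have e1 : ∑ j ∈ range r, γ (Nat.dist i (i + j)) ≤ ∑ h ∈ range (i + r), γ h := by
    have : ∀ j, Nat.dist i (i + j) = j := fun j => by simp [Nat.dist]
    simp only [this]
    exact Finset.sum_le_sum_of_subset_of_nonneg (range_subset_range.2 (by omega)) fun _ _ _ => hγ _
  have e2 : ∑ j ∈ range i, γ (Nat.dist i j) ≤ ∑ h ∈ range (i + r), γ h := by
    rw [← Finset.sum_range_reflect]
    have : ∀ j ∈ range i, γ (Nat.dist i (i - 1 - j)) = γ (j + 1) := fun j hj => by
      have := mem_range.1 hj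
      congr 1
      unfold Nat.dist
      omega
    rw [Finset.sum_congr rfl this]
    have e3 := Finset.sum_range_succ' γ i
    have e4 : ∑ h ∈ range (i + 1), γ h ≤ ∑ h ∈ range (i + r), γ h :=
      Finset.sum_le_sum_of_subset_of_nonneg (range_subset_range.2 (by omega)) fun _ _ _ => hγ _
    have := hγ 0
    linarith
  linarith

/-- autocorrelation lower bound -/
lemma auto_bound (C : Set ℕ) (m k H : ℕ) {δ : ℝ} (hδ : 0 < δ) (h : δ * k ≤ wct C m k) (hk : 0 < k)
    (h1 : 2 * (H : ℝ) ≤ δ * k) (h2 : 8 * (H : ℝ) ≤ δ ^ 2 * k) :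
    δ ^ 2 / 16 * H ≤ ∑ h ∈ range H, (∑ n ∈ range k, ind C (m + (n + h)) * ind C (m + n)) / (k : ℝ) := by
  have hk' : (0 : ℝ) < k := by exact_mod_cast hk
  rcases Nat.eq_zero_or_pos H with rfl | hH
  · simp
  have hH' : (0 : ℝ) < H := by exact_mod_cast hH
  set γ : ℕ → ℝ := fun h => ∑ n ∈ range k, ind C (m + (n + h)) * ind C (m + n) with hγ
  have hγ0 : ∀ h, 0 ≤ γ h := fun h => Finset.sum_nonneg fun _ _ => mul_nonneg (ind_nonneg _ _) (ind_nonneg _ _)
  have key : ∀ i h, i < H → ∑ n ∈ range k, ind C (m + (n + (i + h))) * ind C (m + (n + i)) ≤ γ h + H := by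
    intro i h hi
    have e1 : γ h = wct {n | m + (n + h) ∈ C ∧ m + n ∈ C} 0 k :=
      Finset.sum_congr rfl fun n _ => by rw [zero_add]; exact ind_mul C C (fun n => m + (n + h)) (fun n => m + n) n
    have e2 : ∑ n ∈ range k, ind C (m + (n + (i + h))) * ind C (m + (n + i)) =
        wct {n | m + (n + h) ∈ C ∧ m + n ∈ C} (0 + i) k :=
      Finset.sum_congr rfl fun n _ => by
        rw [← ind_mul C C (fun n => m + (n + h)) (fun n => m + n) (0 + i + n)]
        congr 2 <;> ring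
    have e3 := cnt_shift' {n | m + (n + h) ∈ C ∧ m + n ∈ C} 0 i k
    have e4 : (i : ℝ) ≤ H := by exact_mod_cast hi.le
    linarith
  have key2 : ∀ i ∈ range H, ∀ j ∈ range H,
      ∑ n ∈ range k, ind C (m + (n + i)) * ind C (m + (n + j)) ≤ γ (Nat.dist i j) + H := by
    intro i hi j hj
    rcases le_total i j with hij | hij
    · obtain ⟨h, rfl⟩ := Nat.exists_eq_add_of_le hij
      have : Nat.dist i (i + h) = h := by simp [Nat.dist]
      rw [this]
      refine le_trans (le_of_eq (Finset.sum_congr rfl fun n _ => mul_comm _ _)) (key i h (mem_range.1 hi))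
    · obtain ⟨h, rfl⟩ := Nat.exists_eq_add_of_le hij
      have : Nat.dist (j + h) j = h := by simp [Nat.dist]
      rw [this]
      exact key j h (mem_range.1 hj)
  have cs := sq_sum_le_card_mul_sum_sq (s := range k) (f := fun n => ∑ i ∈ range H, ind C (m + (n + i)))
  rw [card_range] at cs
  have lo : δ / 2 * k * H ≤ ∑ n ∈ range k, ∑ i ∈ range H, ind C (m + (n + i)) := by
    rw [Finset.sum_comm]
    calc δ / 2 * k * H = ∑ _i ∈ range H, δ / 2 * k := by simp [mul_comm]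
      _ ≤ _ := Finset.sum_le_sum fun i hi => by
        have e1 := cnt_shift C m i k
        have e2 : ∑ n ∈ range k, ind C (m + (n + i)) = wct C (m + i) k :=
          Finset.sum_congr rfl fun j _ => by congr 1; ring
        have e3 : (i : ℝ) ≤ H := by exact_mod_cast (mem_range.1 hi).le
        linarith
  have up : ∑ n ∈ range k, (∑ i ∈ range H, ind C (m + (n + i))) ^ 2 ≤
      H * (2 * ∑ h ∈ range H, γ h + H * H) := by
    simp only [sq, Finset.sum_mul_sum]
    rw [Finset.sum_comm]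
    calc _ ≤ ∑ _i ∈ range H, (2 * ∑ h ∈ range H, γ h + H * H) := Finset.sum_le_sum fun i hi => by
          rw [Finset.sum_comm]
          refine le_trans (Finset.sum_le_sum (key2 i hi)) ?_
          rw [Finset.sum_add_distrib]
          have := sum_dist_le γ hγ0 (mem_range.1 hi)
          simp only [sum_const, card_range, nsmul_eq_mul]
          linarith
      _ = _ := by rw [Finset.sum_const, card_range, nsmul_eq_mul]
  have sq1 : (δ / 2 * k * H) ^ 2 ≤ k * (H * (2 * ∑ h ∈ range H, γ h + H * H)) :=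
    le_trans (pow_le_pow_left₀ (by positivity) lo 2) (cs.trans (mul_le_mul_of_nonneg_left up hk'.le))
  rw [← Finset.sum_div, le_div_iff₀ hk']
  have e : (δ / 2 * k * H) ^ 2 = k * (H * (δ ^ 2 / 4 * k * H)) := by ring
  rw [e] at sq1
  have e2 := le_of_mul_le_mul_left (le_of_mul_le_mul_left sq1 hk') hH'
  change _ ≤ ∑ h ∈ range H, γ h
  nlinarith

end Pool.Agent.H963Z
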