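import Pool.Agent.H963Z.RR1
import Pool.Agent.H591Z.Haar
import Pool.Agent.H399Z.CorrDecomp

/-! Bohr compactification and return sets. -/

set_option autoImplicit false
set_option linter.unusedSectionVars false

namespace Pool.Agent.H963Z

open Filter Topology Finset

section Grp

variable {K : Type} [AddCommGroup K] [TopologicalSpace K] [IsTopologicalAddGroup K] [CompactSpace K] [T2Space K]

lemma neg_mem_of_closed {G : Set K} (hG : IsClosed G) (hadd : ∀ a ∈ G, ∀ b ∈ G, a + b ∈ G) {g : K}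
    (hg : g ∈ G) : -g ∈ G := by
  obtain ⟨m, ⟨a, ha, rfl⟩, hm⟩ := exists_idempotent_in_compact_add_subsemigroup
    (fun r : K => continuous_add_const r) ((fun a => g + a) '' G) ⟨_, g, hg, rfl⟩
    (hG.isCompact.image (continuous_const_add g)) (by
      rintro _ ⟨a, ha, rfl⟩ _ ⟨b, hb, rfl⟩
      exact ⟨a + g + b, hadd _ (hadd a ha g hg) b hb, by simp only; abel⟩)
  simp only [add_eq_left] at hm
  rwa [neg_eq_of_add_eq_zero_right hm]

lemma small4 {B : Set K} (hB : B ∈ 𝓝 (0 : K)) : ∃ B' : Set K, IsOpen B' ∧ (0 : K) ∈ B' ∧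
    ∀ a ∈ closure B', ∀ b ∈ closure B', ∀ c ∈ closure B', ∀ d ∈ closure B', a - b + c + d ∈ B := by
  have hc : Continuous fun p : K × K × K × K => p.1 - p.2.1 + p.2.2.1 + p.2.2.2 := by fun_prop
  have h := hc.continuousAt (x := (0, 0, 0, 0)).preimage_mem_nhds (t := B) (by simpa using hB)
  rw [mem_nhds_prod_iff] at h
  obtain ⟨u₁, h1, v, hv, h⟩ := h
  rw [mem_nhds_prod_iff] at hv
  obtain ⟨u₂, h2, v', hv', h'⟩ := hv
  rw [mem_nhds_prod_iff] at hv'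
  obtain ⟨u₃, h3, u₄, h4, h''⟩ := hv'
  obtain ⟨C, hC, hCc, hCs⟩ := exists_mem_nhds_isClosed_subset
    (inter_mem (inter_mem h1 h2) (inter_mem h3 h4))
  have hs : closure (interior C) ⊆ (u₁ ∩ u₂) ∩ (u₃ ∩ u₄) :=
    (closure_minimal interior_subset hCc).trans hCs
  refine ⟨interior C, isOpen_interior, mem_interior_iff_mem_nhds.2 hC, fun a ha b hb c hc d hd => ?_⟩
  exact h (a := (a, b, c, d)) ⟨(hs ha).1.1, h' ⟨(hs hb).1.2, h'' ⟨(hs hc).2.1, (hs hd).2.2⟩⟩⟩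

variable (φ : ℕ →+ K)

lemma pos_open (hφ : DenseRange φ) {O : Set K} (hO : IsOpen O) (hne : O.Nonempty) : Pos {n | φ n ∈ O} := by
  obtain ⟨t, ht⟩ := isCompact_univ.elim_finite_subcover (fun j : ℕ => {κ : K | κ + φ j ∈ O})
    (fun j => hO.preimage (continuous_add_const _)) (fun κ _ => by
      obtain ⟨o, ho⟩ := hne
      obtain ⟨j, hj⟩ := hφ.exists_mem_open (s := {z | κ + z ∈ O}) (hO.preimage (continuous_const_add _))
        ⟨o - κ, by simpa using ho⟩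
      exact Set.mem_iUnion.2 ⟨j, hj⟩)
  obtain ⟨j, -, hj⟩ := Pos.biUnion (t := t) (A := fun j => {n | φ n + φ j ∈ O})
    (pos_univ.mono fun n _ => by simpa using ht (Set.mem_univ (φ n)))
  exact hj.shift j fun n hn => by simpa using hn

def Spec : Prop := ∀ (α β : ℕ → ℕ → ℝ), (∀ k n, |α k n| ≤ 1) → (∀ k n, |β k n| ≤ 1) → ∀ c : ℕ → ℝ,
  (∀ h, Tendsto (fun k : ℕ => (∑ n ∈ range k, α k (n + h) * β k n) / (k : ℝ)) (hyperfilter ℕ) (𝓝 (c h))) →
  ∃ ψ : K → ℝ, Continuous ψ ∧ ∀ ε : ℝ, 0 < ε → Null {h | ε < |c h - ψ (φ h)|}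

lemma spec_cor (hS : Spec φ) (A B : Set ℕ) (m m' : ℕ → ℕ) {δ : ℝ} (hδ : 0 < δ)
    (h : ∀ H : ℕ, ∀ᶠ k in atTop, δ * H ≤
      ∑ h ∈ range H, (∑ n ∈ range k, ind A (m k + (n + h)) * ind B (m' k + n)) / (k : ℝ)) :
    ∃ O : Set K, IsOpen O ∧ O.Nonempty ∧ ∃ Z, Null Z ∧ ∀ h, φ h ∈ O → h ∉ Z →
      ∀ᶠ k in (hyperfilter ℕ : Filter ℕ), δ / 4 * k < wct {n | m k + (n + h) ∈ A ∧ m' k + n ∈ B} 0 k := by
  have hb : ∀ h k : ℕ, (∑ n ∈ range k, ind A (m k + (n + h)) * ind B (m' k + n)) / (k : ℝ) =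
      wct {n | m k + (n + h) ∈ A ∧ m' k + n ∈ B} 0 k / k := by
    intro h k
    congr 1
    exact Finset.sum_congr rfl fun n _ => by
      rw [zero_add]; exact ind_mul A B (fun n => m k + (n + h)) (fun n => m' k + n) n
  have hex : ∀ h : ℕ, ∃ c ∈ Set.Icc (0 : ℝ) 1, Tendsto (fun k : ℕ =>
      (∑ n ∈ range k, ind A (m k + (n + h)) * ind B (m' k + n)) / (k : ℝ)) (hyperfilter ℕ) (𝓝 c) := by
    intro h
    refine isCompact_Icc.ultrafilter_le_nhds ((hyperfilter ℕ).map _) ?_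
    rw [Ultrafilter.coe_map, le_principal_iff, Filter.mem_map]
    refine univ_mem' fun k => ?_
    simp only [Set.mem_preimage, hb]
    exact ⟨div_nonneg (cnt_nonneg _ _ _) (Nat.cast_nonneg _), div_le_one_of_le₀ (cnt_le _ _ _) (Nat.cast_nonneg _)⟩
  choose c hc1 hc using hex
  obtain ⟨ψ, hψ, hZ⟩ := hS (fun k n => ind A (m k + n)) (fun k n => ind B (m' k + n))
    (fun _ _ => ind_abs _ _) (fun _ _ => ind_abs _ _) c hc
  have hsum : ∀ H : ℕ, δ * H ≤ ∑ h ∈ range H, c h := fun H =>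
    ge_of_tendsto (tendsto_finset_sum _ fun h _ => hc h) ((h H).filter_mono Nat.hyperfilter_le_atTop)
  have hP : Pos {h | 3 * δ / 4 < c h} := by
    refine ⟨δ / 4, by positivity, fun L => ⟨0, ?_⟩⟩
    have : ∑ h ∈ range L, c h ≤ ∑ h ∈ range L, (ind {h | 3 * δ / 4 < c h} (0 + h) + 3 * δ / 4) := by
      refine Finset.sum_le_sum fun h _ => ?_
      rw [zero_add]
      by_cases hh : 3 * δ / 4 < c h
      · rw [ind_mem (A := {h | 3 * δ / 4 < c h}) hh]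
        have := (hc1 h).2
        linarith
      · rw [ind_not (A := {h | 3 * δ / 4 < c h}) hh]
        linarith
    rw [Finset.sum_add_distrib, Finset.sum_const, card_range, nsmul_eq_mul] at this
    have := hsum L
    unfold wct
    linarith
  obtain ⟨h₀, h1, h2⟩ := (hP.diff (hZ (δ / 8) (by positivity))).nonempty
  simp only [Set.mem_setOf_eq, not_lt, abs_le] at h1 h2
  refine ⟨{κ | δ / 2 < ψ κ}, isOpen_lt continuous_const hψ, ⟨φ h₀, by simp only [Set.mem_setOf_eq]; linarith⟩,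
    _, hZ (δ / 8) (by positivity), fun h h3 h4 => ?_⟩
  simp only [Set.mem_setOf_eq, not_lt, abs_le] at h3 h4
  have h5 : δ / 4 < c h := by linarith
  filter_upwards [(hc h).eventually (lt_mem_nhds h5),
    (eventually_gt_atTop 0).filter_mono Nat.hyperfilter_le_atTop] with k hk hk0
  rwa [hb, lt_div_iff₀ (by exact_mod_cast hk0)] at hk

lemma folner (hS : Spec φ) {C : Set ℕ} (hC : Pos C) :
    ∃ O : Set K, IsOpen O ∧ O.Nonempty ∧ ∃ Z, Null Z ∧ ∀ h, φ h ∈ O → h ∉ Z → ∃ u ∈ C, u + h ∈ C := by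
  obtain ⟨δ, hδ, hC⟩ := hC
  choose m hm using hC
  obtain ⟨O, h1, h2, Z, h3, h4⟩ := spec_cor φ hS C C m m (δ := δ ^ 2 / 16) (by positivity) (fun H => by
    obtain ⟨M, hM⟩ := exists_nat_ge (max (2 * H / δ) (8 * H / δ ^ 2))
    have hM1 := (div_le_iff₀ hδ).1 (le_trans (le_max_left _ _) hM)
    have hM2 := (div_le_iff₀ (pow_pos hδ 2)).1 (le_trans (le_max_right _ _) hM)
    filter_upwards [eventually_ge_atTop M, eventually_gt_atTop 0] with k hk hk0
    have : (M : ℝ) ≤ k := by exact_mod_cast hk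
    exact auto_bound C (m k) k H hδ (hm k) hk0 (by nlinarith) (by nlinarith [pow_pos hδ 2]))
  refine ⟨O, h1, h2, Z, h3, fun h hh hz => ?_⟩
  obtain ⟨k, hk⟩ := (h4 h hh hz).exists
  by_contra hn
  push Not at hn
  have : wct {n | m k + (n + h) ∈ C ∧ m k + n ∈ C} 0 k = 0 :=
    Finset.sum_eq_zero fun n _ => ind_not fun hh => hn _ hh.2 (by rw [add_assoc]; exact hh.1)
  rw [this] at hk
  have : 0 ≤ δ ^ 2 / 16 / 4 * k := by positivity
  linarith

variable {X : Type} [TopologicalSpace X] {T : X → X}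

def Nn (T : X → X) (x : X) (U : Set X) : Set ℕ := {n | T^[n] x ∈ U}

def RR (T : X → X) (x : X) : Prop := ∀ U ∈ 𝓝 x, Pos (Nn T x U)

def Gx (T : X → X) (x : X) : Set K := ⋂ U : {U // U ∈ 𝓝 x}, closure (φ '' Nn T x U)

lemma Gx_add (hT : Continuous T) {x : X} {g : K} (hg : g ∈ Gx φ T x) {U : Set X} (hU : IsOpen U) {κ : K}
    (hκ : κ ∈ closure (φ '' Nn T x U)) : κ + g ∈ closure (φ '' Nn T x U) := by
  rw [← closure_closure (s := φ '' Nn T x U)]
  refine map_mem_closure (f := fun κ => κ + g) (continuous_add_const g) hκ ?_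
  rintro _ ⟨t, ht, rfl⟩
  have h1 := Set.mem_iInter.1 hg ⟨T^[t] ⁻¹' U, (hU.preimage (hT.iterate t)).mem_nhds ht⟩
  refine map_mem_closure (f := fun κ => φ t + κ) (continuous_const_add _) h1 ?_
  rintro _ ⟨t', ht', rfl⟩
  refine ⟨t + t', ?_, map_add _ _ _⟩
  simp only [Nn, Set.mem_setOf_eq, Function.iterate_add_apply]
  exact ht'

lemma Gx_neg (hT : Continuous T) {x : X} {g : K} (hg : g ∈ Gx φ T x) : -g ∈ Gx φ T x := by
  refine neg_mem_of_closed (isClosed_iInter fun _ => isClosed_closure) (fun a ha b hb => ?_) hg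
  refine Set.mem_iInter.2 fun U => ?_
  have := Gx_add φ hT hb isOpen_interior (Set.mem_iInter.1 ha ⟨interior U.1, interior_mem_nhds.2 U.2⟩)
  have hs : Nn T x (interior U.1) ⊆ Nn T x U.1 := fun n hn => interior_subset (s := U.1) hn
  exact closure_mono (Set.image_mono hs) this

lemma Gx_near (x : X) {B : Set K} (hB : IsOpen B) (h0 : (0 : K) ∈ B) :
    ∃ U ∈ 𝓝 x, ∀ t ∈ Nn T x U, ∃ g ∈ Gx φ T x, φ t - g ∈ B := by
  have : Nonempty {U // U ∈ 𝓝 x} := ⟨⟨Set.univ, univ_mem⟩⟩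
  obtain ⟨U, hU⟩ := exists_subset_nhds_of_compactSpace (V := fun U : {U // U ∈ 𝓝 x} => closure (φ '' Nn T x U))
    (fun U V => ⟨⟨U.1 ∩ V.1, inter_mem U.2 V.2⟩, closure_mono (Set.image_mono fun _ h => h.1),
      closure_mono (Set.image_mono fun _ h => h.2)⟩) (fun _ => isClosed_closure)
    (U := {κ | ∃ g ∈ Gx φ T x, κ - g ∈ B}) (by
      intro g hg
      refine mem_of_superset ((hB.preimage (continuous_sub_right g)).mem_nhds (by simpa using h0)) ?_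
      exact fun κ hκ => ⟨g, hg, hκ⟩)
  exact ⟨U.1, U.2, fun t ht => hU (subset_closure ⟨t, ht, rfl⟩)⟩

lemma lemL (hT : Continuous T) (x : X) {B : Set K} (hB : IsOpen B) (h0 : (0 : K) ∈ B) :
    ∃ U ∈ 𝓝 x, ∀ U₃, IsOpen U₃ → U₃ ⊆ U → (Nn T x U₃).Nonempty → ∃ t ∈ Nn T x U₃, φ t ∈ B := by
  obtain ⟨U, hU, h⟩ := Gx_near φ (T := T) x hB h0
  refine ⟨U, hU, fun U₃ h3 hs ⟨t, ht⟩ => ?_⟩
  obtain ⟨g, hg, hg'⟩ := h t (hs ht)
  have := Gx_add φ hT (Gx_neg φ hT hg) h3 (subset_closure ⟨t, ht, rfl⟩)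
  rw [← sub_eq_add_neg] at this
  obtain ⟨_, h1, t', h2, rfl⟩ := mem_closure_iff.1 this B hB hg'
  exact ⟨t', h2, h1⟩

lemma lemL2 (hT : Continuous T) {x : X} (hx : RR T x) {U : Set X} (hU : IsOpen U) {O : Set K} (hO : IsOpen O)
    {t : ℕ} (ht : t ∈ Nn T x U) (hto : φ t ∈ O) : Pos {n | n ∈ Nn T x U ∧ φ n ∈ O} := by
  obtain ⟨B, hB, h0, h4⟩ := small4 (B := {κ | φ t + κ ∈ O})
    ((hO.preimage (continuous_const_add _)).mem_nhds (by simpa using hto))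
  obtain ⟨U₂, hU₂, hG⟩ := Gx_near φ (T := T) x hB h0
  have hU' : IsOpen (T^[t] ⁻¹' U) := hU.preimage (hT.iterate t)
  have hC := hx _ (inter_mem (hU'.mem_nhds ht) hU₂)
  obtain ⟨s, hs⟩ := isCompact_univ.elim_finite_subcover (fun κ : K => {z : K | z - κ ∈ B})
    (fun κ => hB.preimage (continuous_sub_right κ)) (fun κ _ => Set.mem_iUnion.2 ⟨κ, by simpa using h0⟩)
  obtain ⟨κ, -, hκ⟩ := Pos.biUnion (t := s) (A := fun κ => {n | n ∈ Nn T x (T^[t] ⁻¹' U ∩ U₂) ∧ φ n - κ ∈ B})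
    (hC.mono fun n hn => by
      obtain ⟨κ, h1, h2⟩ := Set.mem_iUnion₂.1 (hs (Set.mem_univ (φ n)))
      exact Set.mem_iUnion₂.2 ⟨κ, h1, hn, h2⟩)
  obtain ⟨n₀, hn₀, hn₀'⟩ := hκ.nonempty
  obtain ⟨g, hg, hg'⟩ := hG n₀ hn₀.2
  obtain ⟨δ, hδ, hκ⟩ := hκ
  refine ⟨δ, hδ, fun L => ?_⟩
  obtain ⟨m, hm⟩ := hκ L
  have hV : {z | ∀ n ∈ range L, m + n ∈ Nn T x (T^[t] ⁻¹' U) → T^[m + n] z ∈ T^[t] ⁻¹' U} ∈ 𝓝 x := by
    refine (eventually_all_finset _).2 fun n _ => ?_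
    by_cases hn : m + n ∈ Nn T x (T^[t] ⁻¹' U)
    · filter_upwards [(hU'.preimage (hT.iterate (m + n))).mem_nhds hn] with z hz _ using hz
    · exact Eventually.of_forall fun z h => absurd h hn
  obtain ⟨_, h1, u, h2, rfl⟩ := mem_closure_iff.1 (Set.mem_iInter.1 (Gx_neg φ hT hg) ⟨_, hV⟩)
    {z | z + g ∈ B} (hB.preimage (continuous_add_const g)) (by simpa using h0)
  refine ⟨m + u + t, hm.trans (cnt_mono fun n hn h => ⟨?_, ?_⟩)⟩
  · have := h2 n (mem_range.2 hn) h.1.1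
    simp only [Nn, Set.mem_setOf_eq, Set.mem_preimage, ← Function.iterate_add_apply] at this ⊢
    rwa [show m + u + t + n = t + (m + n + u) by ring]
  · have := h4 _ (subset_closure h.2) _ (subset_closure hn₀') _ (subset_closure hg') _ (subset_closure h1)
    simp only [Set.mem_setOf_eq] at this
    convert this using 1
    simp only [map_add]
    abel

lemma sub_mem_clD (hT : Continuous T) {x : X} (hx : RR T x) {U W : Set X} (hW : IsOpen W) {a b : K}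
    (ha : a ∈ closure (φ '' Nn T x U)) (hb : b ∈ closure (φ '' Nn T x W)) :
    b - a ∈ closure (φ '' {d | ∃ r ∈ Nn T x U, r + d ∈ Nn T x W}) := by
  rw [← closure_closure]
  refine map_mem_closure₂ (f := fun b a : K => b - a) continuous_sub hb ha ?_
  rintro _ ⟨p, hp, rfl⟩ _ ⟨r, hr, rfl⟩
  rw [mem_closure_iff]
  intro O hO hmem
  obtain ⟨d, h1, h2⟩ := ((lemL2 φ hT hx hW (O := {z | z - φ r ∈ O}) (hO.preimage (continuous_sub_right _))
    hp hmem).back r).nonempty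
  refine ⟨φ d, ?_, d, ⟨r, hr, h1⟩, rfl⟩
  simpa using h2

end Grp

end Pool.Agent.H963Z
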