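import Pool.Agent.H963Z.RR2

/-! Simultaneous visits of two reiteratively recurrent orbits. -/

set_option autoImplicit false
set_option linter.unusedSectionVars false

namespace Pool.Agent.H963Z

open Filter Topology Finset

section Grp

variable {K : Type} [AddCommGroup K] [TopologicalSpace K] [IsTopologicalAddGroup K] [CompactSpace K] [T2Space K]
variable (φ : ℕ →+ K)

structure Large (Lg : Set K → Prop) : Prop where
  ne : ∀ E, Lg E → E.Nonempty
  mono : ∀ E E', E ⊆ E' → Lg E → Lg E'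
  pos : ∀ A, Pos A → Lg (closure (φ '' A))
  op : ∀ E E', IsClosed E → IsClosed E' → IsOpen {κ | Lg (E ∩ {z | z - κ ∈ E'})}
  ex : ∀ E E', IsClosed E → IsClosed E' → Lg E → Lg E' → ∃ κ, Lg (E ∩ {z | z - κ ∈ E'})

lemma exists_Large (hφ : DenseRange φ) : ∃ Lg, Large φ Lg := by
  obtain ⟨Lg, h1, h2, -, h4, h5, h6⟩ := H591Z.Haar.exists_large φ hφ
  refine ⟨Lg, h1, h2, fun A ⟨δ, hδ, h⟩ => h4 A δ hδ ?_, h5, h6⟩
  simpa only [cnt_eq] using h

variable {X Y : Type} [TopologicalSpace X] [TopologicalSpace Y] {T : X → X} {S : Y → Y} {x : X} {y : Y}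
variable {Lg : Set K → Prop}

def Om (Lg : Set K → Prop) (T : X → X) (S : Y → Y) (x : X) (y : Y) (U : Set X) (V : Set Y) : Set K :=
  {κ | Lg (closure (φ '' Nn T x U) ∩ {z | z - κ ∈ closure (φ '' Nn S y V)})}

lemma Om_open (hL : Large φ Lg) (U : Set X) (V : Set Y) : IsOpen (Om φ Lg T S x y U V) :=
  hL.op _ _ isClosed_closure isClosed_closure

lemma Om_near (hL : Large φ Lg) (hT : Continuous T) (hS : Continuous S) (hx : RR T x) (hy : RR S y)
    {U : Set X} {V : Set Y} (hU : IsOpen U) (hV : IsOpen V) {r q : ℕ} (hr : r ∈ Nn T x U) (hq : q ∈ Nn S y V)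
    {O : Set K} (hO : IsOpen O) (h : φ r - φ q ∈ O) : ∃ κ ∈ O, κ ∈ Om φ Lg T S x y U V := by
  obtain ⟨B, hB, h0, h4⟩ := small4 (B := {κ | φ r - φ q + κ ∈ O})
    ((hO.preimage (continuous_const_add _)).mem_nhds (by simpa using h))
  have h1 := hL.pos _ (lemL2 φ hT hx hU (O := {z | z - φ r ∈ B}) (hB.preimage (continuous_sub_right _)) hr
    (by simpa using h0))
  have h2 := hL.pos _ (lemL2 φ hS hy hV (O := {z | z - φ q ∈ B}) (hB.preimage (continuous_sub_right _)) hq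
    (by simpa using h0))
  obtain ⟨κ, hκ⟩ := hL.ex _ _ isClosed_closure isClosed_closure h1 h2
  refine ⟨κ, ?_, hL.mono _ _ (Set.inter_subset_inter (closure_mono (Set.image_mono fun _ h => h.1))
    fun z hz => closure_mono (Set.image_mono fun _ h => h.1) hz) hκ⟩
  obtain ⟨z, hz1, hz2⟩ := hL.ne _ hκ
  have e1 : z - φ r ∈ closure B :=
    map_mem_closure (f := fun z => z - φ r) (continuous_sub_right _) hz1 (by rintro _ ⟨n, hn, rfl⟩; exact hn.2)
  have e2 : z - κ - φ q ∈ closure B :=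
    map_mem_closure (f := fun z => z - φ q) (continuous_sub_right _) hz2 (by rintro _ ⟨n, hn, rfl⟩; exact hn.2)
  have := h4 _ e1 _ e2 _ (subset_closure h0) _ (subset_closure h0)
  simp only [Set.mem_setOf_eq] at this
  convert this using 1
  abel

lemma meet (hφ : DenseRange φ) (hSp : Spec φ) (hL : Large φ Lg) (hT : Continuous T) (hS : Continuous S)
    (hx : RR T x) (hy : RR S y) {U W : Set X} {V W' : Set Y} (hU : IsOpen U) (hW : IsOpen W)
    (hW' : IsOpen W') {κ : K} (h1 : κ ∈ Om φ Lg T S x y U V) (h2 : κ ∈ Om φ Lg T S x y W W') :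
    ∃ r q d, r ∈ Nn T x U ∧ r + d ∈ Nn T x W ∧ q ∈ Nn S y V ∧ q + d ∈ Nn S y W' := by
  have hc : ∀ (E E' : Set K), IsClosed (closure E ∩ {z | z - κ ∈ closure E'}) := fun E E' =>
    isClosed_closure.inter (isClosed_closure.preimage (continuous_sub_right κ))
  obtain ⟨l₀, hl₀⟩ := hL.ex _ _ (hc _ _) (hc _ _) h2 h1
  set Ω : Set K := {l | Lg ((closure (φ '' Nn T x W) ∩ {z | z - κ ∈ closure (φ '' Nn S y W')}) ∩
    {z | z - l ∈ closure (φ '' Nn T x U) ∩ {z | z - κ ∈ closure (φ '' Nn S y V)}})} with hΩ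
  have hΩo : IsOpen Ω := hL.op _ _ (hc _ _) (hc _ _)
  have hΩ1 : Ω ⊆ closure (φ '' {d | ∃ r ∈ Nn T x U, r + d ∈ Nn T x W}) := by
    intro l hl
    obtain ⟨z, ⟨e1, -⟩, e2, -⟩ := hL.ne _ hl
    simpa using sub_mem_clD φ hT hx hW e2 e1
  have hΩ2 : Ω ⊆ closure (φ '' {d | ∃ r ∈ Nn S y V, r + d ∈ Nn S y W'}) := by
    intro l hl
    obtain ⟨z, ⟨-, e1⟩, -, e2⟩ := hL.ne _ hl
    simpa using sub_mem_clD φ hS hy hW' e2 e1
  obtain ⟨_, hd₁, d₁, ⟨r, hr, hrd⟩, rfl⟩ := mem_closure_iff.1 (hΩ1 hl₀) Ω hΩo hl₀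
  obtain ⟨B, hB, h0, h4⟩ := small4 (B := {κ | φ d₁ + κ ∈ Ω})
    ((hΩo.preimage (continuous_const_add _)).mem_nhds (by simpa using hd₁))
  have hC := lemL2 φ hT hx (U := T^[r] ⁻¹' U ∩ T^[r + d₁] ⁻¹' W)
    ((hU.preimage (hT.iterate _)).inter (hW.preimage (hT.iterate _))) hB (t := 0) ⟨hr, hrd⟩ (by simpa using h0)
  obtain ⟨O, hO, hOne, Z, hZ, hOZ⟩ := folner φ hSp hC
  obtain ⟨h₁, e1, e2⟩ := ((pos_open φ hφ hO hOne).diff hZ).nonempty
  obtain ⟨u₁, e3, e4⟩ := hOZ h₁ e1 e2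
  have e5 : φ d₁ + φ h₁ ∈ Ω := by
    have := h4 _ (subset_closure e4.2) _ (subset_closure e3.2) _ (subset_closure h0) _ (subset_closure h0)
    simpa using this
  have hO' : IsOpen {κ | κ - φ d₁ ∈ O} := hO.preimage (continuous_sub_right _)
  obtain ⟨_, hd₂, d₂, ⟨q, hq, hqd⟩, rfl⟩ := mem_closure_iff.1 (hΩ2 e5) _ hO' (by simpa using e1)
  have hP := lemL2 φ hS hy hW' (O := {z | z - φ q - φ d₁ ∈ O})
    (hO.preimage ((continuous_sub_right _).comp (continuous_sub_right _))) hqd (by simpa using hd₂)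
  obtain ⟨h, ⟨e6, e7⟩, e8⟩ := (((hP.back q).back d₁).diff hZ).nonempty
  obtain ⟨u, e9, e10⟩ := hOZ h (by simpa using e7) e8
  refine ⟨r + u, q, d₁ + h, ?_, ?_, hq, e6⟩
  · simp only [Nn, Set.mem_setOf_eq, Function.iterate_add_apply]
    exact e9.1.1
  · have := e10.1.2
    simp only [Nn, Set.mem_setOf_eq, Set.mem_preimage, ← Function.iterate_add_apply] at this ⊢
    rwa [show r + u + (d₁ + h) = r + d₁ + (u + h) by ring]

lemma pos_Nn (hT : Continuous T) (hx : RR T x) (hd : DenseRange fun n => T^[n] x) {U : Set X} (hU : IsOpen U)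
    (hne : U.Nonempty) : Pos (Nn T x U) := by
  obtain ⟨a, ha⟩ := hd.exists_mem_open hU hne
  refine (hx _ ((hU.preimage (hT.iterate a)).mem_nhds ha)).shift a fun n hn => ?_
  simp only [Nn, Set.mem_setOf_eq]
  rw [add_comm, Function.iterate_add_apply]
  exact hn

lemma star (hφ : DenseRange φ) (hSp : Spec φ) (hT : Continuous T) (hS : Continuous S)
    (hx : RR T x) (hy : RR S y) (hdx : DenseRange fun n => T^[n] x) (hdy : DenseRange fun n => S^[n] y)
    {U' : Set X} {V' : Set Y} (hU' : IsOpen U') (hV' : IsOpen V') (hUn : U'.Nonempty) (hVn : V'.Nonempty) :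
    ∃ δ : ℝ, 0 < δ ∧ ∃ (U₂ : Set X) (V₂ : Set Y), IsOpen U₂ ∧ IsOpen V₂ ∧ U₂.Nonempty ∧ V₂.Nonempty ∧
      U₂ ⊆ U' ∧ V₂ ⊆ V' ∧ ∀ (U₃ : Set X) (V₃ : Set Y), IsOpen U₃ → IsOpen V₃ → U₃.Nonempty → V₃.Nonempty →
        U₃ ⊆ U₂ → V₃ ⊆ V₂ → ∀ L : ℕ, ∃ a ∈ U₃, ∃ b ∈ V₃, ∃ d,
          δ * L ≤ wct {n | T^[n] a ∈ U' ∧ S^[n] b ∈ V'} d L := by
  obtain ⟨Lg, hL⟩ := exists_Large φ hφ
  obtain ⟨δ, hδ, hw⟩ := cross_windows (pos_Nn hT hx hdx hU' hUn) (pos_Nn hS hy hdy hV' hVn)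
  choose m m' hm using hw
  obtain ⟨O, hO, hOn, Z, hZ, hOZ⟩ := spec_cor φ hSp _ _ m m' hδ
    (fun H => by filter_upwards [eventually_ge_atTop H] with k hk using hm k H hk)
  obtain ⟨μ, -, hμ⟩ := isCompact_univ.ultrafilter_le_nhds ((hyperfilter ℕ).map fun k => φ (m k) - φ (m' k))
    (by simp)
  have hμ' : Tendsto (fun k => φ (m k) - φ (m' k)) (hyperfilter ℕ) (𝓝 μ) := hμ
  obtain ⟨h₀, e1, e2⟩ := ((pos_open φ hφ hO hOn).diff hZ).nonempty
  obtain ⟨B, hB, h0, h4⟩ := small4 (B := {κ | φ h₀ + κ ∈ O})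
    ((hO.preimage (continuous_const_add _)).mem_nhds (by simpa using e1))
  obtain ⟨k₀, hk1, hk2⟩ := ((hOZ h₀ e1 e2).and (hμ'.eventually
    ((hB.preimage (continuous_sub_right μ)).mem_nhds (by simpa using h0)))).exists
  obtain ⟨n₀, hn1, hn2⟩ : ∃ n, m k₀ + (n + h₀) ∈ Nn T x U' ∧ m' k₀ + n ∈ Nn S y V' := by
    by_contra hn
    have : wct {n | m k₀ + (n + h₀) ∈ Nn T x U' ∧ m' k₀ + n ∈ Nn S y V'} 0 k₀ = 0 :=
      Finset.sum_eq_zero fun n _ => ind_not fun hh => hn ⟨_, hh⟩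
    rw [this] at hk1
    have : 0 ≤ δ / 4 * k₀ := by positivity
    linarith
  obtain ⟨U₂, hU₂, hLx⟩ := lemL φ hT (T^[m k₀ + (n₀ + h₀)] x) hB h0
  obtain ⟨V₂, hV₂, hLy⟩ := lemL φ hS (S^[m' k₀ + n₀] y) hB h0
  refine ⟨δ / 8, by positivity, interior U₂ ∩ U', interior V₂ ∩ V', isOpen_interior.inter hU',
    isOpen_interior.inter hV', ⟨_, mem_interior_iff_mem_nhds.2 hU₂, hn1⟩,
    ⟨_, mem_interior_iff_mem_nhds.2 hV₂, hn2⟩, Set.inter_subset_right, Set.inter_subset_right,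
    fun U₃ V₃ hU₃ hV₃ hUn₃ hVn₃ hs hs' L => ?_⟩
  rcases Nat.eq_zero_or_pos L with rfl | hLp
  · obtain ⟨a, ha⟩ := hUn₃
    obtain ⟨b, hb⟩ := hVn₃
    exact ⟨a, ha, b, hb, 0, by simp [wct]⟩
  obtain ⟨t, ht, ht'⟩ := hLx U₃ hU₃ (fun z hz => interior_subset (hs hz).1) (by
    obtain ⟨n, hn⟩ := ((pos_Nn hT hx hdx hU₃ hUn₃).back (m k₀ + (n₀ + h₀))).nonempty
    refine ⟨n, ?_⟩
    simp only [Nn, Set.mem_setOf_eq, ← Function.iterate_add_apply] at hn ⊢
    rwa [add_comm n])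
  obtain ⟨t', hu, hu'⟩ := hLy V₃ hV₃ (fun z hz => interior_subset (hs' hz).1) (by
    obtain ⟨n, hn⟩ := ((pos_Nn hS hy hdy hV₃ hVn₃).back (m' k₀ + n₀)).nonempty
    refine ⟨n, ?_⟩
    simp only [Nn, Set.mem_setOf_eq, ← Function.iterate_add_apply] at hn ⊢
    rwa [add_comm n])
  have hr : t + (m k₀ + (n₀ + h₀)) ∈ Nn T x U₃ := by
    simp only [Nn, Set.mem_setOf_eq, ← Function.iterate_add_apply] at ht ⊢
    exact ht
  have hq : t' + (m' k₀ + n₀) ∈ Nn S y V₃ := by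
    simp only [Nn, Set.mem_setOf_eq, ← Function.iterate_add_apply] at hu ⊢
    exact hu
  obtain ⟨κ, hκ1, hκ2⟩ := Om_near φ hL hT hS hx hy hU₃ hV₃ hr hq (O := {κ | κ - μ ∈ O})
    (hO.preimage (continuous_sub_right μ)) (by
      have := h4 _ (subset_closure ht') _ (subset_closure hu') _ (subset_closure hk2) _ (subset_closure h0)
      simp only [Set.mem_setOf_eq] at this ⊢
      convert this using 1
      simp only [map_add]
      abel)
  have hΩ := Om_open φ (T := T) (S := S) (x := x) (y := y) hL U₃ V₃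
  obtain ⟨h, ⟨f1, f2⟩, f3⟩ := ((pos_open φ hφ (O := O ∩ {z | μ + z ∈ Om φ Lg T S x y U₃ V₃})
    (hO.inter (hΩ.preimage (continuous_const_add μ))) ⟨κ - μ, hκ1, by simpa using hκ2⟩).diff hZ).nonempty
  obtain ⟨M, hM⟩ := exists_nat_ge (8 * L / δ)
  obtain ⟨k, ⟨g1, g2⟩, g3⟩ := (((hOZ h f1 f3).and (hμ'.eventually
    ((hΩ.preimage (continuous_add_const (φ h))).mem_nhds f2))).and
    ((eventually_ge_atTop M).filter_mono Nat.hyperfilter_le_atTop)).exists
  set I : Set ℕ := {n | m k + (n + h) ∈ Nn T x U' ∧ m' k + n ∈ Nn S y V'} with hI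
  obtain ⟨j, hj⟩ : ∃ j, δ / 8 * L ≤ wct I j L := by
    by_contra hn
    push Not at hn
    have := cnt_block (δ := δ / 8) (by positivity) hLp (fun j => (hn j).le) k 0
    have : (M : ℝ) ≤ k := by exact_mod_cast g3
    rw [div_le_iff₀ hδ] at hM
    nlinarith
  have hWo : IsOpen (⋂ n ∈ {n | n < L ∧ j + n ∈ I}, T^[n] ⁻¹' U') :=
    ((Set.finite_lt_nat L).subset fun _ h => h.1).isOpen_biInter fun n _ => hU'.preimage (hT.iterate n)
  have hWo' : IsOpen (⋂ n ∈ {n | n < L ∧ j + n ∈ I}, S^[n] ⁻¹' V') :=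
    ((Set.finite_lt_nat L).subset fun _ h => h.1).isOpen_biInter fun n _ => hV'.preimage (hS.iterate n)
  obtain ⟨κ', hκ3, hκ4⟩ := Om_near φ hL hT hS hx hy hWo hWo' (r := m k + (j + h)) (q := m' k + j) (by
      refine Set.mem_iInter₂.2 fun n hn => ?_
      have := hn.2.1
      simp only [Nn, Set.mem_setOf_eq, Set.mem_preimage, ← Function.iterate_add_apply] at this ⊢
      rwa [show n + (m k + (j + h)) = m k + (j + n + h) by ring]) (by
      refine Set.mem_iInter₂.2 fun n hn => ?_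
      have := hn.2.2
      simp only [Nn, Set.mem_setOf_eq, Set.mem_preimage, ← Function.iterate_add_apply] at this ⊢
      rwa [show n + (m' k + j) = m' k + (j + n) by ring]) hΩ (by
      simp only [Set.mem_preimage] at g2
      convert g2 using 1
      simp only [map_add]
      abel)
  obtain ⟨r, q, d, i1, i2, i3, i4⟩ := meet φ hφ hSp hL hT hS hx hy hU₃ hWo hWo' hκ3 hκ4
  refine ⟨_, i1, _, i3, d, hj.trans (cnt_mono fun n hn hn' => ⟨?_, ?_⟩)⟩
  · have := Set.mem_iInter₂.1 i2 n ⟨hn, hn'⟩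
    simp only [Set.mem_preimage, ← Function.iterate_add_apply] at this ⊢
    rwa [show d + n + r = n + (r + d) by ring]
  · have := Set.mem_iInter₂.1 i4 n ⟨hn, hn'⟩
    simp only [Set.mem_preimage, ← Function.iterate_add_apply] at this ⊢
    rwa [show d + n + q = n + (q + d) by ring]

end Grp

/-- the orbit map in the product of circles -/
noncomputable def ph0 : ℕ →+ (UnitAddCircle → UnitAddCircle) where
  toFun n := fun θ => n • θ
  map_zero' := by funext θ; simp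
  map_add' a b := by funext θ; simp [add_smul]

lemma cl_add : ∀ a ∈ closure (Set.range ph0), ∀ b ∈ closure (Set.range ph0), a + b ∈ closure (Set.range ph0) := by
  intro a ha b hb
  refine map_mem_closure₂ continuous_add ha hb ?_
  rintro _ ⟨n, rfl⟩ _ ⟨m, rfl⟩
  exact ⟨n + m, map_add _ _ _⟩

/-- the compact group -/
noncomputable def KK : AddSubgroup (UnitAddCircle → UnitAddCircle) where
  carrier := closure (Set.range ph0)
  add_mem' := fun ha hb => cl_add _ ha _ hb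
  zero_mem' := subset_closure ⟨0, map_zero _⟩
  neg_mem' := fun ha => neg_mem_of_closed isClosed_closure cl_add ha

instance : CompactSpace KK := isCompact_iff_compactSpace.1 (isClosed_closure (s := Set.range ph0)).isCompact

noncomputable def ph : ℕ →+ KK := ph0.codRestrict KK fun n => subset_closure ⟨n, rfl⟩

lemma ph_dense : DenseRange ph := by
  rw [DenseRange, Subtype.dense_iff]
  refine closure_mono ?_
  rintro _ ⟨n, rfl⟩
  exact ⟨ph n, ⟨n, rfl⟩, rfl⟩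

lemma ph_spec : Spec ph := by
  intro α β hα hβ c hc
  obtain ⟨ψ, hψ, h⟩ := H399Z.Corr.corr_decomp (hyperfilter ℕ) id Nat.hyperfilter_le_atTop α β hα hβ c hc
  refine ⟨fun κ => ψ κ.1, hψ.comp continuous_subtype_val, fun ε hε δ hδ => ?_⟩
  obtain ⟨H₀, hH⟩ := h ε hε δ hδ
  refine ⟨H₀, fun L hL m => ?_⟩
  rw [cnt_eq]
  exact hH L hL m

end Pool.Agent.H963Z
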