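import Pool.Agent.H963Z.RR3

/-! Products of reiteratively recurrent systems. -/

set_option autoImplicit false
set_option linter.unusedSectionVars false

namespace Pool.Agent.H963Z

open Filter Topology Finset

lemma RR.factor {X Y : Type} [TopologicalSpace X] [TopologicalSpace Y] {T : X → X} {S : Y → Y}
    {π : X → Y} (hπ : Continuous π) (h : Function.Semiconj π T S) {x : X} (hx : RR T x) : RR S (π x) := by
  intro U hU
  refine (hx (π ⁻¹' U) (hπ.continuousAt.preimage_mem_nhds hU)).mono fun n hn => ?_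
  simp only [Nn, Set.mem_setOf_eq]
  rw [← (h.iterate_right n).eq]
  exact hn

lemma open_cnt {Z : Type} [TopologicalSpace Z] {F : Z → Z} (hF : Continuous F) {W : Set Z} (hW : IsOpen W)
    (c : ℝ) (L : ℕ) : IsOpen {z | ∃ d, c ≤ wct (Nn F z W) d L} := by
  rw [isOpen_iff_mem_nhds]
  rintro z ⟨d, hd⟩
  have hV : ∀ᶠ z' in 𝓝 z, ∀ n ∈ range L, d + n ∈ Nn F z W → F^[d + n] z' ∈ W := by
    refine (eventually_all_finset _).2 fun n _ => ?_
    by_cases hn : d + n ∈ Nn F z W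
    · filter_upwards [(hW.preimage (hF.iterate (d + n))).mem_nhds hn] with z hz _ using hz
    · exact Eventually.of_forall fun z h => absurd h hn
  filter_upwards [hV] with z' hz'
  exact ⟨d, hd.trans (cnt_mono fun n hn h => hz' n (mem_range.2 hn) h)⟩

variable {X Y : Type} [MetricSpace X] [MetricSpace Y] [CompleteSpace X] [CompleteSpace Y]
  {T : X → X} {S : Y → Y} {x : X} {y : Y}

lemma rr_dense (hT : Continuous T) (hS : Continuous S) (hx : RR T x) (hy : RR S y)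
    (hdx : DenseRange fun n => T^[n] x) (hdy : DenseRange fun n => S^[n] y) :
    Dense {z : X × Y | RR (Prod.map T S) z ∧ x ∈ closure (Set.range fun n => T^[n] z.1)} := by
  have hF : Continuous (Prod.map T S) := hT.prodMap hS
  choose δ hδ U₂ V₂ o1 o2 n1 n2 s1 s2 hs using fun i : ℕ × ℕ × ℕ =>
    star ph ph_dense ph_spec hT hS hx hy hdx hdy
      (U' := Metric.ball (T^[i.1] x) (1 / ((i.2.2 : ℝ) + 1))) (V' := Metric.ball (S^[i.2.1] y) (1 / ((i.2.2 : ℝ) + 1)))
      Metric.isOpen_ball Metric.isOpen_ball (Metric.nonempty_ball.2 Nat.one_div_pos_of_nat)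
      (Metric.nonempty_ball.2 Nat.one_div_pos_of_nat)
  let W : ℕ × ℕ × ℕ → Set (X × Y) := fun i =>
    Metric.ball (T^[i.1] x) (1 / ((i.2.2 : ℝ) + 1)) ×ˢ Metric.ball (S^[i.2.1] y) (1 / ((i.2.2 : ℝ) + 1))
  let G₁ : (ℕ × ℕ × ℕ) × ℕ → Set (X × Y) := fun p =>
    {z | ∃ d, δ p.1 * p.2 ≤ wct (Nn (Prod.map T S) z (W p.1)) d p.2} ∪ (closure (U₂ p.1 ×ˢ V₂ p.1))ᶜ
  let G₂ : ℕ → Set (X × Y) := fun j => ⋃ i ∈ {i : ℕ × ℕ × ℕ | j ≤ i.2.2}, U₂ i ×ˢ V₂ i
  let G₃ : ℕ → Set (X × Y) := fun j => ⋃ n : ℕ, {z | T^[n] z.1 ∈ Metric.ball x (1 / ((j : ℝ) + 1))}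
  have d1 : Dense (⋂ p, G₁ p) := by
    refine dense_iInter_of_isOpen (fun p => (open_cnt hF (Metric.isOpen_ball.prod Metric.isOpen_ball) _ _).union
      isClosed_closure.isOpen_compl) fun p => ?_
    rw [dense_iff_inter_open]
    rintro O hO ⟨z, hz⟩
    by_cases hc : z ∈ closure (U₂ p.1 ×ˢ V₂ p.1)
    · obtain ⟨z', h1, h2⟩ := mem_closure_iff.1 hc O hO hz
      obtain ⟨u, v, hu, hv, h3, h4, h5⟩ := isOpen_prod_iff.1 (hO.inter ((o1 p.1).prod (o2 p.1))) z'.1 z'.2 ⟨h1, h2⟩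
      obtain ⟨a, ha, b, hb, d, hd⟩ := hs p.1 u v hu hv ⟨_, h3⟩ ⟨_, h4⟩
        (fun a ha => (h5 (Set.mk_mem_prod ha h4)).2.1) (fun b hb => (h5 (Set.mk_mem_prod h3 hb)).2.2) p.2
      refine ⟨(a, b), (h5 (Set.mk_mem_prod ha hb)).1, Or.inl ⟨d, hd.trans (cnt_mono fun n _ hn => ?_)⟩⟩
      simp only [Nn, Set.mem_setOf_eq, Prod.map_iterate]
      exact hn
    · exact ⟨z, hz, Or.inr hc⟩
  have d2 : ∀ j, Dense (G₂ j) := by
    intro j
    rw [Metric.dense_iff]
    intro z r hr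
    obtain ⟨a, ha⟩ := hdx.exists_dist_lt z.1 (half_pos hr)
    obtain ⟨b, hb⟩ := hdy.exists_dist_lt z.2 (half_pos hr)
    obtain ⟨j', hj'⟩ := exists_nat_one_div_lt (half_pos hr)
    have hle : 1 / (((max j j' : ℕ) : ℝ) + 1) ≤ 1 / ((j' : ℝ) + 1) := Nat.one_div_le_one_div (le_max_right _ _)
    obtain ⟨u, hu⟩ := n1 (a, b, max j j')
    obtain ⟨v, hv⟩ := n2 (a, b, max j j')
    refine ⟨(u, v), ?_, Set.mem_iUnion₂.2 ⟨(a, b, max j j'), le_max_left j j', Set.mk_mem_prod hu hv⟩⟩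
    have e1 := s1 _ hu
    have e2 := s2 _ hv
    have e3 := dist_triangle_right u z.1 (T^[a] x)
    have e4 := dist_triangle_right v z.2 (S^[b] y)
    simp only [Metric.mem_ball] at e1 e2
    rw [Metric.mem_ball, Prod.dist_eq]
    exact max_lt (by linarith) (by linarith)
  have d3 : ∀ j, Dense (G₃ j) := by
    intro j
    rw [Metric.dense_iff]
    intro z r hr
    obtain ⟨a, ha⟩ := hdx.exists_dist_lt z.1 hr
    obtain ⟨n, hn⟩ := ((hx _ (Metric.ball_mem_nhds x (Nat.one_div_pos_of_nat (n := j)))).back a).nonempty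
    refine ⟨(T^[a] x, z.2), ?_, Set.mem_iUnion.2 ⟨n, ?_⟩⟩
    · rw [Metric.mem_ball, Prod.dist_eq]
      exact max_lt (by rwa [dist_comm]) (by simpa using hr)
    · simp only [Nn, Set.mem_setOf_eq, ← Function.iterate_add_apply] at hn ⊢
      rwa [add_comm n]
  have o3 : ∀ j, IsOpen (G₂ j) := fun j => isOpen_biUnion fun i _ => (o1 i).prod (o2 i)
  have o4 : ∀ j, IsOpen (G₃ j) := fun j => isOpen_iUnion fun n =>
    Metric.isOpen_ball.preimage ((hT.iterate n).comp continuous_fst)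
  have d4 : Dense ((⋂ j, G₂ j ∩ G₃ j) ∩ ⋂ p, G₁ p) := by
    refine Dense.inter_of_Gδ (IsGδ.iInter fun j => ((o3 j).inter (o4 j)).isGδ) (IsGδ.iInter fun p =>
      IsOpen.isGδ ((open_cnt hF (Metric.isOpen_ball.prod Metric.isOpen_ball) _ _).union
      isClosed_closure.isOpen_compl)) ?_ d1
    exact dense_iInter_of_isOpen (fun j => (o3 j).inter (o4 j)) fun j => (d2 j).inter_of_isOpen_left (d3 j) (o3 j)
  refine Dense.mono ?_ d4
  rintro z ⟨h1, h2⟩
  refine ⟨fun U hU => ?_, ?_⟩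
  · obtain ⟨ε, hε, hb⟩ := Metric.mem_nhds_iff.1 hU
    obtain ⟨j, hj⟩ := exists_nat_one_div_lt (half_pos hε)
    obtain ⟨i, hi, hz⟩ := Set.mem_iUnion₂.1 (Set.mem_iInter.1 h1 j).1
    have hle : 1 / ((i.2.2 : ℝ) + 1) ≤ 1 / ((j : ℝ) + 1) := Nat.one_div_le_one_div hi
    refine ⟨δ i, hδ i, fun L => ?_⟩
    obtain ⟨d, hd⟩ := (Set.mem_iInter.1 h2 (i, L)).resolve_right (not_not.2 (subset_closure hz))
    refine ⟨d, hd.trans (cnt_mono fun n _ hn => hb ?_)⟩
    have e1 := s1 _ hz.1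
    have e2 := s2 _ hz.2
    obtain ⟨e3, e4⟩ := hn
    simp only [Metric.mem_ball] at e1 e2 e3 e4
    have e5 := dist_triangle_right ((Prod.map T S)^[d + n] z).1 z.1 (T^[i.1] x)
    have e6 := dist_triangle_right ((Prod.map T S)^[d + n] z).2 z.2 (S^[i.2.1] y)
    rw [Metric.mem_ball, Prod.dist_eq]
    exact max_lt (by linarith) (by linarith)
  · rw [Metric.mem_closure_iff]
    intro ε hε
    obtain ⟨j, hj⟩ := exists_nat_one_div_lt hε
    obtain ⟨n, hn⟩ := Set.mem_iUnion.1 (Set.mem_iInter.1 h1 j).2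
    exact ⟨_, ⟨n, rfl⟩, by rw [dist_comm]; exact lt_trans hn hj⟩

def Orb {X : Type} [TopologicalSpace X] (T : X → X) (x : X) : Set X := closure (Set.range fun n => T^[n] x)

lemma orb_maps {X : Type} [TopologicalSpace X] {T : X → X} (hT : Continuous T) (x : X) :
    Set.MapsTo T (Orb T x) (Orb T x) := by
  refine Set.MapsTo.closure ?_ hT
  rintro _ ⟨n, rfl⟩
  exact ⟨n + 1, by simp only [Function.iterate_succ_apply']⟩

lemma self_orb {X : Type} [TopologicalSpace X] (T : X → X) (x : X) : x ∈ Orb T x := subset_closure ⟨0, rfl⟩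

lemma rr_restrict {X : Type} [TopologicalSpace X] {T : X → X} (hT : Continuous T) {x : X} (hx : RR T x) :
    RR ((orb_maps hT x).restrict T _ _) ⟨x, self_orb T x⟩ ∧
      DenseRange fun n => ((orb_maps hT x).restrict T _ _)^[n] ⟨x, self_orb T x⟩ := by
  constructor
  · intro U hU
    obtain ⟨V, hV, hs⟩ := (mem_nhds_subtype _ _ _).1 hU
    refine (hx V hV).mono fun n hn => hs ?_
    simp only [Set.mem_preimage, Set.MapsTo.coe_iterate_restrict]
    exact hn
  · rw [DenseRange, Subtype.dense_iff]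
    refine closure_mono ?_
    rintro _ ⟨n, rfl⟩
    exact ⟨_, ⟨n, rfl⟩, Set.MapsTo.coe_iterate_restrict _ _ _⟩

theorem rr_step (hT : Continuous T) (hS : Continuous S) (hx : RR T x) (hy : RR S y) {ε : ℝ} (hε : 0 < ε) :
    ∃ a b, dist a x < ε ∧ dist b y < ε ∧ RR (Prod.map T S) (a, b) ∧ a ∈ Orb T x ∧ x ∈ Orb T a := by
  have : CompleteSpace (Orb T x) := isClosed_closure.completeSpace_coe
  have : CompleteSpace (Orb S y) := isClosed_closure.completeSpace_coe
  obtain ⟨h1, h2⟩ := rr_restrict hT hx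
  obtain ⟨h3, h4⟩ := rr_restrict hS hy
  obtain ⟨⟨a, b⟩, hz, hz1, hz2⟩ := Metric.dense_iff.1
    (rr_dense (hT.restrict (orb_maps hT x)) (hS.restrict (orb_maps hS y)) h1 h3 h2 h4)
    (⟨x, self_orb T x⟩, ⟨y, self_orb S y⟩) ε hε
  rw [Metric.mem_ball, Prod.dist_eq, max_lt_iff] at hz
  refine ⟨a, b, hz.1, hz.2, ?_, a.2, ?_⟩
  · exact RR.factor (π := Prod.map Subtype.val Subtype.val) (continuous_subtype_val.prodMap continuous_subtype_val)
      (fun _ => rfl) hz1
  · refine map_mem_closure (f := Subtype.val) continuous_subtype_val hz2 ?_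
    rintro _ ⟨n, rfl⟩
    exact ⟨n, (Set.MapsTo.coe_iterate_restrict _ _ _).symm⟩

theorem rr_prod (hT : Continuous T) (hS : Continuous S) (hx : Dense {x | RR T x}) (hy : Dense {y | RR S y}) :
    Dense {z | RR (Prod.map T S) z} := by
  rw [Metric.dense_iff] at hx hy ⊢
  intro z r hr
  obtain ⟨x, h1, h2⟩ := hx z.1 _ (half_pos hr)
  obtain ⟨y, h3, h4⟩ := hy z.2 _ (half_pos hr)
  obtain ⟨a, b, e1, e2, e3, -⟩ := rr_step hT hS h2 h4 (half_pos hr)
  refine ⟨(a, b), ?_, e3⟩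
  have := dist_triangle a x z.1
  have := dist_triangle b y z.2
  rw [Metric.mem_ball] at h1 h3
  rw [Metric.mem_ball, Prod.dist_eq]
  exact max_lt (by linarith) (by linarith)

theorem rr_pi (hT : Continuous T) (hx : Dense {x | RR T x}) (n : ℕ) :
    Dense {z : Fin n → X | RR (fun (z : Fin n → X) i => T (z i)) z} := by
  induction n with
  | zero =>
    intro z
    refine subset_closure fun U hU => pos_univ.mono fun n _ => ?_
    have := mem_of_mem_nhds hU
    simp only [Nn, Set.mem_setOf_eq]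
    rwa [Subsingleton.elim (_^[n] z) z]
  | succ n ih =>
    have h := rr_prod hT (continuous_pi fun i => hT.comp (continuous_apply i)) hx ih
    have hπ : Continuous fun p : X × (Fin n → X) => (Fin.cons p.1 p.2 : Fin (n + 1) → X) := by fun_prop
    have hs : Function.Surjective fun p : X × (Fin n → X) => (Fin.cons p.1 p.2 : Fin (n + 1) → X) :=
      fun z => ⟨(z 0, Fin.tail z), Fin.cons_self_tail z⟩
    refine (hs.denseRange.dense_image hπ h).mono ?_
    rintro _ ⟨p, hp, rfl⟩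
    refine RR.factor hπ (fun p => ?_) hp
    funext i
    refine Fin.cases ?_ (fun i => ?_) i <;> rfl

end Pool.Agent.H963Z
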