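import Mathlib

/-! Definitions for recurrence of direct sums. -/

set_option autoImplicit false

namespace Pool.Agent.H963Z.Sum

open Filter Topology

/-- lower density -/
noncomputable def lowerDens (A : Set ℕ) : ℝ :=
  liminf (fun N : ℕ => ((A ∩ Set.Icc 0 N).ncard : ℝ) / (N + 1)) atTop

/-- upper density -/
noncomputable def upperDens (A : Set ℕ) : ℝ :=
  limsup (fun N : ℕ => ((A ∩ Set.Icc 0 N).ncard : ℝ) / (N + 1)) atTop

/-- upper Banach density -/
noncomputable def banachDens (A : Set ℕ) : ℝ :=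
  limsup (fun N : ℕ => ⨆ m : ℕ, ((A ∩ Set.Icc m (m + N)).ncard : ℝ) / (N + 1)) atTop

/-- bounded gaps -/
def Syndetic (A : Set ℕ) : Prop := ∃ M : ℕ, ∀ m : ℕ, ∃ n ∈ A, m ≤ n ∧ n ≤ m + M

/-- The vectors all of whose return sets belong to the family `F` are dense. -/
def RecOp (F : Set ℕ → Prop) {X : Type} [TopologicalSpace X] (T : X → X) : Prop :=
  Dense {x : X | ∀ U ∈ 𝓝 x, F {n : ℕ | T^[n] x ∈ U}}

/-- Fréchet space: complete, Hausdorff, topology given by countably many seminorms. -/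
def IsFrechet (𝕜 X : Type) [RCLike 𝕜] [AddCommGroup X] [Module 𝕜 X] [UniformSpace X] : Prop :=
  IsUniformAddGroup X ∧ CompleteSpace X ∧ T2Space X ∧
    ∃ (ι : Type) (_ : Countable ι) (p : SeminormFamily 𝕜 X ι), WithSeminorms p

/-- The property given by `F` passes from every operator on a Fréchet space over `𝕜` to its
`n`-fold direct sums. -/
def Stable (F : Set ℕ → Prop) (𝕜 : Type) [RCLike 𝕜] : Prop :=
  ∀ (X : Type) [AddCommGroup X] [Module 𝕜 X] [UniformSpace X], IsFrechet 𝕜 X →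
    ∀ T : X →L[𝕜] X, RecOp F T → ∀ n : ℕ, 2 ≤ n →
      RecOp F (ContinuousLinearMap.piMap fun _ : Fin n => T)

end Pool.Agent.H963Z.Sum
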