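import Mathlib

/-! Joint uniform recurrence. -/

set_option autoImplicit false

namespace Pool.Agent.H963Z

open Filter Topology Set

def UR {X : Type} [TopologicalSpace X] (T : X → X) (x : X) : Prop :=
  ∀ U ∈ 𝓝 x, ∃ M : ℕ, ∀ m : ℕ, ∃ n : ℕ, m ≤ n ∧ n ≤ m + M ∧ T^[n] x ∈ U

lemma UR.factor {X Y : Type} [TopologicalSpace X] [TopologicalSpace Y] {T : X → X} {S : Y → Y}
    {π : X → Y} (hπ : Continuous π) (h : Function.Semiconj π T S) {x : X} (hx : UR T x) : UR S (π x) := by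
  intro U hU
  obtain ⟨M, hM⟩ := hx (π ⁻¹' U) (hπ.continuousAt.preimage_mem_nhds hU)
  refine ⟨M, fun m => ?_⟩
  obtain ⟨n, h1, h2, h3⟩ := hM m
  exact ⟨n, h1, h2, by rw [← (h.iterate_right n).eq]; exact h3⟩

lemma exists_min {Z : Type} [TopologicalSpace Z] [CompactSpace Z] [Nonempty Z] (F : Z → Z)
    (hF : Continuous F) : ∃ W : Set Z, W.Nonempty ∧ IsClosed W ∧ MapsTo F W W ∧
      ∀ w ∈ W, ∀ w' ∈ W, ∀ O, IsOpen O → w' ∈ O → ∃ n, F^[n] w ∈ O := by
  obtain ⟨W, -, hW⟩ := zorn_superset_nonempty {W : Set Z | W.Nonempty ∧ IsClosed W ∧ MapsTo F W W}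
    (fun c hc hch hne => by
      refine ⟨⋂₀ c, ⟨?_, isClosed_sInter fun s hs => (hc hs).2.1, ?_⟩, fun s hs => sInter_subset_of_mem hs⟩
      · have : Nonempty c := hne.to_subtype
        exact IsCompact.nonempty_sInter_of_directed_nonempty_isCompact_isClosed
          (fun a ha b hb => by
            rcases hch.total ha hb with h | h
            · exact ⟨a, ha, subset_rfl, h⟩
            · exact ⟨b, hb, h, subset_rfl⟩) (fun s hs => (hc hs).1) (fun s hs => (hc hs).2.1.isCompact)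
          (fun s hs => (hc hs).2.1)
      · intro z hz s hs
        exact (hc hs).2.2 (hz s hs))
    univ ⟨univ_nonempty, isClosed_univ, mapsTo_univ _ _⟩
  obtain ⟨h1, h2, h3⟩ := hW.prop
  refine ⟨W, h1, h2, h3, fun w hw w' hw' O hO hwO => ?_⟩
  have hsub : closure (range fun n => F^[n] w) ⊆ W :=
    closure_minimal (by rintro _ ⟨n, rfl⟩; exact h3.iterate n hw) h2
  have hmem : W ⊆ closure (range fun n => F^[n] w) := by
    refine hW.le_of_le ⟨⟨w, subset_closure ⟨0, rfl⟩⟩, isClosed_closure, ?_⟩ hsub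
    refine MapsTo.closure ?_ hF
    rintro _ ⟨n, rfl⟩
    exact ⟨n + 1, by simp only [Function.iterate_succ_apply']⟩
  obtain ⟨_, h, n, rfl⟩ := mem_closure_iff.1 (hmem hw') O hO hwO
  exact ⟨n, h⟩

lemma min_synd {Z : Type} [TopologicalSpace Z] [CompactSpace Z] {F : Z → Z} (hF : Continuous F)
    {W : Set Z} (h2 : IsClosed W) (h3 : MapsTo F W W)
    (h4 : ∀ w ∈ W, ∀ w' ∈ W, ∀ O, IsOpen O → w' ∈ O → ∃ n, F^[n] w ∈ O) {w : Z} (hw : w ∈ W)
    {O : Set Z} (hO : IsOpen O) (hwO : w ∈ O) :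
    ∃ M : ℕ, ∀ m : ℕ, ∃ n : ℕ, m ≤ n ∧ n ≤ m + M ∧ F^[n] w ∈ O := by
  obtain ⟨t, ht⟩ := h2.isCompact.elim_finite_subcover (fun j : ℕ => F^[j] ⁻¹' O)
    (fun j => hO.preimage (hF.iterate j)) (fun w' hw' => mem_iUnion.2 (h4 w' hw' w hw O hO hwO))
  refine ⟨t.sup id, fun m => ?_⟩
  obtain ⟨j, hj, hj'⟩ := mem_iUnion₂.1 (ht (h3.iterate m hw))
  have : j ≤ t.sup id := Finset.le_sup (f := id) hj
  exact ⟨j + m, by omega, by omega, by rw [Function.iterate_add_apply]; exact hj'⟩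

lemma cont_umap (f : ℕ → ℕ) : Continuous (Ultrafilter.map f) := by
  rw [ultrafilterBasis_is_basis.continuous_iff]
  rintro _ ⟨s, rfl⟩
  exact ultrafilter_isOpen_basic (f ⁻¹' s)

theorem urec_prod {ι : Type} [Countable ι] {X : ι → Type} [∀ i, MetricSpace (X i)]
    [∀ i, CompleteSpace (X i)] (T : ∀ i, X i → X i) (hT : ∀ i, Continuous (T i)) (x : ∀ i, X i)
    (hx : ∀ i, UR (T i) (x i)) (ε : ι → ℝ) (hε : ∀ i, 0 < ε i) :
    ∃ x' : ∀ i, X i, (∀ i, dist (x' i) (x i) < ε i) ∧ UR (fun (z : ∀ i, X i) i => T i (z i)) x' := by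
  classical
  let F : (ι → Ultrafilter ℕ) → (ι → Ultrafilter ℕ) := fun p i => (p i).map Nat.succ
  have hF : Continuous F := continuous_pi fun i => (cont_umap _).comp (continuous_apply i)
  have hFi : ∀ j p i, (F^[j] p) i = (p i).map (· + j) := by
    intro j
    induction j with
    | zero => intro p i; rfl
    | succ j ih =>
      intro p i
      rw [Function.iterate_succ_apply']
      change ((F^[j] p) i).map Nat.succ = _
      rw [ih]; rfl
  obtain ⟨W, hW1, hW2, hW3, hW4⟩ := exists_min F hF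
  let orb : ∀ i, ℕ → X i := fun i n => (T i)^[n] (x i)
  have hop : ∀ (i : ι) (s : Set ℕ), IsOpen {p : ι → Ultrafilter ℕ | s ∈ p i} := fun i s =>
    (ultrafilter_isOpen_basic s).preimage (f := fun p : ι → Ultrafilter ℕ => p i) (continuous_apply i)
  have hcl : ∀ (i : ι) (s : Set ℕ), IsClosed {p : ι → Ultrafilter ℕ | s ∈ p i} := fun i s =>
    (ultrafilter_isClosed_basic s).preimage (f := fun p : ι → Ultrafilter ℕ => p i) (continuous_apply i)
  have hB : ∀ i (p : ι → Ultrafilter ℕ) (a : X i) (j : ℕ), Tendsto (orb i) (p i) (𝓝 a) →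
      Tendsto (orb i) ((F^[j] p) i) (𝓝 ((T i)^[j] a)) := by
    intro i p a j h
    rw [hFi, Ultrafilter.coe_map, tendsto_map'_iff]
    have := (((hT i).iterate j).tendsto a).comp h
    refine this.congr fun n => ?_
    simp only [orb, Function.comp]
    rw [add_comm, Function.iterate_add_apply]
  have hA : ∀ i, ∃ p ∈ W, Tendsto (orb i) (p i) (𝓝 (x i)) := by
    intro i
    obtain ⟨p, hp⟩ := IsCompact.nonempty_iInter_of_sequence_nonempty_isCompact_isClosed
      (fun j : ℕ => W ∩ {p | {n | dist (orb i n) (x i) < 1 / ((j : ℝ) + 1)} ∈ p i})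
      (fun j p hp => ⟨hp.1, mem_of_superset hp.2 fun n hn => by
        simp only [mem_setOf_eq] at hn ⊢
        exact lt_of_lt_of_le hn (Nat.one_div_le_one_div (Nat.le_succ j))⟩)
      (fun j => by
        obtain ⟨w, hw⟩ := hW1
        obtain ⟨M, hM⟩ := hx i _ (Metric.ball_mem_nhds (x i) (Nat.one_div_pos_of_nat (n := j)))
        have h1 : (⋃ k ∈ Iic M, {m | dist (orb i (m + k)) (x i) < 1 / ((j : ℝ) + 1)}) ∈ w i := by
          refine univ_mem' fun m => ?_
          obtain ⟨n, h1, h2, h3⟩ := hM m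
          refine mem_iUnion₂.2 ⟨n - m, by simp; omega, ?_⟩
          simp only [mem_setOf_eq]
          rw [show m + (n - m) = n by omega]
          exact h3
        obtain ⟨k, -, hk⟩ := (Ultrafilter.finite_biUnion_mem_iff (finite_Iic M)).1 h1
        refine ⟨F^[k] w, hW3.iterate k hw, ?_⟩
        simp only [mem_setOf_eq]
        rw [hFi]
        exact hk)
      ((hW2.inter (hcl _ _)).isCompact) (fun j => hW2.inter (hcl _ _))
    rw [mem_iInter] at hp
    refine ⟨p, (hp 0).1, Metric.tendsto_nhds.2 fun η hη => ?_⟩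
    obtain ⟨j, hj⟩ := exists_nat_one_div_lt hη
    exact mem_of_superset (hp j).2 fun n hn => lt_trans hn hj
  let G : ι × ℕ → Set (ι → Ultrafilter ℕ) := fun r =>
    ⋃ k : ℕ, {p | {n | dist (orb r.1 n) (orb r.1 k) < 1 / ((r.2 : ℝ) + 1)} ∈ p r.1}
  have hGo : ∀ r, IsOpen (G r) := fun r => isOpen_iUnion fun k => hop _ _
  have : CompactSpace W := isCompact_iff_compactSpace.1 hW2.isCompact
  have : Nonempty W := hW1.to_subtype
  have hd : Dense (⋂ r, (Subtype.val : W → _) ⁻¹' G r) := by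
    refine dense_iInter_of_isOpen (fun r => (hGo r).preimage continuous_subtype_val) fun r => ?_
    rw [Subtype.dense_iff, Subtype.image_preimage_coe]
    intro w hw
    rw [mem_closure_iff]
    intro O hO hwO
    obtain ⟨p, hp, hp'⟩ := hA r.1
    obtain ⟨n, hn⟩ := hW4 p hp w hw O hO hwO
    refine ⟨F^[n] p, hn, hW3.iterate n hp, mem_iUnion.2 ⟨n, ?_⟩⟩
    exact Metric.tendsto_nhds.1 (hB r.1 p _ n hp') _ Nat.one_div_pos_of_nat
  obtain ⟨⟨p, hp⟩, hp'⟩ := hd.nonempty
  simp only [mem_iInter, mem_preimage] at hp'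
  have hlim : ∀ i, ∃ a, Tendsto (orb i) (p i) (𝓝 a) := by
    intro i
    refine CompleteSpace.complete (f := map (orb i) (p i)) (Metric.cauchy_iff.2 ⟨inferInstance, fun η hη => ?_⟩)
    obtain ⟨j, hj⟩ := exists_nat_one_div_lt (half_pos hη)
    obtain ⟨k, hk⟩ := mem_iUnion.1 (hp' (i, j))
    refine ⟨Metric.ball (orb i k) (1 / ((j : ℝ) + 1)), hk, fun u hu v hv => ?_⟩
    have := dist_triangle_right u v (orb i k)
    rw [Metric.mem_ball] at hu hv
    linarith
  choose y hy using hlim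
  have ha : ∀ i, ∃ a, dist ((T i)^[a] (y i)) (x i) < ε i := by
    intro i
    obtain ⟨q, hq, hq'⟩ := hA i
    obtain ⟨a, ha⟩ := hW4 p hp q hq _ (hop i {n | dist (orb i n) (x i) ≤ ε i / 2})
      (hq' (Metric.closedBall_mem_nhds (x i) (half_pos (hε i))))
    refine ⟨a, lt_of_le_of_lt ?_ (half_lt_self (hε i))⟩
    exact Metric.isClosed_closedBall.mem_of_tendsto (hB i p _ a (hy i)) ha
  choose a ha using ha
  have hit : ∀ (n : ℕ) (z : ∀ i, X i) i, ((fun (z : ∀ i, X i) i => T i (z i))^[n] z) i = (T i)^[n] (z i) := by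
    intro n
    induction n with
    | zero => intro z i; rfl
    | succ n ih => intro z i; rw [Function.iterate_succ_apply, Function.iterate_succ_apply, ih]
  have hy' : UR (fun (z : ∀ i, X i) i => T i (z i)) y := by
    intro U hU
    rw [nhds_pi, Filter.mem_pi'] at hU
    obtain ⟨I, t, ht, hsub⟩ := hU
    choose c hc hc' hc'' using fun i => exists_mem_nhds_isClosed_subset (ht i)
    obtain ⟨M, hM⟩ := min_synd hF hW2 hW3 hW4 hp (O := ⋂ i ∈ I, {q | orb i ⁻¹' c i ∈ q i})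
      (isOpen_biInter_finset fun i _ => hop _ _) (mem_iInter₂.2 fun i _ => hy i (hc i))
    refine ⟨M, fun m => ?_⟩
    obtain ⟨n, h1, h2, h3⟩ := hM m
    refine ⟨n, h1, h2, hsub fun i hi => ?_⟩
    rw [hit]
    exact hc'' i ((hc' i).mem_of_tendsto (hB i p _ n (hy i)) (mem_iInter₂.1 h3 i hi))
  refine ⟨fun i => (T i)^[a i] (y i), ha, ?_⟩
  refine UR.factor (π := fun (z : ∀ i, X i) i => (T i)^[a i] (z i))
    (continuous_pi fun i => ((hT i).iterate _).comp (continuous_apply i)) ?_ hy'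
  intro z
  funext i
  simp only
  rw [← Function.iterate_succ_apply, Function.iterate_succ_apply']

end Pool.Agent.H963Z
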