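import Pool.Agent.H963Z.SumDefs
import Pool.Agent.H963Z.Main
import Pool.Agent.H963Z.URec

/-! Direct sums: uniform recurrence passes, frequent recurrence does not. -/

set_option autoImplicit false

namespace Pool.Agent.H963Z.Sum

open Filter Topology

lemma IsFrechet.cm {𝕜 X : Type} [RCLike 𝕜] [AddCommGroup X] [Module 𝕜 X] [UniformSpace X]
    (h : IsFrechet 𝕜 X) : TopologicalSpace.IsCompletelyMetrizableSpace X := by
  obtain ⟨h1, h2, h3, ι, hι, p, hp⟩ := h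
  have := hp.firstCountableTopology
  have : (uniformity X).IsCountablyGenerated := IsUniformAddGroup.uniformity_countably_generated
  infer_instance

lemma ur_iff {X : Type} [TopologicalSpace X] (T : X → X) (x : X) :
    (∀ U ∈ 𝓝 x, Syndetic {n : ℕ | T^[n] x ∈ U}) ↔ UR T x := by
  refine forall₂_congr fun U _ => exists_congr fun M => forall_congr' fun m => exists_congr fun n => ?_
  simp only [Set.mem_setOf_eq]
  tauto

lemma urec_pi {ι X : Type} [Countable ι] [TopologicalSpace X] [TopologicalSpace.IsCompletelyMetrizableSpace X]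
    (T : X → X) (hT : Continuous T) (h : Dense {x | UR T x}) :
    Dense {z : ι → X | UR (fun (z : ι → X) i => T (z i)) z} := by
  letI := TopologicalSpace.upgradeIsCompletelyMetrizable X
  rw [dense_iff_inter_open]
  rintro O hO ⟨z, hz⟩
  have hO' := hO.mem_nhds hz
  rw [nhds_pi, Filter.mem_pi'] at hO'
  obtain ⟨I, t, ht, hsub⟩ := hO'
  choose r hr hr' using fun i => Metric.mem_nhds_iff.1 (ht i)
  choose x hx hx' using fun i => Metric.dense_iff.1 h (z i) (r i / 2) (half_pos (hr i))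
  obtain ⟨x', h1, h2⟩ := urec_prod (X := fun _ : ι => X) (fun _ => T) (fun _ => hT) x hx' (fun i => r i / 2)
    (fun i => half_pos (hr i))
  refine ⟨x', hsub fun i _ => hr' i ?_, h2⟩
  have := dist_triangle (x' i) (x i) (z i)
  have e := hx i
  have := h1 i
  rw [Metric.mem_ball] at e ⊢
  linarith

theorem stable_synd (𝕜 : Type) [RCLike 𝕜] : Stable Syndetic 𝕜 := by
  intro X _ _ _ hX T hT n _
  have := hX.cm
  unfold RecOp at hT ⊢
  simp only [ur_iff] at hT ⊢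
  exact urec_pi T T.continuous hT

lemma dens_le_one (A : Set ℕ) (m N : ℕ) : ((A ∩ Set.Icc m (m + N)).ncard : ℝ) / (N + 1) ≤ 1 := by
  rw [div_le_one (by positivity)]
  have := Set.ncard_le_ncard (Set.inter_subset_right : A ∩ Set.Icc m (m + N) ⊆ _) (Set.finite_Icc _ _)
  have e : (Set.Icc m (m + N)).ncard = N + 1 := by
    rw [Set.ncard_eq_toFinset_card', Set.toFinset_Icc, Nat.card_Icc]
    omega
  have h : (A ∩ Set.Icc m (m + N)).ncard ≤ N + 1 := e ▸ this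
  exact_mod_cast h

lemma dens_le_one' (A : Set ℕ) (N : ℕ) : ((A ∩ Set.Icc 0 N).ncard : ℝ) / (N + 1) ≤ 1 := by
  simpa using dens_le_one A 0 N

lemma lower_le_upper (A : Set ℕ) : lowerDens A ≤ upperDens A :=
  liminf_le_limsup (isBoundedUnder_of ⟨1, dens_le_one' A⟩) (isBoundedUnder_of ⟨0, fun _ => by positivity⟩)

lemma upper_mono {A B : Set ℕ} (h : A ⊆ B) : upperDens A ≤ upperDens B := by
  refine limsup_le_limsup (Eventually.of_forall fun N => ?_)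
    (isCoboundedUnder_le_of_le atTop (x := 0) fun _ => by positivity) (isBoundedUnder_of ⟨1, dens_le_one' B⟩)
  have := Set.ncard_le_ncard (Set.inter_subset_inter_left (Set.Icc 0 N) h)
    ((Set.finite_Icc _ _).subset Set.inter_subset_right)
  simp only
  gcongr

lemma lower_pos {A : Set ℕ} {δ : ℝ} (hδ : 0 < δ) {N₀ : ℕ}
    (h : ∀ N : ℕ, N₀ ≤ N → δ * (N : ℝ) ≤ (({n : ℕ | 1 ≤ n ∧ n ≤ N ∧ n ∈ A}.ncard : ℕ) : ℝ)) :
    0 < lowerDens A := by
  refine lt_of_lt_of_le (half_pos hδ) (le_liminf_of_le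
    (isCoboundedUnder_ge_of_le atTop (x := 1) (dens_le_one' A)) ?_)
  filter_upwards [eventually_ge_atTop (max N₀ 1)] with N hN
  have h1 := h N (le_trans (le_max_left _ _) hN)
  have h2 : (1 : ℝ) ≤ N := by exact_mod_cast le_trans (le_max_right _ _) hN
  have h3 : {n : ℕ | 1 ≤ n ∧ n ≤ N ∧ n ∈ A}.ncard ≤ (A ∩ Set.Icc 0 N).ncard :=
    Set.ncard_le_ncard (fun n hn => ⟨hn.2.2, Nat.zero_le _, hn.2.1⟩)
      ((Set.finite_Icc _ _).subset Set.inter_subset_right)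
  have h4 : (({n : ℕ | 1 ≤ n ∧ n ≤ N ∧ n ∈ A}.ncard : ℕ) : ℝ) ≤ (A ∩ Set.Icc 0 N).ncard := by exact_mod_cast h3
  rw [le_div_iff₀ (by positivity)]
  nlinarith

lemma upper_nonpos {A : Set ℕ} (h : ∀ ε : ℝ, 0 < ε → ∃ N₀ : ℕ, ∀ N : ℕ, N₀ ≤ N →
    (({n : ℕ | 1 ≤ n ∧ n ≤ N ∧ n ∈ A}.ncard : ℕ) : ℝ) < ε * N) : upperDens A ≤ 0 := by
  refine le_of_forall_pos_le_add fun ε hε => ?_
  rw [zero_add]
  refine limsup_le_of_le (isCoboundedUnder_le_of_le atTop (x := 0) fun _ => by positivity) ?_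
  obtain ⟨N₀, hN₀⟩ := h (ε / 2) (half_pos hε)
  obtain ⟨N₁, hN₁⟩ := exists_nat_ge (2 / ε)
  filter_upwards [eventually_ge_atTop (max N₀ N₁)] with N hN
  have h1 := hN₀ N (le_trans (le_max_left _ _) hN)
  have h2 : (N₁ : ℝ) ≤ N := by exact_mod_cast le_trans (le_max_right _ _) hN
  have h3 : (A ∩ Set.Icc 0 N).ncard ≤ {n : ℕ | 1 ≤ n ∧ n ≤ N ∧ n ∈ A}.ncard + 1 := by
    refine le_trans (Set.ncard_le_ncard (t := insert 0 {n : ℕ | 1 ≤ n ∧ n ≤ N ∧ n ∈ A}) ?_ ?_)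
      (Set.ncard_insert_le _ _)
    · rintro n ⟨h1, -, h2⟩
      rcases Nat.eq_zero_or_pos n with h | h
      · exact Or.inl h
      · exact Or.inr ⟨h, h2, h1⟩
    · exact ((Set.finite_Iic N).subset fun n hn => hn.2.1).insert 0
  have h4 : ((A ∩ Set.Icc 0 N).ncard : ℝ) ≤ ({n : ℕ | 1 ≤ n ∧ n ≤ N ∧ n ∈ A}.ncard : ℕ) + 1 := by
    exact_mod_cast h3
  rw [div_le_iff₀ hε] at hN₁
  rw [div_le_iff₀ (by positivity)]
  nlinarith

variable (𝕜 : Type) [RCLike 𝕜]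

lemma XS_frechet : IsFrechet 𝕜 (XS 𝕜) :=
  ⟨inferInstance, inferInstance, inferInstance, Fin 1, inferInstance, _, norm_withSeminorms 𝕜 (XS 𝕜)⟩

lemma TX_frec : RecOp (fun A => 0 < lowerDens A) (TX 𝕜) := by
  refine (frec_dense 𝕜).mono fun x hx U hU => ?_
  obtain ⟨δ, hδ, N₀, h⟩ := hx U hU
  simp only [FunLike.coe_pow_eq_iterate] at h
  exact lower_pos hδ h

lemma TX_sum (n : ℕ) (hn : 2 ≤ n) :
    ¬ RecOp (fun A => 0 < upperDens A) (ContinuousLinearMap.piMap fun _ : Fin n => TX 𝕜) := by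
  intro h
  let i₀ : Fin n := ⟨0, by omega⟩
  let i₁ : Fin n := ⟨1, by omega⟩
  let D : (Fin n → XS 𝕜) → 𝕜 := fun v =>
    (PX 𝕜 (v i₀)).1 * (PX 𝕜 (v i₁)).2 - (PX 𝕜 (v i₀)).2 * (PX 𝕜 (v i₁)).1
  have hD : Continuous D := by
    have := (PX 𝕜).continuous
    fun_prop
  obtain ⟨e₀, he₀⟩ := PX_surj 𝕜 (1, 0)
  obtain ⟨e₁, he₁⟩ := PX_surj 𝕜 (0, 1)
  obtain ⟨v, hv, hv'⟩ := h.inter_open_nonempty {v | D v ≠ 0} (isOpen_ne_fun hD continuous_const)
    ⟨fun i => if i = i₀ then e₀ else e₁, by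
      have : i₁ ≠ i₀ := by simp [i₀, i₁]
      simp [D, this, he₀, he₁]⟩
  let π : (Fin n → XS 𝕜) → XS 𝕜 := fun z =>
    ((PX 𝕜 (v i₁)).2 / D v) • z i₀ - ((PX 𝕜 (v i₀)).2 / D v) • z i₁
  have hπ : Continuous π := by fun_prop
  have hs : Function.Semiconj π (ContinuousLinearMap.piMap fun _ : Fin n => TX 𝕜) (TX 𝕜) := by
    intro z
    simp only [π, map_sub, map_smul]
    rfl
  have hP : PX 𝕜 (π v) = (1, 0) := by
    have hv0 : D v ≠ 0 := hv
    simp only [π, map_sub, map_smul]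
    ext
    · simp only [Prod.fst_sub, Prod.smul_fst, smul_eq_mul]
      field_simp
      simp only [D]
      ring
    · simp only [Prod.snd_sub, Prod.smul_snd, smul_eq_mul]
      field_simp
      ring
  obtain ⟨U, hU, hU'⟩ := not_uf 𝕜 (π v) hP
  simp only [FunLike.coe_pow_eq_iterate] at hU'
  have h1 := hv' (π ⁻¹' U) (hπ.continuousAt.preimage_mem_nhds hU)
  have h2 := upper_nonpos (A := {n | (TX 𝕜)^[n] (π v) ∈ U}) hU'
  refine absurd (lt_of_lt_of_le h1 (upper_mono fun m hm => ?_)) (not_lt.2 h2)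
  simp only [Set.mem_setOf_eq] at hm ⊢
  rw [← (hs.iterate_right m).eq]
  exact hm

lemma recOp_upper {X : Type} [TopologicalSpace X] {T : X → X} (h : RecOp (fun A => 0 < lowerDens A) T) :
    RecOp (fun A => 0 < upperDens A) T := by
  refine Dense.mono (fun x hx U hU => ?_) h
  exact lt_of_lt_of_le (hx U hU) (lower_le_upper _)

theorem not_stable_lower : ¬ Stable (fun A => 0 < lowerDens A) 𝕜 := fun h =>
  TX_sum 𝕜 2 le_rfl (recOp_upper (h (XS 𝕜) (XS_frechet 𝕜) (TX 𝕜) (TX_frec 𝕜) 2 le_rfl))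

theorem not_stable_upper : ¬ Stable (fun A => 0 < upperDens A) 𝕜 := fun h =>
  TX_sum 𝕜 2 le_rfl (h (XS 𝕜) (XS_frechet 𝕜) (TX 𝕜) (recOp_upper (TX_frec 𝕜)) 2 le_rfl)

end Pool.Agent.H963Z.Sum
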