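import Pool.Agent.H963Z.SumNeg
import Pool.Agent.H963Z.RR4

/-! Direct sums: reiterative recurrence passes. -/

set_option autoImplicit false

namespace Pool.Agent.H963Z.Sum

open Filter Topology

lemma ncard_Icc (A : Set ℕ) (m N : ℕ) : ((A ∩ Set.Icc m (m + N)).ncard : ℝ) = wct A m (N + 1) := by
  rw [cnt_eq]
  congr 1
  have : A ∩ Set.Icc m (m + N) = (fun n => m + n) '' {n : ℕ | n < N + 1 ∧ m + n ∈ A} := by
    ext n
    constructor
    · rintro ⟨h1, h2, h3⟩
      exact ⟨n - m, ⟨by omega, by rwa [show m + (n - m) = n by omega]⟩, by simp only; omega⟩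
    · rintro ⟨k, ⟨h1, h2⟩, rfl⟩
      exact ⟨h2, by simp only; omega, by simp only; omega⟩
  rw [this, Set.ncard_image_of_injective _ (add_right_injective m)]

lemma banach_iff (A : Set ℕ) : 0 < banachDens A ↔ Pos A := by
  have hb : ∀ N : ℕ, BddAbove (Set.range fun m : ℕ => ((A ∩ Set.Icc m (m + N)).ncard : ℝ) / (N + 1)) :=
    fun N => ⟨1, by rintro _ ⟨m, rfl⟩; exact dens_le_one A m N⟩
  constructor
  · intro h
    by_contra hn
    refine absurd h (not_lt.2 (le_of_forall_pos_le_add fun ε hε => ?_))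
    rw [zero_add]
    refine limsup_le_of_le (isCoboundedUnder_le_of_le atTop (x := 0) fun N =>
      Real.iSup_nonneg fun _ => by positivity) ?_
    obtain ⟨L₀, hL₀⟩ := null_of_not_pos hn ε hε
    filter_upwards [eventually_ge_atTop L₀] with N hN
    refine ciSup_le fun m => ?_
    rw [div_le_iff₀ (by positivity), ncard_Icc]
    exact_mod_cast hL₀ (N + 1) (by omega) m
  · rintro ⟨δ, hδ, h⟩
    refine lt_of_lt_of_le hδ (le_limsup_of_frequently_le (Eventually.of_forall fun N => ?_).frequently
      (isBoundedUnder_of ⟨1, fun N => ciSup_le fun m => dens_le_one A m N⟩))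
    obtain ⟨m, hm⟩ := h (N + 1)
    refine le_trans ?_ (le_ciSup (hb N) m)
    rw [le_div_iff₀ (by positivity), ncard_Icc]
    exact_mod_cast hm

theorem stable_banach (𝕜 : Type) [RCLike 𝕜] : Stable (fun A => 0 < banachDens A) 𝕜 := by
  intro X _ _ _ hX T hT n _
  have := hX.cm
  unfold RecOp at hT ⊢
  simp only [banach_iff] at hT ⊢
  have key : ∀ (X : Type) [TopologicalSpace X] [TopologicalSpace.IsCompletelyMetrizableSpace X] (T : X → X),
      Continuous T → Dense {x | RR T x} → Dense {z : Fin n → X | RR (fun (z : Fin n → X) i => T (z i)) z} := by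
    intro X _ _ T hT h
    letI := TopologicalSpace.upgradeIsCompletelyMetrizable X
    exact rr_pi hT h n
  exact key X T T.continuous hT

end Pool.Agent.H963Z.Sum
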